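import Mathlib
import Pool.Agent.Helper53.ChromMono

set_option autoImplicit false

/-!
Random proper colourings of induced subgraphs: expectations of symmetric functions of the classes.
-/

namespace Helper87.BWL

open Finset Classical Helper53.BW

noncomputable section

variable {V : Type*} {G : SimpleGraph V}

/-- sum of `Φ` over the proper `k`-colourings of `G[W]`; a colouring is recorded by the multiset
of its `k` classes -/
def S (G : SimpleGraph V) : ℕ → Finset V → (Multiset (Finset V) → ℝ) → ℝ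
  | 0, W, Φ => if W = ∅ then Φ 0 else 0
  | (k+1), W, Φ => ∑ D ∈ I G W, S G k (W \ D) (fun m => Φ (D ::ₘ m))

/-- additive functional of the classes -/
def sh (h : Finset V → ℝ) (m : Multiset (Finset V)) : ℝ := (m.map h).sum

/-- mean of `Φ` over the proper `k`-colourings of `G[W]` -/
def Ex (G : SimpleGraph V) (k : ℕ) (W : Finset V) (Φ : Multiset (Finset V) → ℝ) : ℝ :=
  S G k W Φ / P G k W

/-- mean of an additive functional -/
def a (G : SimpleGraph V) (k : ℕ) (W : Finset V) (h : Finset V → ℝ) : ℝ := Ex G k W (sh h)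

/-- mean of `φ` over the law of the class of the first colour -/
def ED (G : SimpleGraph V) (k : ℕ) (W : Finset V) (φ : Finset V → ℝ) : ℝ :=
  (∑ D ∈ I G W, P G (k-1) (W \ D) * φ D) / P G k W

/-- the empty class -/
def em (D : Finset V) : ℝ := if D = ∅ then 1 else 0

/-- the class contains `v` -/
def nv (v : V) (D : Finset V) : ℝ := if v ∈ D then 1 else 0

/-- the class avoids `X` -/
def fr (X : Set V) (D : Finset V) : ℝ := if ∀ y ∈ D, y ∉ X then 1 else 0

/-- number of elements of the class in `X` -/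
def ci (X : Set V) (D : Finset V) : ℝ := ((D.filter (fun y => y ∈ X)).card : ℝ)

/-- number of superfluous elements of the class in `X` -/
def xi (X : Set V) (D : Finset V) : ℝ := ci X D - 1 + fr X D

/-- size of the class -/
def cd (D : Finset V) : ℝ := (D.card : ℝ)

/-- response of the mean of `sh h` to the first class -/
def psi (G : SimpleGraph V) (k : ℕ) (W : Finset V) (h : Finset V → ℝ) (D : Finset V) : ℝ :=
  h D + a G (k-1) (W \ D) h - a G k W h

/-! ### linearity -/

lemma S_zero (W : Finset V) (Φ : Multiset (Finset V) → ℝ) : S G 0 W Φ = if W = ∅ then Φ 0 else 0 := rfl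

lemma S_succ (k : ℕ) (W : Finset V) (Φ : Multiset (Finset V) → ℝ) :
    S G (k+1) W Φ = ∑ D ∈ I G W, S G k (W \ D) (fun m => Φ (D ::ₘ m)) := rfl

lemma S_one (k : ℕ) (W : Finset V) : S G k W (fun _ => 1) = P G k W := by
  induction k generalizing W with
  | zero => rfl
  | succ k ih => rw [S_succ, P_succ]; exact Finset.sum_congr rfl (fun D _ => ih _)

lemma S_add (k : ℕ) (W : Finset V) (Φ Ψ : Multiset (Finset V) → ℝ) :
    S G k W (fun m => Φ m + Ψ m) = S G k W Φ + S G k W Ψ := by
  induction k generalizing W Φ Ψ with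
  | zero => simp only [S_zero]; split_ifs <;> simp
  | succ k ih =>
    simp only [S_succ]
    rw [← Finset.sum_add_distrib]
    exact Finset.sum_congr rfl (fun D _ => ih _ _ _)

lemma S_mul_left (k : ℕ) (W : Finset V) (c : ℝ) (Φ : Multiset (Finset V) → ℝ) :
    S G k W (fun m => c * Φ m) = c * S G k W Φ := by
  induction k generalizing W Φ with
  | zero => simp only [S_zero]; split_ifs <;> simp
  | succ k ih =>
    simp only [S_succ]
    rw [Finset.mul_sum]
    exact Finset.sum_congr rfl (fun D _ => ih _ _)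

lemma S_sub (k : ℕ) (W : Finset V) (Φ Ψ : Multiset (Finset V) → ℝ) :
    S G k W (fun m => Φ m - Ψ m) = S G k W Φ - S G k W Ψ := by
  have h : (fun m => Φ m - Ψ m) = (fun m => Φ m + (-1) * Ψ m) := by funext m; ring
  rw [h, S_add, S_mul_left]; ring

lemma S_const (k : ℕ) (W : Finset V) (c : ℝ) : S G k W (fun _ => c) = c * P G k W := by
  have := S_mul_left (G := G) k W c (fun _ => 1)
  rw [S_one] at this
  simpa using this

lemma S_sum {ι : Type*} (s : Finset ι) (k : ℕ) (W : Finset V) (Φ : ι → Multiset (Finset V) → ℝ) :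
    S G k W (fun m => ∑ i ∈ s, Φ i m) = ∑ i ∈ s, S G k W (Φ i) := by
  induction s using Finset.induction_on with
  | empty => simpa using S_const (G := G) k W 0
  | insert i s hi ih =>
    simp only [Finset.sum_insert hi]
    rw [S_add, ih]

/-- the multisets of classes of proper `k`-colourings of `G[W]` -/
def Val (G : SimpleGraph V) : ℕ → Finset V → Multiset (Finset V) → Prop
  | 0, W, m => W = ∅ ∧ m = 0
  | (k+1), W, m => ∃ D ∈ I G W, ∃ m', Val G k (W \ D) m' ∧ m = D ::ₘ m'

lemma S_mono (k : ℕ) (W : Finset V) (Φ Ψ : Multiset (Finset V) → ℝ)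
    (h : ∀ m, Val G k W m → Φ m ≤ Ψ m) : S G k W Φ ≤ S G k W Ψ := by
  induction k generalizing W Φ Ψ with
  | zero =>
    simp only [S_zero]
    split_ifs with hW
    · exact h 0 ⟨hW, rfl⟩
    · exact le_rfl
  | succ k ih =>
    simp only [S_succ]
    refine Finset.sum_le_sum (fun D hD => ih _ _ _ (fun m hm => h _ ⟨D, hD, m, hm, rfl⟩))

lemma S_congr (k : ℕ) (W : Finset V) (Φ Ψ : Multiset (Finset V) → ℝ)
    (h : ∀ m, Val G k W m → Φ m = Ψ m) : S G k W Φ = S G k W Ψ :=
  le_antisymm (S_mono k W Φ Ψ (fun m hm => (h m hm).le)) (S_mono k W Ψ Φ (fun m hm => (h m hm).ge))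

lemma S_nonneg (k : ℕ) (W : Finset V) (Φ : Multiset (Finset V) → ℝ)
    (h : ∀ m, Val G k W m → 0 ≤ Φ m) : 0 ≤ S G k W Φ := by
  have := S_mono (G := G) k W (fun _ => 0) Φ h
  rwa [S_const, zero_mul] at this

lemma S_of_P_zero (k : ℕ) (W : Finset V) (h0 : P G k W = 0) (Φ : Multiset (Finset V) → ℝ) :
    S G k W Φ = 0 := by
  induction k generalizing W Φ with
  | zero =>
    rw [P_zero] at h0
    rw [S_zero]
    split_ifs at h0 ⊢ with h
    · simp at h0
    · rfl
  | succ k ih =>
    rw [S_succ]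
    rw [P_succ] at h0
    refine Finset.sum_eq_zero (fun D hD => ih _ ?_ _)
    exact (Finset.sum_eq_zero_iff_of_nonneg (fun D _ => P_nonneg _ _)).1 h0 D hD

lemma sh_zero (h : Finset V → ℝ) : sh h 0 = 0 := by simp [sh]

lemma sh_cons (h : Finset V → ℝ) (D : Finset V) (m : Multiset (Finset V)) :
    sh h (D ::ₘ m) = h D + sh h m := by simp [sh]

lemma sh_add (h h' : Finset V → ℝ) (m : Multiset (Finset V)) :
    sh (fun D => h D + h' D) m = sh h m + sh h' m := by simp [sh, Multiset.sum_map_add]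

lemma sh_mul_left (c : ℝ) (h : Finset V → ℝ) (m : Multiset (Finset V)) :
    sh (fun D => c * h D) m = c * sh h m := by simp [sh, Multiset.sum_map_mul_left]

lemma Val.card {k : ℕ} {W : Finset V} {m : Multiset (Finset V)} (h : Val G k W m) :
    Multiset.card m = k := by
  induction k generalizing W m with
  | zero => rw [h.2]; rfl
  | succ k ih =>
    obtain ⟨D, _, m', hm', rfl⟩ := h
    rw [Multiset.card_cons, ih hm']

lemma sh_const {k : ℕ} {W : Finset V} {m : Multiset (Finset V)} (h : Val G k W m) (c : ℝ) :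
    sh (fun _ => c) m = k * c := by
  simp [sh, h.card]

lemma sh_mono {k : ℕ} {W : Finset V} {m : Multiset (Finset V)} (h : Val G k W m)
    (f g : Finset V → ℝ) (hfg : ∀ D ∈ I G W, f D ≤ g D) : sh f m ≤ sh g m := by
  induction k generalizing W m with
  | zero => rw [h.2]; simp [sh_zero]
  | succ k ih =>
    obtain ⟨D, hD, m', hm', rfl⟩ := h
    rw [sh_cons, sh_cons]
    refine add_le_add (hfg D hD) (ih hm' (fun D' hD' => hfg D' ?_))
    rw [mem_I] at hD' ⊢
    exact ⟨hD'.1.trans Finset.sdiff_subset, hD'.2⟩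

lemma sh_nv {k : ℕ} {W : Finset V} {m : Multiset (Finset V)} (h : Val G k W m) (v : V) :
    sh (nv v) m = if v ∈ W then 1 else 0 := by
  induction k generalizing W m with
  | zero => rw [h.2, h.1]; simp [sh_zero]
  | succ k ih =>
    obtain ⟨D, hD, m', hm', rfl⟩ := h
    rw [sh_cons, ih hm']
    rw [mem_I] at hD
    unfold nv
    by_cases h1 : v ∈ D
    · have h2 : v ∈ W := hD.1 h1
      have h3 : v ∉ W \ D := fun h => (Finset.mem_sdiff.1 h).2 h1
      simp [h1, h2]
    · by_cases h2 : v ∈ W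
      · simp [h1, h2]
      · simp [h1, h2]

lemma sh_cd {k : ℕ} {W : Finset V} {m : Multiset (Finset V)} (h : Val G k W m) :
    sh cd m = W.card := by
  induction k generalizing W m with
  | zero => rw [h.2, h.1]; simp [sh_zero]
  | succ k ih =>
    obtain ⟨D, hD, m', hm', rfl⟩ := h
    rw [sh_cons, ih hm', cd]
    rw [mem_I] at hD
    have := Finset.card_sdiff_add_card_eq_card hD.1
    have h2 : ((W \ D).card : ℝ) + (D.card : ℝ) = W.card := by exact_mod_cast this
    linarith

/-- exchange of two disjoint classes -/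
lemma sum_exch (f : Finset V → Finset V → ℝ) (W : Finset V) :
    ∑ D ∈ I G W, ∑ D' ∈ I G (W \ D), f D D' = ∑ D' ∈ I G W, ∑ D ∈ I G (W \ D'), f D D' := by
  rw [Finset.sum_sigma', Finset.sum_sigma']
  have key : ∀ A B : Finset V, (A ∈ I G W ∧ B ∈ I G (W \ A)) → (B ∈ I G W ∧ A ∈ I G (W \ B)) := by
    rintro A B ⟨hA, hB⟩
    rw [mem_I] at hA hB ⊢
    refine ⟨⟨hB.1.trans Finset.sdiff_subset, hB.2⟩, ?_⟩
    rw [mem_I]
    refine ⟨fun x hx => Finset.mem_sdiff.2 ⟨hA.1 hx, fun hxB => ?_⟩, hA.2⟩
    exact (Finset.mem_sdiff.1 (hB.1 hxB)).2 hx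
  refine Finset.sum_nbij' (fun p => ⟨p.2, p.1⟩) (fun p => ⟨p.2, p.1⟩) ?_ ?_ ?_ ?_ ?_
  · rintro ⟨A, B⟩ h
    simp only [Finset.mem_sigma] at h ⊢
    exact key A B h
  · rintro ⟨A, B⟩ h
    simp only [Finset.mem_sigma] at h ⊢
    exact key A B h
  · rintro ⟨_, _⟩ _; rfl
  · rintro ⟨_, _⟩ _; rfl
  · rintro ⟨_, _⟩ _; rfl

/-- exchangeability -/
lemma S_ex (k : ℕ) (W : Finset V) (h : Finset V → ℝ) (Φ : Multiset (Finset V) → ℝ) :
    S G k W (fun m => sh h m * Φ m)
      = k * ∑ D ∈ I G W, h D * S G (k-1) (W \ D) (fun m => Φ (D ::ₘ m)) := by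
  induction k generalizing W Φ with
  | zero => rw [S_zero]; simp [sh_zero]
  | succ k ih =>
    have e1 : S G (k+1) W (fun m => sh h m * Φ m)
        = ∑ D ∈ I G W, h D * S G k (W \ D) (fun m => Φ (D ::ₘ m))
          + ∑ D ∈ I G W, S G k (W \ D) (fun m => sh h m * Φ (D ::ₘ m)) := by
      rw [S_succ, ← Finset.sum_add_distrib]
      refine Finset.sum_congr rfl (fun D _ => ?_)
      rw [← S_mul_left, ← S_add]
      congr 1
      funext m
      rw [sh_cons]; ring
    have e2 : ∑ D ∈ I G W, S G k (W \ D) (fun m => sh h m * Φ (D ::ₘ m))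
        = k * ∑ D ∈ I G W, h D * S G k (W \ D) (fun m => Φ (D ::ₘ m)) := by
      rw [Finset.sum_congr rfl (fun D _ => ih (W \ D) (fun m => Φ (D ::ₘ m)))]
      rw [← Finset.mul_sum]
      rcases Nat.eq_zero_or_pos k with rfl | hk
      · simp
      · obtain ⟨l, rfl⟩ : ∃ l, k = l + 1 := ⟨k-1, by omega⟩
        congr 1
        rw [sum_exch (G := G) (fun D D' => h D' * S G (l+1-1) ((W \ D) \ D') (fun m => Φ (D ::ₘ D' ::ₘ m))) W]
        refine Finset.sum_congr rfl (fun D' _ => ?_)
        rw [← Finset.mul_sum, S_succ]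
        congr 1
        refine Finset.sum_congr rfl (fun D _ => ?_)
        rw [Nat.add_sub_cancel]
        have e3 : (W \ D) \ D' = (W \ D') \ D := by
          ext x; simp only [Finset.mem_sdiff]; tauto
        rw [e3]
        congr 1
        funext m
        rw [Multiset.cons_swap]
    rw [e1, e2]
    simp only [Nat.add_sub_cancel]
    push_cast; ring

end

end Helper87.BWL
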