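import Mathlib
import Pool.Agent.Helper87.BW.Frame

set_option autoImplicit false

/-!
Expectations over random proper colourings and over the first class: identities.
-/

namespace Helper87.BWL

open Finset Classical Helper53.BW

noncomputable section

variable {V : Type*} {G : SimpleGraph V}

/-! ### `Ex` -/

lemma P_mul_Ex (k : ℕ) (W : Finset V) (Φ : Multiset (Finset V) → ℝ) :
    P G k W * Ex G k W Φ = S G k W Φ := by
  unfold Ex
  by_cases h : P G k W = 0
  · rw [S_of_P_zero k W h, h]; simp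
  · field_simp

lemma Ex_const (k : ℕ) (W : Finset V) (h : W.card ≤ k) (c : ℝ) : Ex G k W (fun _ => c) = c := by
  unfold Ex
  rw [S_const, mul_div_assoc, div_self (P_pos k W h).ne', mul_one]

lemma Ex_add (k : ℕ) (W : Finset V) (Φ Ψ : Multiset (Finset V) → ℝ) :
    Ex G k W (fun m => Φ m + Ψ m) = Ex G k W Φ + Ex G k W Ψ := by
  unfold Ex; rw [S_add, add_div]

lemma Ex_sub (k : ℕ) (W : Finset V) (Φ Ψ : Multiset (Finset V) → ℝ) :
    Ex G k W (fun m => Φ m - Ψ m) = Ex G k W Φ - Ex G k W Ψ := by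
  unfold Ex; rw [S_sub, sub_div]

lemma Ex_mul_left (k : ℕ) (W : Finset V) (c : ℝ) (Φ : Multiset (Finset V) → ℝ) :
    Ex G k W (fun m => c * Φ m) = c * Ex G k W Φ := by
  unfold Ex; rw [S_mul_left, mul_div_assoc]

lemma Ex_sum {ι : Type*} (s : Finset ι) (k : ℕ) (W : Finset V) (Φ : ι → Multiset (Finset V) → ℝ) :
    Ex G k W (fun m => ∑ i ∈ s, Φ i m) = ∑ i ∈ s, Ex G k W (Φ i) := by
  unfold Ex; rw [S_sum, Finset.sum_div]

lemma Ex_mono (k : ℕ) (W : Finset V) (Φ Ψ : Multiset (Finset V) → ℝ)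
    (h : ∀ m, Val G k W m → Φ m ≤ Ψ m) : Ex G k W Φ ≤ Ex G k W Ψ :=
  div_le_div_of_nonneg_right (S_mono k W Φ Ψ h) (P_nonneg k W)

lemma Ex_congr (k : ℕ) (W : Finset V) (Φ Ψ : Multiset (Finset V) → ℝ)
    (h : ∀ m, Val G k W m → Φ m = Ψ m) : Ex G k W Φ = Ex G k W Ψ := by
  unfold Ex; rw [S_congr k W Φ Ψ h]

lemma Ex_nonneg (k : ℕ) (W : Finset V) (Φ : Multiset (Finset V) → ℝ)
    (h : ∀ m, Val G k W m → 0 ≤ Φ m) : 0 ≤ Ex G k W Φ :=
  div_nonneg (S_nonneg k W Φ h) (P_nonneg k W)

/-! ### `ED` -/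

lemma ED_add (k : ℕ) (W : Finset V) (φ χ : Finset V → ℝ) :
    ED G k W (fun D => φ D + χ D) = ED G k W φ + ED G k W χ := by
  unfold ED; rw [← add_div, ← Finset.sum_add_distrib]; simp only [mul_add]

lemma ED_sub (k : ℕ) (W : Finset V) (φ χ : Finset V → ℝ) :
    ED G k W (fun D => φ D - χ D) = ED G k W φ - ED G k W χ := by
  unfold ED; rw [← sub_div, ← Finset.sum_sub_distrib]; simp only [mul_sub]

lemma ED_mul_left (k : ℕ) (W : Finset V) (c : ℝ) (φ : Finset V → ℝ) :
    ED G k W (fun D => c * φ D) = c * ED G k W φ := by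
  unfold ED
  rw [← mul_div_assoc, Finset.mul_sum]
  congr 1
  exact Finset.sum_congr rfl (fun D _ => by ring)

lemma ED_sum {ι : Type*} (s : Finset ι) (k : ℕ) (W : Finset V) (φ : ι → Finset V → ℝ) :
    ED G k W (fun D => ∑ i ∈ s, φ i D) = ∑ i ∈ s, ED G k W (φ i) := by
  unfold ED
  rw [← Finset.sum_div]
  congr 1
  simp only [Finset.mul_sum]
  exact Finset.sum_comm

lemma ED_mono (k : ℕ) (W : Finset V) (φ χ : Finset V → ℝ) (h : ∀ D ∈ I G W, φ D ≤ χ D) :
    ED G k W φ ≤ ED G k W χ :=
  div_le_div_of_nonneg_right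
    (Finset.sum_le_sum (fun D hD => mul_le_mul_of_nonneg_left (h D hD) (P_nonneg _ _))) (P_nonneg k W)

lemma ED_congr (k : ℕ) (W : Finset V) (φ χ : Finset V → ℝ) (h : ∀ D ∈ I G W, φ D = χ D) :
    ED G k W φ = ED G k W χ := by
  unfold ED
  rw [Finset.sum_congr rfl (fun D hD => by rw [h D hD])]

lemma ED_nonneg (k : ℕ) (W : Finset V) (φ : Finset V → ℝ) (h : ∀ D ∈ I G W, 0 ≤ φ D) :
    0 ≤ ED G k W φ :=
  div_nonneg (Finset.sum_nonneg (fun D hD => mul_nonneg (P_nonneg _ _) (h D hD))) (P_nonneg k W)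

lemma P_mul_ED (k : ℕ) (W : Finset V) (hc : W.card ≤ k) (φ : Finset V → ℝ) :
    P G k W * ED G k W φ = ∑ D ∈ I G W, P G (k-1) (W \ D) * φ D := by
  unfold ED
  have := (P_pos (G := G) k W hc).ne'
  field_simp

lemma ED_one (k : ℕ) (W : Finset V) (h1 : 1 ≤ k) (h : W.card ≤ k) : ED G k W (fun _ => 1) = 1 := by
  obtain ⟨l, rfl⟩ : ∃ l, k = l + 1 := ⟨k-1, by omega⟩
  unfold ED
  rw [div_eq_one_iff_eq (P_pos _ W h).ne', P_succ]
  simp

lemma ED_const (k : ℕ) (W : Finset V) (h1 : 1 ≤ k) (h : W.card ≤ k) (c : ℝ) :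
    ED G k W (fun _ => c) = c := by
  have := ED_mul_left (G := G) k W c (fun _ => 1)
  rw [ED_one k W h1 h] at this
  simpa using this

/-- sums over classes through `v` -/
lemma sum_nv (W : Finset V) (v : V) (f : Finset V → ℝ) :
    ∑ D ∈ I G W, f D * nv v D = ∑ D ∈ (I G W).filter (fun D => v ∈ D), f D := by
  rw [Finset.sum_filter]
  refine Finset.sum_congr rfl (fun D _ => ?_)
  unfold nv; split_ifs <;> simp

lemma ED_nv (k : ℕ) (W : Finset V) (h : W.card ≤ k) (v : V) (hv : v ∈ W) :
    ED G k W (nv v) = 1 / k := by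
  have h0 : 0 < W.card := Finset.card_pos.2 ⟨v, hv⟩
  have hk : (0:ℝ) < k := by exact_mod_cast (by omega : 0 < k)
  unfold ED
  rw [sum_nv W v (fun D => P G (k-1) (W \ D))]
  have e := P_class' (G := G) k W v hv
  have hp := P_pos (G := G) k W h
  rw [div_eq_div_iff hp.ne' hk.ne', one_mul, e]; ring

lemma cd_eq_sum {W D : Finset V} (hD : D ∈ I G W) : cd D = ∑ v ∈ W, nv v D := by
  rw [mem_I] at hD
  unfold cd nv
  rw [Finset.sum_ite_mem, Finset.inter_eq_right.2 hD.1]
  simp

lemma ci_eq_sum (Y : Set V) {W D : Finset V} (hD : D ∈ I G W) :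
    ci Y D = ∑ v ∈ W.filter (fun v => v ∈ Y), nv v D := by
  rw [mem_I] at hD
  unfold ci nv
  rw [Finset.sum_ite_mem]
  have : W.filter (fun v => v ∈ Y) ∩ D = D.filter (fun v => v ∈ Y) := by
    ext x; simp only [Finset.mem_inter, Finset.mem_filter]
    exact ⟨fun h => ⟨h.2, h.1.2⟩, fun h => ⟨⟨hD.1 h.1, h.2⟩, h.1⟩⟩
  rw [this]; simp

lemma ED_cd (k : ℕ) (W : Finset V) (h : W.card ≤ k) : ED G k W cd = W.card / k := by
  rw [ED_congr k W cd (fun D => ∑ v ∈ W, nv v D) (fun D hD => cd_eq_sum hD), ED_sum,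
    Finset.sum_congr rfl (fun v hv => ED_nv k W h v hv), Finset.sum_const, nsmul_eq_mul]
  ring

lemma empty_in (W : Finset V) : (∅ : Finset V) ∈ I G W := empty_mem_I W

lemma sum_em (W : Finset V) (f : Finset V → ℝ) : ∑ D ∈ I G W, f D * em D = f ∅ := by
  rw [Finset.sum_eq_single (∅ : Finset V)]
  · simp [em]
  · intro D _ hD; simp [em, hD]
  · intro h; exact absurd (empty_in W) h

lemma ED_mul_em (k : ℕ) (W : Finset V) (f : Finset V → ℝ) :
    ED G k W (fun D => f D * em D) = f ∅ * ED G k W em := by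
  unfold ED
  have h1 := sum_em (G := G) W (fun D => P G (k-1) (W \ D) * f D)
  have h2 := sum_em (G := G) W (fun D => P G (k-1) (W \ D))
  rw [h2]
  have h3 : ∑ D ∈ I G W, P G (k-1) (W \ D) * (f D * em D) = ∑ D ∈ I G W, P G (k-1) (W \ D) * f D * em D :=
    Finset.sum_congr rfl (fun D _ => by ring)
  rw [h3, h1]; ring

lemma ED_em (k : ℕ) (W : Finset V) (h1 : 1 ≤ k) : ED G k W em = J G k W / k := by
  unfold ED J
  rw [sum_em W (fun D => P G (k-1) (W \ D)), Finset.sdiff_empty]
  have hk : (k:ℝ) ≠ 0 := by exact_mod_cast (by omega : k ≠ 0)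
  by_cases h : P G k W = 0
  · simp [h]
  · field_simp

lemma ED_em_pos (k : ℕ) (W : Finset V) (hc : W.card + 1 ≤ k) : 0 < ED G k W em := by
  unfold ED
  rw [sum_em W (fun D => P G (k-1) (W \ D)), Finset.sdiff_empty]
  exact div_pos (P_pos _ _ (by omega)) (P_pos _ _ (by omega))

lemma em_le_fr (X : Set V) (D : Finset V) : em D ≤ fr X D := by
  unfold em fr
  split_ifs with h1 h2 h2
  · exact le_rfl
  · subst h1; simp at h2
  · norm_num
  · exact le_rfl

lemma fr_nonneg (X : Set V) (D : Finset V) : 0 ≤ fr X D := by unfold fr; split_ifs <;> norm_num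

lemma fr_le_one (X : Set V) (D : Finset V) : fr X D ≤ 1 := by unfold fr; split_ifs <;> norm_num

lemma fr_empty (X : Set V) : fr X ∅ = 1 := by simp [fr]

lemma fr_sq (X : Set V) (D : Finset V) : fr X D * fr X D = fr X D := by unfold fr; split_ifs <;> simp

lemma em_nonneg (D : Finset V) : 0 ≤ em D := by unfold em; split_ifs <;> norm_num

lemma nv_nonneg (v : V) (D : Finset V) : 0 ≤ nv v D := by unfold nv; split_ifs <;> norm_num

lemma ci_nonneg (X : Set V) (D : Finset V) : 0 ≤ ci X D := by unfold ci; positivity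

lemma cd_nonneg (D : Finset V) : 0 ≤ cd D := by unfold cd; positivity

lemma ci_le_cd (X : Set V) (D : Finset V) : ci X D ≤ cd D := by
  unfold ci cd; exact_mod_cast Finset.card_filter_le _ _

lemma ED_fr_pos (k : ℕ) (W : Finset V) (hc : W.card + 1 ≤ k) (X : Set V) : 0 < ED G k W (fr X) :=
  (ED_em_pos k W hc).trans_le (ED_mono k W em (fr X) (fun D _ => em_le_fr X D))

/-- `xi` vanishes on classes missing `X`, and is `ci - 1` on the others -/
lemma xi_eq (X : Set V) (D : Finset V) : xi X D = if ∀ y ∈ D, y ∉ X then 0 else ci X D - 1 := by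
  unfold xi fr
  split_ifs with h
  · have : ci X D = 0 := by
      unfold ci
      rw [Finset.filter_eq_empty_iff.2 (fun y hy => h y hy)]
      simp
    rw [this]; norm_num
  · ring

lemma one_le_ci (X : Set V) (D : Finset V) (h : ¬ ∀ y ∈ D, y ∉ X) : 1 ≤ ci X D := by
  push Not at h
  obtain ⟨y, hy, hyX⟩ := h
  unfold ci
  exact_mod_cast Finset.card_pos.2 ⟨y, Finset.mem_filter.2 ⟨hy, hyX⟩⟩

lemma xi_nonneg (X : Set V) (D : Finset V) : 0 ≤ xi X D := by
  rw [xi_eq]
  split_ifs with h
  · exact le_rfl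
  · linarith [one_le_ci X D h]

lemma fr_eq (X : Set V) (D : Finset V) : fr X D = 1 - ci X D + xi X D := by unfold xi; ring

lemma fr_univ (D : Finset V) : fr Set.univ D = em D := by
  unfold fr em
  by_cases h : D = ∅
  · simp [h]
  · rw [if_neg h, if_neg]
    push Not
    obtain ⟨y, hy⟩ := Finset.nonempty_iff_ne_empty.2 h
    exact ⟨y, hy, Set.mem_univ y⟩

lemma ci_univ (D : Finset V) : ci Set.univ D = cd D := by
  unfold ci cd; simp

lemma xi_univ (D : Finset V) : xi Set.univ D = cd D - 1 + em D := by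
  unfold xi; rw [ci_univ, fr_univ]

lemma xi_mono (X Y : Set V) (h : X ⊆ Y) (D : Finset V) : xi X D ≤ xi Y D := by
  rw [xi_eq X]
  split_ifs with h1
  · exact xi_nonneg Y D
  · have h2 : ¬ ∀ y ∈ D, y ∉ Y := fun h3 => h1 (fun y hy hyX => h3 y hy (h hyX))
    rw [xi_eq Y, if_neg h2]
    have : ci X D ≤ ci Y D := by
      unfold ci
      exact_mod_cast Finset.card_le_card (fun y hy => Finset.mem_filter.2
        ⟨(Finset.mem_filter.1 hy).1, h (Finset.mem_filter.1 hy).2⟩)
    linarith

/-! ### exchangeability -/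

lemma Ex_ex (k : ℕ) (W : Finset V) (h : Finset V → ℝ) (Φ : Multiset (Finset V) → ℝ) :
    Ex G k W (fun m => sh h m * Φ m)
      = k * ED G k W (fun D => h D * Ex G (k-1) (W \ D) (fun m => Φ (D ::ₘ m))) := by
  unfold ED
  have e : ∀ D ∈ I G W, P G (k-1) (W \ D) * (h D * Ex G (k-1) (W \ D) (fun m => Φ (D ::ₘ m)))
      = h D * S G (k-1) (W \ D) (fun m => Φ (D ::ₘ m)) := by
    intro D _
    rw [← P_mul_Ex]; ring
  rw [Finset.sum_congr rfl e]
  have := S_ex (G := G) k W h Φ
  unfold Ex
  rw [this, mul_div_assoc]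

lemma ED_mul_const_of_pos {k : ℕ} {W : Finset V} {φ χ : Finset V → ℝ}
    (h : ∀ D ∈ I G W, P G (k-1) (W \ D) ≠ 0 → φ D = χ D) : ED G k W φ = ED G k W χ := by
  unfold ED
  congr 1
  refine Finset.sum_congr rfl (fun D hD => ?_)
  by_cases h0 : P G (k-1) (W \ D) = 0
  · simp [h0]
  · rw [h D hD h0]

lemma a_eq (k : ℕ) (W : Finset V) (h : Finset V → ℝ) : a G k W h = k * ED G k W h := by
  unfold a
  have := Ex_ex (G := G) k W h (fun _ => 1)
  simp only [mul_one] at this
  rw [this]
  congr 1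
  refine ED_mul_const_of_pos (fun D _ h0 => ?_)
  unfold Ex
  rw [S_one, div_self h0, mul_one]

lemma J_eq_a (k : ℕ) (W : Finset V) : a G k W em = J G k W := by
  rcases Nat.eq_zero_or_pos k with rfl | hk
  · rw [a_eq]; unfold J; simp
  · rw [a_eq, ED_em k W hk]
    have : (k:ℝ) ≠ 0 := by exact_mod_cast (by omega : k ≠ 0)
    field_simp

/-- mean of an additive functional after fixing one class -/
lemma P_mul_step (k : ℕ) (W D : Finset V) (h : Finset V → ℝ) :
    P G k (W \ D) * (h D + a G k (W \ D) h) = S G k (W \ D) (fun m => sh h (D ::ₘ m)) := by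
  have e : (fun m : Multiset (Finset V) => sh h (D ::ₘ m)) = (fun m => h D + sh h m) := by
    funext m; rw [sh_cons]
  rw [e, S_add, S_const, mul_add]
  unfold a
  rw [P_mul_Ex]; ring

lemma ED_step (k : ℕ) (W : Finset V) (h1 : 1 ≤ k) (h : Finset V → ℝ) :
    ED G k W (fun D => h D + a G (k-1) (W \ D) h) = a G k W h := by
  obtain ⟨l, rfl⟩ : ∃ l, k = l + 1 := ⟨k-1, by omega⟩
  unfold ED
  simp only [Nat.add_sub_cancel]
  rw [Finset.sum_congr rfl (fun D _ => P_mul_step l W D h), ← S_succ]
  rfl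

lemma ED_psi (k : ℕ) (W : Finset V) (h1 : 1 ≤ k) (hc : W.card ≤ k) (h : Finset V → ℝ) :
    ED G k W (psi G k W h) = 0 := by
  have e : psi G k W h = fun D => (h D + a G (k-1) (W \ D) h) - a G k W h := rfl
  rw [e, ED_sub, ED_step k W h1, ED_const k W h1 hc, sub_self]

/-- class through a vertex: any additive functional -/
lemma ED_nv_step (k : ℕ) (W : Finset V) (h : Finset V → ℝ) (v : V) (hv : v ∈ W) :
    k * ED G k W (fun D => nv v D * (h D + a G (k-1) (W \ D) h)) = a G k W h := by
  have h2 := Ex_ex (G := G) k W (nv v) (sh h)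
  have h3 : Ex G k W (fun m => sh (nv v) m * sh h m) = a G k W h := by
    unfold a
    refine Ex_congr k W _ _ (fun m hm => ?_)
    rw [sh_nv hm, if_pos hv, one_mul]
  rw [← h3, h2]
  congr 1
  refine ED_mul_const_of_pos (fun D _ h0 => ?_)
  congr 1
  have h4 := P_mul_step (G := G) (k-1) W D h
  rw [← P_mul_Ex] at h4
  exact mul_left_cancel₀ h0 h4

lemma ED_nv_psi (k : ℕ) (W : Finset V) (hc : W.card ≤ k) (h : Finset V → ℝ) (v : V) (hv : v ∈ W) :
    ED G k W (fun D => nv v D * psi G k W h D) = 0 := by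
  have h0 : 0 < W.card := Finset.card_pos.2 ⟨v, hv⟩
  have hk : (0:ℝ) < k := by exact_mod_cast (by omega : 0 < k)
  have e : (fun D => nv v D * psi G k W h D)
      = fun D => nv v D * (h D + a G (k-1) (W \ D) h) - a G k W h * nv v D := by
    funext D; unfold psi; ring
  rw [e, ED_sub, ED_mul_left, ED_nv k W hc v hv]
  have := ED_nv_step (G := G) k W h v hv
  field_simp
  linarith

lemma cov_eq (k : ℕ) (W : Finset V) (h1 : 1 ≤ k) (hc : W.card ≤ k) (h h' : Finset V → ℝ) :
    Ex G k W (fun m => sh h m * sh h' m) - a G k W h * a G k W h'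
      = k * ED G k W (fun D => h' D * psi G k W h D) := by
  have h2 := Ex_ex (G := G) k W h' (sh h)
  have e1 : (fun m => sh h m * sh h' m) = (fun m : Multiset (Finset V) => sh h' m * sh h m) := by
    funext m; ring
  have e2 : ED G k W (fun D => h' D * Ex G (k-1) (W \ D) (fun m => sh h (D ::ₘ m)))
      = ED G k W (fun D => h' D * (h D + a G (k-1) (W \ D) h)) := by
    refine ED_mul_const_of_pos (fun D _ h0 => ?_)
    congr 1
    have h4 := P_mul_step (G := G) (k-1) W D h
    rw [← P_mul_Ex] at h4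
    exact (mul_left_cancel₀ h0 h4).symm
  have e3 : (fun D => h' D * psi G k W h D)
      = fun D => h' D * (h D + a G (k-1) (W \ D) h) - a G k W h * h' D := by
    funext D; unfold psi; ring
  rw [e1, h2, e2, e3, ED_sub, ED_mul_left, a_eq k W h']
  ring

/-- symmetry of the covariance -/
lemma psi_symm (k : ℕ) (W : Finset V) (h1 : 1 ≤ k) (hc : W.card ≤ k) (h h' : Finset V → ℝ) :
    ED G k W (fun D => h' D * psi G k W h D) = ED G k W (fun D => h D * psi G k W h' D) := by
  have h2 := cov_eq (G := G) k W h1 hc h h'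
  have h3 := cov_eq (G := G) k W h1 hc h' h
  have e1 : (fun m => sh h m * sh h' m) = (fun m : Multiset (Finset V) => sh h' m * sh h m) := by
    funext m; ring
  rw [e1] at h2
  have hk : (0:ℝ) < k := by exact_mod_cast h1
  have h4 : (k:ℝ) * ED G k W (fun D => h' D * psi G k W h D) = k * ED G k W (fun D => h D * psi G k W h' D) := by
    rw [← h2, ← h3]; ring
  exact mul_left_cancel₀ hk.ne' h4

/-! ### new vertices -/

lemma fr_insert (X : Set V) (v : V) (D : Finset V) :
    fr X (insert v D) = if v ∈ X then 0 else fr X D := by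
  unfold fr
  by_cases h : v ∈ X
  · rw [if_pos h, if_neg]
    push Not
    exact ⟨v, Finset.mem_insert_self _ _, h⟩
  · rw [if_neg h]
    congr 1
    rw [eq_iff_iff]
    constructor
    · exact fun h1 y hy => h1 y (Finset.mem_insert_of_mem hy)
    · intro h1 y hy
      rcases Finset.mem_insert.1 hy with rfl | hy
      · exact h
      · exact h1 y hy

/-- classes through a new vertex -/
lemma sum_new (f : Finset V → Finset V → ℝ) (W : Finset V) (v : V) (hv : v ∉ W) :
    ∑ D ∈ I G (insert v W), nv v D * f D (insert v W \ D)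
      = ∑ D ∈ I G W, fr (G.neighborSet v) D * f (insert v D) (W \ D) := by
  have e1 : ∑ D ∈ I G (insert v W), nv v D * f D (insert v W \ D)
      = ∑ D ∈ (I G (insert v W)).filter (fun D => v ∈ D), f D (insert v W \ D) := by
    rw [Finset.sum_filter]
    refine Finset.sum_congr rfl (fun D _ => ?_)
    unfold nv; split_ifs <;> simp
  have e2 : ∑ D ∈ I G W, fr (G.neighborSet v) D * f (insert v D) (W \ D)
      = ∑ D ∈ (I G W).filter (fun D => ∀ y ∈ D, ¬ G.Adj v y), f (insert v D) (W \ D) := by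
    rw [Finset.sum_filter]
    refine Finset.sum_congr rfl (fun D _ => ?_)
    unfold fr
    simp only [SimpleGraph.mem_neighborSet]
    split_ifs <;> simp
  rw [e1, e2]
  refine Finset.sum_nbij' (fun D => D.erase v) (fun D => insert v D) ?_ ?_ ?_ ?_ ?_
  · intro D hD
    simp only [Finset.mem_filter, mem_I] at hD ⊢
    obtain ⟨⟨hD, hi⟩, hvD⟩ := hD
    refine ⟨⟨?_, hi.mono (Finset.erase_subset _ _)⟩, fun y hy => hi v hvD y (Finset.mem_of_mem_erase hy)⟩
    intro y hy
    rw [Finset.mem_erase] at hy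
    rcases Finset.mem_insert.1 (hD hy.2) with h | h
    · exact absurd h hy.1
    · exact h
  · intro D hD
    simp only [Finset.mem_filter, mem_I] at hD ⊢
    obtain ⟨⟨hD, hi⟩, hn⟩ := hD
    refine ⟨⟨Finset.insert_subset_insert v hD, ?_⟩, Finset.mem_insert_self _ _⟩
    intro p hp q hq
    rcases Finset.mem_insert.1 hp with h1 | h1
    · rcases Finset.mem_insert.1 hq with h2 | h2
      · rw [h1, h2]; exact G.irrefl
      · rw [h1]; exact hn q h2
    · rcases Finset.mem_insert.1 hq with h2 | h2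
      · rw [h2]; exact fun h => hn p h1 h.symm
      · exact hi p h1 q h2
  · intro D hD
    simp only [Finset.mem_filter, mem_I] at hD
    exact Finset.insert_erase hD.2
  · intro D hD
    simp only [Finset.mem_filter, mem_I] at hD
    exact Finset.erase_insert (fun h => hv (hD.1.1 h))
  · intro D hD
    simp only [Finset.mem_filter, mem_I] at hD
    have e3 : insert v (D.erase v) = D := Finset.insert_erase hD.2
    rw [e3]
    congr 1
    ext y
    simp only [Finset.mem_sdiff, Finset.mem_insert, Finset.mem_erase]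
    constructor
    · rintro ⟨h1 | h1, h2⟩
      · subst h1; exact absurd hD.2 h2
      · exact ⟨h1, fun h => h2 h.2⟩
    · rintro ⟨h1, h2⟩
      refine ⟨Or.inr h1, fun h => h2 ⟨?_, h⟩⟩
      rintro rfl; exact hv h1

lemma P_insert_sum (k : ℕ) (W : Finset V) (v : V) (hv : v ∉ W) :
    P G k (insert v W) = k * ∑ D ∈ I G W, fr (G.neighborSet v) D * P G (k-1) (W \ D) := by
  rw [P_class' k (insert v W) v (Finset.mem_insert_self _ _)]
  congr 1
  rw [← sum_new (G := G) (fun _ R => P G (k-1) R) W v hv, Finset.sum_filter]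
  refine Finset.sum_congr rfl (fun D _ => ?_)
  unfold nv; split_ifs <;> simp

lemma P_insert (k : ℕ) (W : Finset V) (v : V) (hv : v ∉ W) :
    P G k (insert v W) = P G k W * a G k W (fr (G.neighborSet v)) := by
  unfold a
  rw [P_mul_Ex, P_insert_sum k W v hv]
  have := S_ex (G := G) k W (fr (G.neighborSet v)) (fun _ => 1)
  simp only [mul_one, S_one] at this
  exact this.symm

lemma P_insert_ED (k : ℕ) (W : Finset V) (hc : W.card ≤ k) (v : V) (hv : v ∉ W) :
    P G k (insert v W) = k * (P G k W * ED G k W (fr (G.neighborSet v))) := by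
  rw [P_insert k W v hv, a_eq]; ring

/-- additive functional after inserting a vertex -/
lemma a_insert (k : ℕ) (W : Finset V) (v : V) (hv : v ∉ W) (hc : W.card + 1 ≤ k) (h : Finset V → ℝ) :
    a G k (insert v W) h = ED G k W (fun D => fr (G.neighborSet v) D * (h (insert v D) + a G (k-1) (W \ D) h))
      / ED G k W (fr (G.neighborSet v)) := by
  have hc' : (insert v W).card ≤ k := by rw [Finset.card_insert_of_notMem hv]; exact hc
  have hk : (0:ℝ) < k := by exact_mod_cast (by omega : 0 < k)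
  have h1 := ED_nv_step (G := G) k (insert v W) h v (Finset.mem_insert_self _ _)
  have hp1 := P_pos (G := G) k (insert v W) hc'
  have hp2 := P_pos (G := G) k W (by omega)
  have hf := ED_fr_pos (G := G) k W hc (G.neighborSet v)
  rw [eq_div_iff hf.ne', ← h1]
  have h2 : P G k (insert v W) * ED G k (insert v W) (fun D => nv v D * (h D + a G (k-1) (insert v W \ D) h))
      = P G k W * ED G k W (fun D => fr (G.neighborSet v) D * (h (insert v D) + a G (k-1) (W \ D) h)) := by
    rw [P_mul_ED k _ hc', P_mul_ED k W (by omega)]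
    have := sum_new (G := G) (fun D R => P G (k-1) R * (h D + a G (k-1) R h)) W v hv
    have e1 : ∑ D ∈ I G (insert v W), P G (k-1) (insert v W \ D) * (nv v D * (h D + a G (k-1) (insert v W \ D) h))
        = ∑ D ∈ I G (insert v W), nv v D * (P G (k-1) (insert v W \ D) * (h D + a G (k-1) (insert v W \ D) h)) :=
      Finset.sum_congr rfl (fun D _ => by ring)
    rw [e1, this]
    exact Finset.sum_congr rfl (fun D _ => by ring)
  have h3 := P_insert_ED (G := G) k W (by omega) v hv
  have h4 : (k:ℝ) * (P G k W * ED G k W (fr (G.neighborSet v)))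
      * ED G k (insert v W) (fun D => nv v D * (h D + a G (k-1) (insert v W \ D) h))
      = P G k W * ED G k W (fun D => fr (G.neighborSet v) D * (h (insert v D) + a G (k-1) (W \ D) h)) := by
    rw [← h3, h2]
  have h5 : P G k W * (k * ED G k (insert v W) (fun D => nv v D * (h D + a G (k-1) (insert v W \ D) h))
      * ED G k W (fr (G.neighborSet v)))
      = P G k W * ED G k W (fun D => fr (G.neighborSet v) D * (h (insert v D) + a G (k-1) (W \ D) h)) := by
    rw [← h4]; ring
  exact mul_left_cancel₀ hp2.ne' h5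

lemma J_insert (k : ℕ) (W : Finset V) (v : V) (hv : v ∉ W) (hc : W.card + 1 ≤ k) :
    J G k (insert v W) = ED G k W (fun D => fr (G.neighborSet v) D * J G (k-1) (W \ D))
      / ED G k W (fr (G.neighborSet v)) := by
  rw [← J_eq_a, a_insert k W v hv hc em]
  congr 1
  refine ED_congr k W _ _ (fun D _ => ?_)
  have : em (insert v D) = 0 := by unfold em; rw [if_neg (Finset.insert_ne_empty v D)]
  rw [this, zero_add, J_eq_a]

/-- two new vertices -/
lemma P_insert2 (k : ℕ) (W : Finset V) (x y : V) (hx : x ∉ W) (hy : y ∉ W) (hxy : x ≠ y) :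
    P G k (insert x (insert y W)) = S G k W (fun m => sh (fr (G.neighborSet x)) m * sh (fr (G.neighborSet y)) m
      - (if G.Adj x y then 1 else 0) * sh (fr (G.neighborSet x ∪ G.neighborSet y)) m) := by
  have hx' : x ∉ insert y W := by
    rw [Finset.mem_insert]; push Not; exact ⟨hxy, hx⟩
  rw [P_insert_sum k (insert y W) x hx', S_sub, S_mul_left]
  have e0 := S_ex (G := G) k W (fr (G.neighborSet x ∪ G.neighborSet y)) (fun _ => 1)
  simp only [mul_one, S_one] at e0
  rw [e0, S_ex]
  -- split the classes of `insert y W` into those containing `y` and the others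
  have e1 : ∑ D ∈ I G (insert y W), fr (G.neighborSet x) D * P G (k-1) (insert y W \ D)
      = ∑ D ∈ I G (insert y W), nv y D * (fr (G.neighborSet x) D * P G (k-1) (insert y W \ D))
        + ∑ D ∈ I G W, fr (G.neighborSet x) D * P G (k-1) (insert y W \ D) := by
    have e2 : ∑ D ∈ I G (insert y W), fr (G.neighborSet x) D * P G (k-1) (insert y W \ D)
        = ∑ D ∈ I G (insert y W), nv y D * (fr (G.neighborSet x) D * P G (k-1) (insert y W \ D))
          + ∑ D ∈ I G (insert y W), (if y ∈ D then 0 else fr (G.neighborSet x) D * P G (k-1) (insert y W \ D)) := by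
      rw [← Finset.sum_add_distrib]
      refine Finset.sum_congr rfl (fun D _ => ?_)
      unfold nv; split_ifs <;> ring
    rw [e2]
    congr 1
    have e3 : ∑ D ∈ I G (insert y W), (if y ∈ D then 0 else fr (G.neighborSet x) D * P G (k-1) (insert y W \ D))
        = ∑ D ∈ (I G (insert y W)).filter (fun D => ¬ y ∈ D), fr (G.neighborSet x) D * P G (k-1) (insert y W \ D) := by
      rw [Finset.sum_filter]
      refine Finset.sum_congr rfl (fun D _ => ?_)
      by_cases h : y ∈ D <;> simp [h]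
    rw [e3]
    refine Finset.sum_congr ?_ (fun _ _ => rfl)
    ext D
    simp only [Finset.mem_filter, mem_I]
    constructor
    · rintro ⟨⟨h1, h2⟩, h3⟩
      refine ⟨fun z hz => ?_, h2⟩
      rcases Finset.mem_insert.1 (h1 hz) with rfl | h
      · exact absurd hz h3
      · exact h
    · rintro ⟨h1, h2⟩
      exact ⟨⟨h1.trans (Finset.subset_insert _ _), h2⟩, fun h => hy (h1 h)⟩
  rw [e1, sum_new (G := G) (fun D R => fr (G.neighborSet x) D * P G (k-1) R) W y hy]
  -- the other classes
  have e4 : ∀ D ∈ I G W, P G (k-1) (insert y W \ D) = S G (k-1) (W \ D) (sh (fr (G.neighborSet y))) := by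
    intro D hD
    have hyD : y ∉ D := fun h => hy ((mem_I.1 hD).1 h)
    rw [Finset.insert_sdiff_of_notMem W hyD, P_insert (k-1) (W \ D) y (fun h => hy (Finset.mem_sdiff.1 h).1)]
    unfold a; rw [P_mul_Ex]
  have e5 : ∑ D ∈ I G W, fr (G.neighborSet x) D * P G (k-1) (insert y W \ D)
      = ∑ D ∈ I G W, fr (G.neighborSet x) D * S G (k-1) (W \ D) (sh (fr (G.neighborSet y))) :=
    Finset.sum_congr rfl (fun D hD => by rw [e4 D hD])
  rw [e5]
  have e6 : ∑ D ∈ I G W, fr (G.neighborSet x) D * S G (k-1) (W \ D) (fun m => sh (fr (G.neighborSet y)) (D ::ₘ m))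
      = ∑ D ∈ I G W, fr (G.neighborSet x) D * (fr (G.neighborSet y) D * P G (k-1) (W \ D))
        + ∑ D ∈ I G W, fr (G.neighborSet x) D * S G (k-1) (W \ D) (sh (fr (G.neighborSet y))) := by
    rw [← Finset.sum_add_distrib]
    refine Finset.sum_congr rfl (fun D _ => ?_)
    have : (fun m : Multiset (Finset V) => sh (fr (G.neighborSet y)) (D ::ₘ m))
        = (fun m => fr (G.neighborSet y) D + sh (fr (G.neighborSet y)) m) := by
      funext m; rw [sh_cons]
    rw [this, S_add, S_const]; ring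
  rw [e6]
  have e7 : ∀ D : Finset V, fr (G.neighborSet x ∪ G.neighborSet y) D
      = fr (G.neighborSet x) D * fr (G.neighborSet y) D := by
    intro D
    unfold fr
    by_cases h1 : ∀ z ∈ D, z ∉ G.neighborSet x
    · by_cases h2 : ∀ z ∈ D, z ∉ G.neighborSet y
      · rw [if_pos h1, if_pos h2, if_pos]
        · norm_num
        · intro z hz h; rcases h with h | h
          · exact h1 z hz h
          · exact h2 z hz h
      · rw [if_pos h1, if_neg h2, if_neg]
        · norm_num
        · intro h; exact h2 (fun z hz h3 => h z hz (Or.inr h3))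
    · rw [if_neg h1, if_neg]
      · norm_num
      · intro h; exact h1 (fun z hz h3 => h z hz (Or.inl h3))
  simp only [e7]
  have e8 : ∀ D : Finset V, fr (G.neighborSet x) (insert y D)
      = (if G.Adj x y then 0 else 1) * fr (G.neighborSet x) D := by
    intro D
    rw [fr_insert]
    simp only [SimpleGraph.mem_neighborSet]
    split_ifs <;> ring
  simp only [e8]
  by_cases hadj : G.Adj x y
  · simp only [if_pos hadj]
    have z1 : ∑ D ∈ I G W, fr (G.neighborSet y) D * (0 * fr (G.neighborSet x) D * P G (k-1) (W \ D)) = 0 :=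
      Finset.sum_eq_zero (fun D _ => by ring)
    rw [z1]
    have z2 : ∑ D ∈ I G W, fr (G.neighborSet x) D * (fr (G.neighborSet y) D * P G (k-1) (W \ D))
        = ∑ D ∈ I G W, fr (G.neighborSet x) D * fr (G.neighborSet y) D * P G (k-1) (W \ D) :=
      Finset.sum_congr rfl (fun D _ => by ring)
    rw [z2]; ring
  · simp only [if_neg hadj]
    have z1 : ∑ D ∈ I G W, fr (G.neighborSet y) D * (1 * fr (G.neighborSet x) D * P G (k-1) (W \ D))
        = ∑ D ∈ I G W, fr (G.neighborSet x) D * (fr (G.neighborSet y) D * P G (k-1) (W \ D)) :=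
      Finset.sum_congr rfl (fun D _ => by ring)
    rw [z1]; ring

end

end Helper87.BWL
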