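import Pool.Agent.Helper87.BW.Frame2

set_option autoImplicit false

/-!
Moments of the first colour class.
-/

namespace Helper87.BWL

open Finset Classical Helper53.BW

noncomputable section

variable {V : Type*} {G : SimpleGraph V}

lemma mom_aux (k : ℕ) (W : Finset V) (h1 : 1 ≤ k) (hc : W.card ≤ k) :
    ED G k W (fun D => cd D - 1) ≤ 0 := by
  rw [ED_sub k W cd (fun _ => 1), ED_cd k W hc, ED_one k W h1 hc]
  have hk : (0 : ℝ) < k := by exact_mod_cast h1
  have h2 : (W.card : ℝ) / k ≤ 1 := by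
    rw [div_le_one hk]
    exact_mod_cast hc
  linarith

lemma lemA_aux (k : ℕ) (W : Finset V) (h1 : 1 ≤ k) (hc : W.card ≤ k) (Y : Set V) :
    ED G k W (fun D => if ∀ y ∈ D, y ∉ Y then (D.card : ℝ) - 1 else 0) ≤ 0 := by
  refine (ED_mono k W _ (fun D => cd D - 1) fun D _ => ?_).trans (mom_aux k W h1 hc)
  by_cases h : ∀ y ∈ D, y ∉ Y
  · rw [if_pos h]; exact le_rfl
  · rw [if_neg h]
    push Not at h
    obtain ⟨y, hy, -⟩ := h
    have h2 : 1 ≤ D.card := Finset.card_pos.mpr ⟨y, hy⟩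
    have h3 : (1 : ℝ) ≤ D.card := by exact_mod_cast h2
    unfold cd
    linarith

/-- Lemma A -/
lemma lemA (k : ℕ) (W : Finset V) (h1 : 1 ≤ k) (hc : W.card ≤ k) (T : Finset V) (Y : Set V) :
    ED G k W (fun D => if T ⊆ D ∧ ∀ y ∈ D \ T, y ∉ Y then ((D \ T).card : ℝ) - 1 else 0) ≤ 0 := by
  have hnum : ∑ D ∈ I G W, P G (k-1) (W \ D) *
      (if T ⊆ D ∧ ∀ y ∈ D \ T, y ∉ Y then ((D \ T).card : ℝ) - 1 else 0) ≤ 0 := by
    by_cases hT : T ∈ I G W
    · rw [mem_I] at hT
      let Z : Set V := Y ∪ {y | ∃ t ∈ T, G.Adj t y}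
      have e1 : ∑ D ∈ I G W, P G (k-1) (W \ D) *
          (if T ⊆ D ∧ ∀ y ∈ D \ T, y ∉ Y then ((D \ T).card : ℝ) - 1 else 0) =
          ∑ D ∈ (I G W).filter (fun D => T ⊆ D), P G (k-1) (W \ D) *
          (if ∀ y ∈ D \ T, y ∉ Y then ((D \ T).card : ℝ) - 1 else 0) := by
        rw [Finset.sum_filter]
        refine Finset.sum_congr rfl fun D _ => ?_
        by_cases hTD : T ⊆ D
        · simp [hTD]
        · simp [hTD]
      have e2 : ∑ D ∈ (I G W).filter (fun D => T ⊆ D), P G (k-1) (W \ D) *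
          (if ∀ y ∈ D \ T, y ∉ Y then ((D \ T).card : ℝ) - 1 else 0) =
          ∑ D' ∈ (I G (W \ T)).filter (fun D' => ∀ y ∈ D', ¬ ∃ t ∈ T, G.Adj t y),
            P G (k-1) ((W \ T) \ D') *
          (if ∀ y ∈ D', y ∉ Y then ((D').card : ℝ) - 1 else 0) := by
        refine Finset.sum_nbij' (fun D => D \ T) (fun D' => T ∪ D') ?_ ?_ ?_ ?_ ?_
        · intro D hD
          rw [Finset.mem_filter, mem_I] at hD ⊢
          obtain ⟨⟨hDW, hDi⟩, hTD⟩ := hD
          refine ⟨⟨Finset.sdiff_subset_sdiff hDW (Finset.Subset.refl _),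
            hDi.mono Finset.sdiff_subset⟩, ?_⟩
          rintro y hy ⟨t, ht, hty⟩
          exact hDi t (hTD ht) y (Finset.sdiff_subset hy) hty
        · intro D' hD'
          rw [Finset.mem_filter, mem_I] at hD' ⊢
          obtain ⟨⟨hDW, hDi⟩, hN⟩ := hD'
          refine ⟨⟨Finset.union_subset hT.1 (hDW.trans Finset.sdiff_subset), ?_⟩,
            Finset.subset_union_left⟩
          intro x hx y hy hxy
          rcases Finset.mem_union.mp hx with hx | hx <;> rcases Finset.mem_union.mp hy with hy | hy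
          · exact hT.2 x hx y hy hxy
          · exact hN y hy ⟨x, hx, hxy⟩
          · exact hN x hx ⟨y, hy, hxy.symm⟩
          · exact hDi x hx y hy hxy
        · intro D hD
          rw [Finset.mem_filter] at hD
          exact Finset.union_sdiff_of_subset hD.2
        · intro D' hD'
          rw [Finset.mem_filter, mem_I] at hD'
          rw [Finset.union_sdiff_left]
          refine Finset.sdiff_eq_self_of_disjoint ?_
          rw [Finset.disjoint_left]
          intro x hx hxT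
          exact (Finset.mem_sdiff.mp (hD'.1.1 hx)).2 hxT
        · intro D hD
          rw [Finset.mem_filter] at hD
          have e3 : (W \ T) \ (D \ T) = W \ D := by
            ext x
            simp only [Finset.mem_sdiff]
            constructor
            · rintro ⟨⟨h1, h2⟩, h3⟩
              exact ⟨h1, fun h => h3 ⟨h, h2⟩⟩
            · rintro ⟨h1, h2⟩
              exact ⟨⟨h1, fun h => h2 (hD.2 h)⟩, fun h => h2 h.1⟩
          rw [e3]
      have e4 : ∑ D' ∈ (I G (W \ T)).filter (fun D' => ∀ y ∈ D', ¬ ∃ t ∈ T, G.Adj t y),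
            P G (k-1) ((W \ T) \ D') *
          (if ∀ y ∈ D', y ∉ Y then ((D').card : ℝ) - 1 else 0) =
          ∑ D' ∈ I G (W \ T), P G (k-1) ((W \ T) \ D') *
          (if ∀ y ∈ D', y ∉ Z then ((D').card : ℝ) - 1 else 0) := by
        rw [Finset.sum_filter]
        refine Finset.sum_congr rfl fun D' _ => ?_
        by_cases ha : ∀ y ∈ D', ¬ ∃ t ∈ T, G.Adj t y
        · rw [if_pos ha]
          by_cases hb : ∀ y ∈ D', y ∉ Y
          · rw [if_pos hb, if_pos]
            intro y hy hz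
            rcases hz with hz | hz
            · exact hb y hy hz
            · exact ha y hy hz
          · rw [if_neg hb, if_neg]
            intro h
            exact hb fun y hy hY => h y hy (Or.inl hY)
        · rw [if_neg ha, if_neg, mul_zero]
          intro h
          exact ha fun y hy hY => h y hy (Or.inr hY)
      rw [e1, e2, e4]
      have hc' : (W \ T).card ≤ k := (Finset.card_le_card Finset.sdiff_subset).trans hc
      have h3 := lemA_aux (G := G) k (W \ T) h1 hc' Z
      unfold ED at h3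
      have h4 : 0 < P G k (W \ T) := P_pos k _ hc'
      rw [div_le_iff₀ h4, zero_mul] at h3
      refine le_trans (le_of_eq (Finset.sum_congr rfl fun D _ => ?_)) h3
      beta_reduce
      by_cases hD : ∀ y ∈ D, y ∉ Z
      · rw [if_pos hD, if_pos hD]
      · rw [if_neg hD, if_neg hD]
    · refine le_of_eq (Finset.sum_eq_zero fun D hD => ?_)
      rw [if_neg, mul_zero]
      rintro ⟨hTD, -⟩
      rw [mem_I] at hD
      exact hT (mem_I.2 ⟨hTD.trans hD.1, hD.2.mono hTD⟩)
  unfold ED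
  exact div_nonpos_of_nonpos_of_nonneg hnum (P_nonneg _ _)

/-- the weight of Lemma A -/
def lA (T : Finset V) (Y : Set V) (D : Finset V) : ℝ :=
  if T ⊆ D ∧ ∀ y ∈ D \ T, y ∉ Y then ((D \ T).card : ℝ) - 1 else 0

lemma lA_pos {T : Finset V} {Y : Set V} {D : Finset V} (h1 : T ⊆ D)
    (h2 : ∀ y ∈ D \ T, y ∉ Y) : lA T Y D = ((D \ T).card : ℝ) - 1 := by
  unfold lA; rw [if_pos ⟨h1, h2⟩]

lemma lA_neg {T : Finset V} {Y : Set V} {D : Finset V}
    (h : ¬ (T ⊆ D ∧ ∀ y ∈ D \ T, y ∉ Y)) : lA T Y D = 0 := by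
  unfold lA; rw [if_neg h]

lemma ED_lA (k : ℕ) (W : Finset V) (h1 : 1 ≤ k) (hc : W.card ≤ k) (T : Finset V) (Y : Set V) :
    ED G k W (lA T Y) ≤ 0 := lemA k W h1 hc T Y

lemma fr_cases (Y : Set V) (D : Finset V) : (fr Y D = 1 ∧ ci Y D = 0 ∧ xi Y D = 0) ∨
    (fr Y D = 0 ∧ 1 ≤ ci Y D ∧ xi Y D = ci Y D - 1) := by
  by_cases h : ∀ y ∈ D, y ∉ Y
  · left
    have h1 : fr Y D = 1 := by unfold fr; rw [if_pos h]
    have h2 : ci Y D = 0 := by
      unfold ci
      rw [Finset.filter_false_of_mem h]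
      simp
    refine ⟨h1, h2, ?_⟩
    unfold xi
    rw [h1, h2]; ring
  · right
    have h1 : fr Y D = 0 := by unfold fr; rw [if_neg h]
    push Not at h
    obtain ⟨y, hy, hyY⟩ := h
    have h2 : 1 ≤ ci Y D := by
      unfold ci
      have : 0 < (D.filter (fun y => y ∈ Y)).card :=
        Finset.card_pos.mpr ⟨y, Finset.mem_filter.mpr ⟨hy, hyY⟩⟩
      exact_mod_cast this
    refine ⟨h1, h2, ?_⟩
    unfold xi
    rw [h1]; ring

lemma xi_mul_ci (Y : Set V) (D : Finset V) : xi Y D * ci Y D = ci Y D * (ci Y D - 1) := by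
  rcases fr_cases Y D with ⟨h1, h2, h3⟩ | ⟨h1, h2, h3⟩ <;> rw [h3]
  · rw [h2]; ring
  · ring

/-- natural number form of `ci` -/
lemma ci_nat (Y : Set V) (D : Finset V) : ∃ i : ℕ, ci Y D = i := ⟨_, rfl⟩

lemma pair_term (Y : Set V) (W D : Finset V) (q : V × V)
    (hq : q ∈ (W.filter (fun y => y ∈ Y)).offDiag) :
    lA {q.1, q.2} ∅ D = if q ∈ (D.filter (fun y => y ∈ Y)).offDiag then (cd D - 3) else 0 := by
  rw [Finset.mem_offDiag, Finset.mem_filter, Finset.mem_filter] at hq
  by_cases hqD : ({q.1, q.2} : Finset V) ⊆ D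
  · have hq1 : q.1 ∈ D := hqD (by simp)
    have hq2 : q.2 ∈ D := hqD (by simp)
    rw [lA_pos hqD fun y _ => Set.notMem_empty y, if_pos]
    · have h4 := Finset.card_sdiff_add_card_eq_card hqD
      rw [Finset.card_pair hq.2.2] at h4
      have h5 : ((D \ {q.1, q.2}).card : ℝ) + 2 = D.card := by exact_mod_cast h4
      unfold cd
      linarith
    · rw [Finset.mem_offDiag, Finset.mem_filter, Finset.mem_filter]
      exact ⟨⟨hq1, hq.1.2⟩, ⟨hq2, hq.2.1.2⟩, hq.2.2⟩
  · rw [lA_neg fun h => hqD h.1, if_neg]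
    intro h
    rw [Finset.mem_offDiag, Finset.mem_filter, Finset.mem_filter] at h
    apply hqD
    intro x hx
    rw [Finset.mem_insert, Finset.mem_singleton] at hx
    rcases hx with rfl | rfl
    · exact h.1.1
    · exact h.2.1.1

lemma pair_sum (Y : Set V) (W D : Finset V) (hD : D ⊆ W) :
    ∑ q ∈ (W.filter (fun y => y ∈ Y)).offDiag, lA {q.1, q.2} ∅ D =
      ci Y D * (ci Y D - 1) * (cd D - 3) := by
  rw [Finset.sum_congr rfl fun q hq => pair_term Y W D q hq, ← Finset.sum_filter]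
  have h6 : (W.filter (fun y => y ∈ Y)).offDiag.filter
      (fun q => q ∈ (D.filter (fun y => y ∈ Y)).offDiag) =
      (D.filter (fun y => y ∈ Y)).offDiag := by
    ext q
    rw [Finset.mem_filter]
    constructor
    · exact fun h => h.2
    · intro h
      refine ⟨?_, h⟩
      rw [Finset.mem_offDiag, Finset.mem_filter, Finset.mem_filter] at h ⊢
      exact ⟨⟨hD h.1.1, h.1.2⟩, ⟨hD h.2.1.1, h.2.1.2⟩, h.2.2⟩
  rw [h6, Finset.sum_const, nsmul_eq_mul, Finset.offDiag_card,
    Nat.cast_sub (Nat.le_mul_self _)]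
  unfold ci
  push_cast
  ring

lemma mom_pairs (k : ℕ) (W : Finset V) (h1 : 1 ≤ k) (hc : W.card ≤ k) (Y : Set V) :
    ED G k W (fun D => ci Y D * (ci Y D - 1) * (cd D - 3)) ≤ 0 := by
  have h2 : ∀ D ∈ I G W, ci Y D * (ci Y D - 1) * (cd D - 3) =
      ∑ q ∈ (W.filter (fun y => y ∈ Y)).offDiag, lA {q.1, q.2} ∅ D :=
    fun D hD => (pair_sum Y W D (mem_I.1 hD).1).symm
  rw [ED_congr k W _ _ h2, ED_sum _ _ _ fun (q : V × V) => lA {q.1, q.2} ∅]
  exact Finset.sum_nonpos fun q _ => ED_lA k W h1 hc {q.1, q.2} ∅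

lemma mom_ci (k : ℕ) (W : Finset V) (h1 : 1 ≤ k) (hc : W.card ≤ k) (Y : Set V) :
    ED G k W (fun D => ci Y D * (ci Y D - 1)) ≤ 3 * ED G k W (xi Y) := by
  have h2 : ED G k W (fun D => ci Y D * (ci Y D - 1)) ≤
      ED G k W (fun D => 3 * xi Y D + (1 / 2) * (ci Y D * (ci Y D - 1) * (cd D - 3))) := by
    refine ED_mono k W _ _ fun D _ => ?_
    have hle := ci_le_cd Y D
    rcases fr_cases Y D with ⟨a1, a2, a3⟩ | ⟨a1, a2, a3⟩ <;> rw [a3]
    · rw [a2]; norm_num
    · obtain ⟨i, hi⟩ := ci_nat Y D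
      rw [hi] at a2 hle ⊢
      have hi1 : 1 ≤ i := by exact_mod_cast a2
      have h3 : ((i : ℝ) - 1) * ((i : ℝ) * ((i : ℝ) - 5) + 6) ≥ 0 := by
        obtain ⟨j, rfl⟩ : ∃ j, i = j + 1 := ⟨i - 1, by omega⟩
        push_cast
        rcases Nat.lt_or_ge j 2 with hj | hj
        · interval_cases j <;> norm_num
        · have hj' : (2 : ℝ) ≤ j := by exact_mod_cast hj
          nlinarith [mul_nonneg (by linarith : (0 : ℝ) ≤ (j : ℝ) - 2)
            (by linarith : (0 : ℝ) ≤ (j : ℝ) - 1), mul_nonneg (mul_nonneg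
            (by linarith : (0 : ℝ) ≤ (j : ℝ) - 2) (by linarith : (0 : ℝ) ≤ (j : ℝ) - 1))
            (by linarith : (0 : ℝ) ≤ (j : ℝ))]
      have h4 : 0 ≤ (i : ℝ) * ((i : ℝ) - 1) * (cd D - i) :=
        mul_nonneg (mul_nonneg (by linarith) (by linarith)) (by linarith)
      nlinarith
  refine h2.trans ?_
  rw [ED_add k W (fun D => 3 * xi Y D), ED_mul_left, ED_mul_left]
  have h5 := mom_pairs (G := G) k W h1 hc Y
  linarith

lemma mom_split (k : ℕ) (W : Finset V) (h1 : 1 ≤ k) (hc : W.card ≤ k) (Y : Set V) :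
    ED G k W (fun D => xi Y D * (cd D - ci Y D - 1)) ≤ 0 := by
  have h2 : ∀ D ∈ I G W, xi Y D * (cd D - ci Y D - 1) =
      ∑ S ∈ (W.filter (fun y => y ∈ Y)).powerset, xi Y S * lA S Y D := by
    intro D hD
    rw [mem_I] at hD
    rw [Finset.sum_eq_single (D.filter (fun y => y ∈ Y))]
    · have hsub : D.filter (fun y => y ∈ Y) ⊆ D := Finset.filter_subset _ _
      rw [lA_pos hsub]
      · have h3 := Finset.card_sdiff_add_card_eq_card hsub
        have h4 : ((D \ D.filter (fun y => y ∈ Y)).card : ℝ) +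
            (D.filter (fun y => y ∈ Y)).card = D.card := by exact_mod_cast h3
        have h5 : ci Y (D.filter (fun y => y ∈ Y)) = ci Y D := by
          unfold ci
          rw [Finset.filter_filter]
          simp
        have h6 : fr Y (D.filter (fun y => y ∈ Y)) = fr Y D := by
          unfold fr
          by_cases h : ∀ y ∈ D, y ∉ Y
          · rw [if_pos h, if_pos]
            intro y hy
            exact h y (hsub hy)
          · rw [if_neg h, if_neg]
            intro h'
            apply h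
            intro y hy hyY
            exact h' y (Finset.mem_filter.mpr ⟨hy, hyY⟩) hyY
        have h7 : xi Y (D.filter (fun y => y ∈ Y)) = xi Y D := by
          unfold xi; rw [h5, h6]
        rw [h7]
        unfold cd ci
        congr 1
        linarith
      · intro y hy hyY
        rw [Finset.mem_sdiff] at hy
        exact hy.2 (Finset.mem_filter.mpr ⟨hy.1, hyY⟩)
    · intro S hS hne
      rw [lA_neg, mul_zero]
      rintro ⟨hSD, hY⟩
      apply hne
      rw [Finset.mem_powerset] at hS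
      ext x
      rw [Finset.mem_filter]
      constructor
      · intro hx
        exact ⟨hSD hx, (Finset.mem_filter.mp (hS hx)).2⟩
      · rintro ⟨hx, hxY⟩
        by_contra hxS
        exact hY x (Finset.mem_sdiff.mpr ⟨hx, hxS⟩) hxY
    · intro h
      exfalso
      apply h
      rw [Finset.mem_powerset]
      intro x hx
      rw [Finset.mem_filter] at hx ⊢
      exact ⟨hD.1 hx.1, hx.2⟩
  rw [ED_congr k W _ _ h2, ED_sum _ _ _ fun (S : Finset V) D => xi Y S * lA S Y D]
  refine Finset.sum_nonpos fun S _ => ?_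
  rw [ED_mul_left k W (xi Y S) (lA S Y)]
  exact mul_nonpos_of_nonneg_of_nonpos (xi_nonneg Y S) (ED_lA k W h1 hc S Y)

lemma mom_xi_cd (k : ℕ) (W : Finset V) (h1 : 1 ≤ k) (hc : W.card ≤ k) (Y : Set V) :
    ED G k W (fun D => xi Y D * cd D) ≤ 4 * ED G k W (xi Y) := by
  have h2 : ED G k W (fun D => xi Y D * cd D) =
      ED G k W (fun D => ci Y D * (ci Y D - 1)) +
      (ED G k W (fun D => xi Y D * (cd D - ci Y D - 1)) + ED G k W (xi Y)) := by
    rw [← ED_add, ← ED_add]
    refine ED_congr k W _ _ fun D _ => ?_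
    rw [← xi_mul_ci]; ring
  have h3 := mom_ci (G := G) k W h1 hc Y
  have h4 := mom_split (G := G) k W h1 hc Y
  rw [h2]; linarith

lemma mom_em (k : ℕ) (W : Finset V) (h1 : 1 ≤ k) (hc : W.card ≤ k) :
    ED G k W em = 1 - (W.card : ℝ) / k + ED G k W (xi Set.univ) := by
  have h2 : ED G k W (xi Set.univ) = ED G k W (fun D => (cd D - 1) + em D) := by
    refine ED_congr k W _ _ fun D _ => ?_
    unfold xi
    rw [ci_univ, fr_univ]
  rw [h2, ED_add k W (fun D => cd D - 1), ED_sub k W cd (fun _ => 1), ED_cd k W hc,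
    ED_one k W h1 hc]
  ring

lemma mom_hit (k : ℕ) (W : Finset V) (h1 : 1 ≤ k) (hc : W.card ≤ k) (Y : Set V) :
    ED G k W (fun D => (cd D - 1) * (1 - fr Y D)) ≤
      ED G k W (fr Y) - ED G k W (fun D => cd D * fr Y D) := by
  have h2 : ED G k W (fun D => (cd D - 1) * (1 - fr Y D)) =
      ED G k W (fun D => cd D - 1) +
        (ED G k W (fr Y) - ED G k W (fun D => cd D * fr Y D)) := by
    rw [← ED_sub, ← ED_add]
    refine ED_congr k W _ _ fun D _ => ?_
    ring
  rw [h2]
  have := mom_aux (G := G) k W h1 hc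
  linarith

lemma mom_free (k : ℕ) (W : Finset V) (h1 : 1 ≤ k) (hc : W.card ≤ k) (Y : Set V) :
    ED G k W (fun D => cd D * fr Y D) ≤ ED G k W (fr Y) - ED G k W (xi Y) := by
  have h2 := mom_hit (G := G) k W h1 hc Y
  have h3 : ED G k W (xi Y) ≤ ED G k W (fun D => (cd D - 1) * (1 - fr Y D)) := by
    refine ED_mono k W _ _ fun D _ => ?_
    have hle := ci_le_cd Y D
    rcases fr_cases Y D with ⟨a1, a2, a3⟩ | ⟨a1, a2, a3⟩ <;> rw [a3, a1]
    · simp
    · linarith
  linarith

lemma mom_free' (k : ℕ) (W : Finset V) (h1 : 1 ≤ k) (hc : W.card ≤ k) (Y : Set V) :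
    ED G k W (fun D => cd D * fr Y D) ≤ ED G k W (fr Y) := by
  have h2 := mom_free (G := G) k W h1 hc Y
  have h3 : 0 ≤ ED G k W (xi Y) := ED_nonneg k W _ fun D _ => xi_nonneg Y D
  linarith

lemma mom_sq (k : ℕ) (W : Finset V) (h1 : 1 ≤ k) (hc : W.card ≤ k) (Y : Set V) :
    ED G k W (fun D => cd D ^ 2 * fr Y D) ≤ 2 * ED G k W (fr Y) := by
  have h2 : ∀ D ∈ I G W, cd D * (cd D - 2) * fr Y D ≤
      ∑ v ∈ W.filter (fun v => v ∉ Y), lA {v} Y D := by
    intro D hD
    rw [mem_I] at hD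
    have hv : ∀ v ∈ D, ((D \ {v}).card : ℝ) = cd D - 1 := by
      intro v hv
      have h3 := Finset.card_sdiff_add_card_eq_card (Finset.singleton_subset_iff.mpr hv)
      rw [Finset.card_singleton] at h3
      have h5 : ((D \ {v}).card : ℝ) + 1 = D.card := by exact_mod_cast h3
      unfold cd
      linarith
    by_cases h : ∀ y ∈ D, y ∉ Y
    · have hfr : fr Y D = 1 := by unfold fr; rw [if_pos h]
      rw [hfr, mul_one]
      have h3 : ∀ v ∈ W.filter (fun v => v ∉ Y),
          lA {v} Y D = if v ∈ D then cd D - 2 else 0 := by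
        intro v _
        by_cases hvD : v ∈ D
        · rw [lA_pos (Finset.singleton_subset_iff.mpr hvD)
            fun y hy => h y (Finset.sdiff_subset hy), if_pos hvD, hv v hvD]
          ring
        · rw [lA_neg fun h' => hvD (Finset.singleton_subset_iff.mp h'.1), if_neg hvD]
      rw [Finset.sum_congr rfl h3, ← Finset.sum_filter]
      have h4 : (W.filter (fun v => v ∉ Y)).filter (fun v => v ∈ D) = D := by
        ext x
        rw [Finset.mem_filter, Finset.mem_filter]
        exact ⟨fun h => h.2, fun hx => ⟨⟨hD.1 hx, h x hx⟩, hx⟩⟩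
      rw [h4, Finset.sum_const, nsmul_eq_mul]
      exact le_rfl
    · have hfr : fr Y D = 0 := by unfold fr; rw [if_neg h]
      rw [hfr, mul_zero]
      refine Finset.sum_nonneg fun v hvm => ?_
      by_cases hh : ({v} : Finset V) ⊆ D ∧ ∀ y ∈ D \ {v}, y ∉ Y
      · have hvD := Finset.singleton_subset_iff.mp hh.1
        exfalso
        apply h
        intro y hy
        by_cases hyv : y = v
        · rw [hyv]; exact (Finset.mem_filter.mp hvm).2
        · exact hh.2 y (Finset.mem_sdiff.mpr ⟨hy, by simpa using hyv⟩)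
      · rw [lA_neg hh]
  have h3 : ED G k W (fun D => cd D * (cd D - 2) * fr Y D) ≤ 0 := by
    refine (ED_mono k W _ _ h2).trans ?_
    rw [ED_sum _ _ _ fun (v : V) => lA {v} Y]
    exact Finset.sum_nonpos fun v _ => ED_lA k W h1 hc {v} Y
  have h4 : ED G k W (fun D => cd D ^ 2 * fr Y D) =
      ED G k W (fun D => cd D * (cd D - 2) * fr Y D) +
        2 * ED G k W (fun D => cd D * fr Y D) := by
    rw [← ED_mul_left, ← ED_add]
    refine ED_congr k W _ _ fun D _ => ?_
    ring
  have h5 := mom_free' (G := G) k W h1 hc Y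
  linarith

lemma mom_class (k : ℕ) (W : Finset V) (h1 : 1 ≤ k) (hc : W.card ≤ k) (v : V) :
    ED G k W (fun D => nv v D * (cd D - 1)) ≤ ED G k W (nv v) := by
  have h2 : ED G k W (fun D => nv v D * (cd D - 1)) =
      ED G k W (lA {v} ∅) + ED G k W (nv v) := by
    rw [← ED_add]
    refine ED_congr k W _ _ fun D _ => ?_
    unfold nv
    by_cases hvD : v ∈ D
    · have h3 := Finset.card_sdiff_add_card_eq_card (Finset.singleton_subset_iff.mpr hvD)
      rw [Finset.card_singleton] at h3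
      have h5 : ((D \ {v}).card : ℝ) + 1 = D.card := by exact_mod_cast h3
      rw [if_pos hvD, lA_pos (Finset.singleton_subset_iff.mpr hvD)
        fun y _ => Set.notMem_empty y]
      unfold cd
      linarith
    · rw [if_neg hvD, lA_neg fun h' => hvD (Finset.singleton_subset_iff.mp h'.1)]
      ring
  have h3 := ED_lA (G := G) k W h1 hc {v} ∅
  rw [h2]; linarith

lemma mom_three (k : ℕ) (W : Finset V) (h1 : 1 ≤ k) (hc : W.card ≤ k) :
    ED G k W (fun D => cd D ^ 2 * xi Set.univ D) ≤ 9 * ED G k W (xi Set.univ) := by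
  have h2 : ED G k W (fun D => cd D ^ 2 * xi Set.univ D) =
      ED G k W (fun D => ci Set.univ D * (ci Set.univ D - 1) * (cd D - 3)) +
        3 * ED G k W (fun D => ci Set.univ D * (ci Set.univ D - 1)) := by
    rw [← ED_mul_left, ← ED_add]
    refine ED_congr k W _ _ fun D _ => ?_
    have h3 := xi_mul_ci Set.univ D
    rw [ci_univ] at h3 ⊢
    calc cd D ^ 2 * xi Set.univ D = cd D * (xi Set.univ D * cd D) := by ring
      _ = cd D * (cd D * (cd D - 1)) := by rw [h3]
      _ = _ := by ring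
  have h3 := mom_pairs (G := G) k W h1 hc Set.univ
  have h4 := mom_ci (G := G) k W h1 hc Set.univ
  rw [h2]; linarith

lemma mom_xi_sq (k : ℕ) (W : Finset V) (h1 : 1 ≤ k) (hc : W.card ≤ k) :
    ED G k W (fun D => xi Set.univ D ^ 2) ≤ 2 * ED G k W (xi Set.univ) := by
  have h2 : ED G k W (fun D => xi Set.univ D ^ 2) =
      ED G k W (fun D => ci Set.univ D * (ci Set.univ D - 1)) - ED G k W (xi Set.univ) := by
    rw [← ED_sub]
    refine ED_congr k W _ _ fun D _ => ?_
    rcases fr_cases Set.univ D with ⟨a1, a2, a3⟩ | ⟨a1, a2, a3⟩ <;> rw [a3]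
    · rw [a2]; ring
    · ring
  have h4 := mom_ci (G := G) k W h1 hc Set.univ
  rw [h2]; linarith

end

end Helper87.BWL
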