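import Mathlib
import Pool.Agent.Helper87.BW.Frame2
import Pool.Agent.Helper87.BW.Mom

set_option autoImplicit false

/-!
Means over the first class conditioned to avoid a set.
-/

namespace Helper87.BWL

open Finset Classical Helper53.BW

noncomputable section

variable {V : Type*} {G : SimpleGraph V}

/-- mean over the first class, conditioned to avoid `Y` -/
def cnd (G : SimpleGraph V) (k : ℕ) (W : Finset V) (Y : Set V) (φ : Finset V → ℝ) : ℝ :=
  ED G k W (fun D => fr Y D * φ D) / ED G k W (fr Y)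

/-- mean over the rest of the class of the vertex `x` -/
def tx (G : SimpleGraph V) (k : ℕ) (W : Finset V) (x : V) (φ : Finset V → ℝ) : ℝ :=
  cnd G k (W.erase x) (G.neighborSet x) φ

/-- mean over the rest of the class of the contracted edge `uv` -/
def te (G : SimpleGraph V) (k : ℕ) (W : Finset V) (u v : V) (φ : Finset V → ℝ) : ℝ :=
  cnd G k ((W.erase u).erase v) (G.neighborSet u ∪ G.neighborSet v) φ

/-- additive weight of a set -/
def wt (w : V → ℝ) (T : Finset V) : ℝ := ∑ z ∈ T, w z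

lemma cnd_add (k : ℕ) (W : Finset V) (Y : Set V) (φ χ : Finset V → ℝ) :
    cnd G k W Y (fun D => φ D + χ D) = cnd G k W Y φ + cnd G k W Y χ := by
  unfold cnd
  rw [← add_div, ← ED_add]
  simp only [mul_add]

lemma cnd_sub (k : ℕ) (W : Finset V) (Y : Set V) (φ χ : Finset V → ℝ) :
    cnd G k W Y (fun D => φ D - χ D) = cnd G k W Y φ - cnd G k W Y χ := by
  unfold cnd
  rw [← sub_div, ← ED_sub]
  simp only [mul_sub]

lemma cnd_mul_left (k : ℕ) (W : Finset V) (Y : Set V) (c : ℝ) (φ : Finset V → ℝ) :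
    cnd G k W Y (fun D => c * φ D) = c * cnd G k W Y φ := by
  unfold cnd
  rw [← mul_div_assoc, ← ED_mul_left]
  congr 2
  funext D; ring

lemma cnd_const (k : ℕ) (W : Finset V) (Y : Set V) (hc : W.card + 1 ≤ k) (c : ℝ) :
    cnd G k W Y (fun _ => c) = c := by
  unfold cnd
  have e : (fun D => fr Y D * c) = (fun D => c * fr Y D) := by funext D; ring
  have hp := (ED_fr_pos (G := G) k W hc Y).ne'
  rw [e, ED_mul_left]
  field_simp

lemma cnd_mono (k : ℕ) (W : Finset V) (Y : Set V) (φ χ : Finset V → ℝ)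
    (h : ∀ D ∈ I G W, (∀ y ∈ D, y ∉ Y) → φ D ≤ χ D) : cnd G k W Y φ ≤ cnd G k W Y χ := by
  unfold cnd
  refine div_le_div_of_nonneg_right (ED_mono k W _ _ (fun D hD => ?_))
    (ED_nonneg k W _ (fun D _ => fr_nonneg Y D))
  by_cases h1 : ∀ y ∈ D, y ∉ Y
  · exact mul_le_mul_of_nonneg_left (h D hD h1) (fr_nonneg Y D)
  · have : fr Y D = 0 := by unfold fr; rw [if_neg h1]
    rw [this]; simp

lemma cnd_nonneg (k : ℕ) (W : Finset V) (Y : Set V) (φ : Finset V → ℝ)
    (h : ∀ D ∈ I G W, (∀ y ∈ D, y ∉ Y) → 0 ≤ φ D) : 0 ≤ cnd G k W Y φ := by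
  have h1 := cnd_mono (G := G) k W Y (fun _ => 0) φ h
  have h2 : cnd G k W Y (fun _ => (0:ℝ)) = 0 := by
    unfold cnd
    have e : (fun D => fr Y D * (0:ℝ)) = (fun D => (0:ℝ) * fr Y D) := by funext D; ring
    rw [e, ED_mul_left]; simp
  linarith

lemma cnd_abs (k : ℕ) (W : Finset V) (Y : Set V) (φ : Finset V → ℝ) :
    |cnd G k W Y φ| ≤ cnd G k W Y (fun D => |φ D|) := by
  rw [abs_le]
  constructor
  · have h := cnd_mono (G := G) k W Y (fun D => (-1) * |φ D|) φ
      (fun D _ _ => by have := neg_abs_le (φ D); linarith)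
    rw [cnd_mul_left] at h
    linarith
  · exact cnd_mono k W Y φ _ (fun D _ _ => le_abs_self _)

lemma cnd_cd_nonneg (k : ℕ) (W : Finset V) (Y : Set V) : 0 ≤ cnd G k W Y cd :=
  cnd_nonneg k W Y cd (fun D _ _ => cd_nonneg D)

lemma cnd_cd_le (k : ℕ) (W : Finset V) (Y : Set V) (hc : W.card + 1 ≤ k) : cnd G k W Y cd ≤ 1 := by
  unfold cnd
  have hp := ED_fr_pos (G := G) k W hc Y
  rw [div_le_one hp]
  have h1 := mom_free (G := G) k W (by omega) (by omega) Y
  have h2 := ED_nonneg (G := G) k W (xi Y) (fun D _ => xi_nonneg Y D)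
  have e : (fun D => fr Y D * cd D) = (fun D => cd D * fr Y D) := by funext D; ring
  rw [e]
  linarith

lemma cnd_sq_le (k : ℕ) (W : Finset V) (Y : Set V) (hc : W.card + 1 ≤ k) :
    cnd G k W Y (fun D => cd D ^ 2) ≤ 2 := by
  unfold cnd
  have hp := ED_fr_pos (G := G) k W hc Y
  rw [div_le_iff₀ hp]
  have h1 := mom_sq (G := G) k W (by omega) (by omega) Y
  have e : (fun D => fr Y D * cd D ^ 2) = (fun D => cd D ^ 2 * fr Y D) := by funext D; ring
  rw [e]
  exact h1

lemma wt_add_const (w : V → ℝ) (c : ℝ) (T : Finset V) : wt (fun x => w x + c) T = wt w T + c * cd T := by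
  unfold wt cd
  rw [Finset.sum_add_distrib, Finset.sum_const, nsmul_eq_mul]; ring

end

end Helper87.BWL
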