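import Mathlib
import Pool.Agent.Helper53.ChromFinal
import Pool.Agent.Helper87.BW.Frame

set_option autoImplicit false

/-!
From the two cases (many unused colours, few unused colours) to the statement on good edges.
-/

namespace Helper87.BWL

open Finset Classical Helper53.BW

noncomputable section

variable {V : Type*} {G : SimpleGraph V}

/-- the class `D` avoids `Y` -/
def Av (Y : Set V) (D : Finset V) : Prop := ∀ y ∈ D, y ∉ Y

/-- colourings in which two merged vertices with joint neighbourhood `Y` are added to `H` -/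
def MM (G : SimpleGraph V) (k : ℕ) (H : Finset V) (Y : Set V) : ℝ :=
  k * ∑ D ∈ (I G H).filter (Av Y), P G (k-1) (H \ D)

/-- classes of a graph with an isolated vertex -/
lemma I_isol (H : Finset V) (x : V) (hiso : ∀ y, ¬ G.Adj x y) :
    I G (insert x H) = I G H ∪ (I G H).image (insert x) := by
  ext S
  simp only [Finset.mem_union, Finset.mem_image, mem_I]
  constructor
  · rintro ⟨h1, h2⟩
    by_cases hxS : x ∈ S
    · right
      refine ⟨S.erase x, ⟨?_, h2.mono (Finset.erase_subset _ _)⟩, Finset.insert_erase hxS⟩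
      intro y hy
      rw [Finset.mem_erase] at hy
      rcases Finset.mem_insert.1 (h1 hy.2) with h | h
      · exact absurd h hy.1
      · exact h
    · left
      refine ⟨?_, h2⟩
      intro y hy
      rcases Finset.mem_insert.1 (h1 hy) with h | h
      · exact absurd (h ▸ hy) hxS
      · exact h
  · rintro (⟨h1, h2⟩ | ⟨D, ⟨h1, h2⟩, rfl⟩)
    · exact ⟨h1.trans (Finset.subset_insert _ _), h2⟩
    · refine ⟨Finset.insert_subset_insert x h1, ?_⟩
      intro a ha b hb
      rcases Finset.mem_insert.1 ha with h | h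
      · rw [h]; exact hiso b
      · rcases Finset.mem_insert.1 hb with h' | h'
        · rw [h']; exact fun hh => hiso a hh.symm
        · exact h2 a h b h'

/-- an isolated vertex multiplies the number of colourings by the number of colours -/
lemma P_isol (k : ℕ) (W : Finset V) (x : V) (hx : x ∉ W) (hiso : ∀ y, ¬ G.Adj x y) :
    P G k (insert x W) = k * P G k W := by
  rcases Nat.eq_zero_or_pos k with rfl | hk
  · rw [P_zero, if_neg (Finset.insert_ne_empty x W)]; simp
  obtain ⟨l, rfl⟩ : ∃ l, k = l + 1 := ⟨k-1, by omega⟩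
  rw [P_class l (insert x W) x (Finset.mem_insert_self _ _), sum_class_insert (G := G) (fun X => P G l X) W x hx]
  have e : (I G W).filter (fun S => ∀ y ∈ S, ¬ G.Adj x y) = I G W :=
    Finset.filter_true_of_mem (fun S _ y _ => hiso y)
  rw [e, ← P_succ]
  push_cast; ring

lemma MM_isol (k : ℕ) (H : Finset V) (Y : Set V) (x : V) (hx : x ∉ H) (hxY : x ∉ Y)
    (hiso : ∀ y, ¬ G.Adj x y) : MM G k (insert x H) Y = k * MM G k H Y := by
  rcases Nat.eq_zero_or_pos k with rfl | hk
  · unfold MM; simp
  obtain ⟨l, rfl⟩ : ∃ l, k = l + 1 := ⟨k-1, by omega⟩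
  unfold MM
  simp only [Nat.add_sub_cancel]
  rw [I_isol H x hiso, Finset.filter_union, Finset.sum_union]
  · have e1 : ∑ D ∈ (I G H).filter (Av Y), P G l (insert x H \ D)
        = l * ∑ D ∈ (I G H).filter (Av Y), P G l (H \ D) := by
      rw [Finset.mul_sum]
      refine Finset.sum_congr rfl (fun D hD => ?_)
      rw [Finset.mem_filter, mem_I] at hD
      have hxD : x ∉ D := fun h => hx (hD.1.1 h)
      rw [Finset.insert_sdiff_of_notMem H hxD]
      exact P_isol l (H \ D) x (fun h => hx (Finset.mem_sdiff.1 h).1) hiso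
    have e2 : ∑ D ∈ ((I G H).image (insert x)).filter (Av Y), P G l (insert x H \ D)
        = ∑ D ∈ (I G H).filter (Av Y), P G l (H \ D) := by
      symm
      refine Finset.sum_nbij' (fun D => insert x D) (fun D => D.erase x) ?_ ?_ ?_ ?_ ?_
      · intro D hD
        rw [Finset.mem_filter] at hD ⊢
        refine ⟨Finset.mem_image_of_mem _ hD.1, ?_⟩
        intro y hy
        rcases Finset.mem_insert.1 hy with h | h
        · rw [h]; exact hxY
        · exact hD.2 y h
      · intro D hD
        rw [Finset.mem_filter, Finset.mem_image] at hD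
        obtain ⟨⟨D', hD', rfl⟩, h2⟩ := hD
        have hxD : x ∉ D' := fun h => hx ((mem_I.1 hD').1 h)
        rw [Finset.mem_filter, Finset.erase_insert hxD]
        exact ⟨hD', fun y hy => h2 y (Finset.mem_insert_of_mem hy)⟩
      · intro D hD
        rw [Finset.mem_filter, mem_I] at hD
        exact Finset.erase_insert (fun h => hx (hD.1.1 h))
      · intro D hD
        rw [Finset.mem_filter, Finset.mem_image] at hD
        obtain ⟨⟨D', hD', rfl⟩, h2⟩ := hD
        exact Finset.insert_erase (Finset.mem_insert_self _ _)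
      · intro D hD
        rw [Finset.mem_filter, mem_I] at hD
        congr 1
        ext y
        simp only [Finset.mem_sdiff, Finset.mem_insert]
        constructor
        · rintro ⟨h1, h2⟩
          refine ⟨Or.inr h1, ?_⟩
          rintro (h | h)
          · exact hx (h ▸ h1)
          · exact h2 h
        · rintro ⟨h1 | h1, h2⟩
          · exact absurd (Or.inl h1) h2
          · exact ⟨h1, fun h => h2 (Or.inr h)⟩
    rw [e1, e2]
    push_cast; ring
  · rw [Finset.disjoint_left]
    intro D h1 h2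
    rw [Finset.mem_filter, mem_I] at h1
    rw [Finset.mem_filter, Finset.mem_image] at h2
    obtain ⟨⟨D', _, rfl⟩, _⟩ := h2
    exact hx (h1.1.1 (Finset.mem_insert_self _ _))

lemma P_isols (k : ℕ) (W S : Finset V) (hd : Disjoint S W) (hiso : ∀ x ∈ S, ∀ y, ¬ G.Adj x y) :
    P G k (S ∪ W) = (k:ℝ) ^ S.card * P G k W := by
  induction S using Finset.induction_on with
  | empty => simp
  | insert x S hx ih =>
    have hd' : Disjoint S W := Finset.disjoint_of_subset_left (Finset.subset_insert _ _) hd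
    have hxW : x ∉ W := Finset.disjoint_left.1 hd (Finset.mem_insert_self _ _)
    rw [Finset.insert_union, P_isol k (S ∪ W) x (by
        rw [Finset.mem_union]; rintro (h | h); exacts [hx h, hxW h]) (hiso x (Finset.mem_insert_self _ _)),
      ih hd' (fun x hx => hiso x (Finset.mem_insert_of_mem hx)), Finset.card_insert_of_notMem hx, pow_succ]
    ring

lemma MM_isols (k : ℕ) (H S : Finset V) (Y : Set V) (hd : Disjoint S H) (hSY : ∀ x ∈ S, x ∉ Y)
    (hiso : ∀ x ∈ S, ∀ y, ¬ G.Adj x y) :
    MM G k (S ∪ H) Y = (k:ℝ) ^ S.card * MM G k H Y := by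
  induction S using Finset.induction_on with
  | empty => simp
  | insert x S hx ih =>
    have hd' : Disjoint S H := Finset.disjoint_of_subset_left (Finset.subset_insert _ _) hd
    have hxW : x ∉ H := Finset.disjoint_left.1 hd (Finset.mem_insert_self _ _)
    rw [Finset.insert_union, MM_isol k (S ∪ H) Y x (by
        rw [Finset.mem_union]; rintro (h | h); exacts [hx h, hxW h]) (hSY x (Finset.mem_insert_self _ _))
        (hiso x (Finset.mem_insert_self _ _)),
      ih hd' (fun x hx => hSY x (Finset.mem_insert_of_mem hx)) (fun x hx => hiso x (Finset.mem_insert_of_mem hx)),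
      Finset.card_insert_of_notMem hx, pow_succ]
    ring

/-- the number of colourings of `G \ uv` with equal colours at `u`, `v` -/
lemma M_eq_MM [Fintype V] (u v : V) (huv : G.Adj u v) (k : ℕ) :
    M G u v k = MM G k ((Finset.univ.erase u).erase v) (G.neighborSet u ∪ G.neighborSet v) := by
  unfold M MM
  congr 1
  have hne : v ≠ u := fun e => G.irrefl (e ▸ huv)
  refine Finset.sum_nbij' (fun S => S.erase v) (fun D => insert v D) ?_ ?_ ?_ ?_ ?_
  · intro S hS
    rw [Finset.mem_filter, mem_I] at hS ⊢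
    obtain ⟨⟨h1, h2⟩, h3⟩ := hS
    have hvS : v ∈ S := by
      have : v ∈ S ∩ nb G u := by rw [h3]; simp
      exact (Finset.mem_inter.1 this).1
    refine ⟨⟨Finset.erase_subset_erase _ h1, h2.mono (Finset.erase_subset _ _)⟩, ?_⟩
    intro y hy
    rw [Finset.mem_erase] at hy
    rintro (h | h)
    · have : y ∈ S ∩ nb G u := Finset.mem_inter.2 ⟨hy.2, mem_nb.2 h⟩
      rw [h3, Finset.mem_singleton] at this
      exact hy.1 this
    · exact h2 v hvS y hy.2 h
  · intro D hD
    rw [Finset.mem_filter, mem_I] at hD ⊢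
    obtain ⟨⟨h1, h2⟩, h3⟩ := hD
    refine ⟨⟨?_, ?_⟩, ?_⟩
    · intro y hy
      rcases Finset.mem_insert.1 hy with h | h
      · rw [h]; exact Finset.mem_erase.2 ⟨hne, Finset.mem_univ _⟩
      · exact Finset.mem_of_mem_erase (h1 h)
    · intro a ha b hb
      rcases Finset.mem_insert.1 ha with h | h
      · rcases Finset.mem_insert.1 hb with h' | h'
        · rw [h, h']; exact G.irrefl
        · rw [h]; exact fun hh => h3 b h' (Or.inr hh)
      · rcases Finset.mem_insert.1 hb with h' | h'
        · rw [h']; exact fun hh => h3 a h (Or.inr hh.symm)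
        · exact h2 a h b h'
    · ext y
      rw [Finset.mem_inter, Finset.mem_singleton, mem_nb, Finset.mem_insert]
      constructor
      · rintro ⟨h | h, h'⟩
        · exact h
        · exact absurd (Or.inl h') (h3 y h)
      · rintro rfl; exact ⟨Or.inl rfl, huv⟩
  · intro S hS
    rw [Finset.mem_filter] at hS
    have : v ∈ S ∩ nb G u := by rw [hS.2]; simp
    exact Finset.insert_erase (Finset.mem_inter.1 this).1
  · intro D hD
    rw [Finset.mem_filter, mem_I] at hD
    exact Finset.erase_insert (fun h => (Finset.mem_erase.1 (hD.1.1 h)).1 rfl)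
  · intro S hS
    rw [Finset.mem_filter] at hS
    have hvS : v ∈ S ∩ nb G u := by rw [hS.2]; simp
    have hvS := (Finset.mem_inter.1 hvS).1
    congr 1
    ext y
    simp only [Finset.mem_sdiff, Finset.mem_erase]
    constructor
    · rintro ⟨h1, h2⟩
      have hyv : y ≠ v := by rintro rfl; exact h2 hvS
      exact ⟨⟨hyv, h1⟩, fun h => h2 h.2⟩
    · rintro ⟨⟨h1, h2⟩, h3⟩
      exact ⟨h2, fun h => h3 ⟨h1, h⟩⟩

lemma MM_pos (k : ℕ) (H : Finset V) (Y : Set V) (hc : H.card + 1 ≤ k) : 0 < MM G k H Y := by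
  unfold MM
  have hk : (0:ℝ) < k := by exact_mod_cast (by omega : 0 < k)
  refine mul_pos hk ?_
  have h1 : (∅ : Finset V) ∈ (I G H).filter (Av Y) :=
    Finset.mem_filter.2 ⟨empty_mem_I H, by intro y hy; simp at hy⟩
  refine lt_of_lt_of_le ?_ (Finset.single_le_sum (f := fun D => P G (k-1) (H \ D)) (fun D _ => P_nonneg _ _) h1)
  simp only [Finset.sdiff_empty]
  exact P_pos _ _ (by omega)

/-- the conditional mean of `J` in terms of the numbers of colourings of the contracted graph -/
lemma cnd_J (k : ℕ) (H : Finset V) (Y : Set V) (hc : H.card + 2 ≤ k) :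
    ED G k H (fun D => fr Y D * J G (k-1) (H \ D)) / ED G k H (fr Y) * MM G k H Y = k * MM G (k-1) H Y := by
  have hk : (0:ℝ) < k := by exact_mod_cast (by omega : 0 < k)
  have hP : 0 < P G k H := P_pos _ _ (by omega)
  have hMM := MM_pos (G := G) k H Y (by omega)
  have e1 : ∀ φ : Finset V → ℝ, ED G k H (fun D => fr Y D * φ D)
      = (∑ D ∈ (I G H).filter (Av Y), P G (k-1) (H \ D) * φ D) / P G k H := by
    intro φ
    unfold ED
    congr 1
    rw [Finset.sum_filter]
    refine Finset.sum_congr rfl (fun D _ => ?_)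
    unfold fr
    beta_reduce
    by_cases h : ∀ y ∈ D, y ∉ Y
    · rw [if_pos h, if_pos (show Av Y D from h)]; ring
    · rw [if_neg h, if_neg (show ¬ Av Y D from h)]; ring
  have e2 : ED G k H (fr Y)
      = (∑ D ∈ (I G H).filter (Av Y), P G (k-1) (H \ D)) / P G k H := by
    have := e1 (fun _ => 1)
    simpa using this
  have e3 : ∑ D ∈ (I G H).filter (Av Y), P G (k-1) (H \ D) * J G (k-1) (H \ D)
      = MM G (k-1) H Y := by
    unfold MM
    rw [Finset.mul_sum]
    refine Finset.sum_congr rfl (fun D _ => ?_)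
    rw [mul_comm, J_mul (G := G) (k-1) (H \ D) (by
      have := Finset.card_le_card (Finset.sdiff_subset (s := H) (t := D)); omega)]
  have e4 : MM G k H Y = k * ∑ D ∈ (I G H).filter (Av Y), P G (k-1) (H \ D) := rfl
  rw [e1, e2, e3]
  rw [e4] at hMM ⊢
  have hs : 0 < ∑ D ∈ (I G H).filter (Av Y), P G (k-1) (H \ D) :=
    pos_of_mul_pos_right hMM hk.le
  field_simp

lemma J_ge_sub (k : ℕ) (W : Finset V) (hc : W.card ≤ k) : (k:ℝ) - W.card ≤ J G k W := by
  have h := J_chain (G := G) k W ∅ (by simp) hc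
  simp only [Finset.sdiff_empty] at h
  have e : J G (k - W.card) (∅ : Finset V) = ((k - W.card : ℕ) : ℝ) := by
    unfold J; rw [P_empty, P_empty]; simp
  rw [e, Nat.cast_sub hc] at h
  exact h

/-- The statement for all graphs of large order follows from the two cases. -/
theorem final_of
    (high : ∃ M : ℝ, ∀ {V : Type} (G : SimpleGraph V) (k : ℕ) (W : Finset V), W.card ≤ k → M ≤ J G k W →
      W.Nonempty → (∀ v ∈ W, ∃ w ∈ W, G.Adj v w) →
      ∃ u ∈ W, ∃ v ∈ W, G.Adj u v ∧
        J G k W ≤ ED G k ((W.erase u).erase v) (fun D => fr (G.neighborSet u ∪ G.neighborSet v) D *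
          J G (k-1) (((W.erase u).erase v) \ D)) / ED G k ((W.erase u).erase v) (fr (G.neighborSet u ∪ G.neighborSet v)))
    (low : ∀ M : ℝ, ∃ N : ℕ, ∀ {V : Type} (G : SimpleGraph V) (k : ℕ) (W : Finset V),
      W.card ≤ k → N ≤ W.card → J G k W ≤ M →
      ∃ u ∈ W, ∃ v ∈ W, G.Adj u v ∧ ∀ w ∈ W, w ≠ u → w ≠ v → (G.Adj u w ↔ G.Adj v w)) :
    ∃ N : ℕ, ∀ (V : Type) [Fintype V] (G : SimpleGraph V), N ≤ Fintype.card V →
    G.edgeSet.Nonempty → ∃ e ∈ G.edgeSet, Good G e := by
  obtain ⟨M0, hM0⟩ := high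
  obtain ⟨N1, hN1⟩ := low M0
  obtain ⟨N2, hN2⟩ := exists_nat_ge M0
  refine ⟨N1 + N2, ?_⟩
  intro V _ G hN hE
  set n := Fintype.card V with hn
  set W0 : Finset V := Finset.univ.filter (fun v => ∃ w, G.Adj v w) with hW0
  set S0 : Finset V := Finset.univ.filter (fun v => ¬ ∃ w, G.Adj v w) with hS0
  have hmem : ∀ v, v ∈ W0 ↔ ∃ w, G.Adj v w := fun v => by simp [hW0]
  have hmemS : ∀ v, v ∈ S0 ↔ ∀ w, ¬ G.Adj v w := fun v => by simp [hS0]
  have hcW : W0.card ≤ n := by rw [hn, ← Finset.card_univ]; exact Finset.card_le_univ _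
  have hdisj : Disjoint S0 W0 := by
    rw [Finset.disjoint_left]; intro x h1 h2
    obtain ⟨w, hw⟩ := (hmem x).1 h2
    exact (hmemS x).1 h1 w hw
  have hunion : S0 ∪ W0 = Finset.univ := by
    ext x; simp only [Finset.mem_union, Finset.mem_univ, iff_true]
    by_cases h : ∃ w, G.Adj x w
    · exact Or.inr ((hmem x).2 h)
    · exact Or.inl ((hmemS x).2 (fun w hw => h ⟨w, hw⟩))
  have hisoS : ∀ x ∈ S0, ∀ y, ¬ G.Adj x y := fun x hx => (hmemS x).1 hx
  rcases le_or_gt (J G n W0) M0 with hlow | hhigh
  · -- few unused colours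
    have h1 : N1 ≤ W0.card := by
      have h2 := J_ge_sub (G := G) n W0 hcW
      have h3 : (n:ℝ) ≤ W0.card + N2 := by linarith
      have h4 : n ≤ W0.card + N2 := by exact_mod_cast h3
      omega
    obtain ⟨u, hu, v, hv, huv, htw⟩ := hN1 G n W0 hcW h1 hlow
    refine ⟨s(u,v), by simpa using huv, ?_⟩
    refine good_dominated u v huv ?_
    intro w hwv huw
    have hwW : w ∈ W0 := (hmem w).2 ⟨u, huw.symm⟩
    have hwu : w ≠ u := fun e => G.irrefl (e ▸ huw)
    exact (htw w hwW hwu hwv).1 huw
  · -- many unused colours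
    have hne : W0.Nonempty := by
      obtain ⟨e, he⟩ := hE
      induction e with
      | _ x y =>
        have hxy : G.Adj x y := by simpa using he
        exact ⟨x, (hmem x).2 ⟨y, hxy⟩⟩
    obtain ⟨u, hu, v, hv, huv, hJ⟩ := hM0 G n W0 hcW hhigh.le hne (by
      intro v hv
      obtain ⟨w, hw⟩ := (hmem v).1 hv
      exact ⟨w, (hmem w).2 ⟨v, hw.symm⟩, hw⟩)
    refine ⟨s(u,v), by simpa using huv, ?_⟩
    apply good_of u v huv
    rw [← hn]
    set H := (W0.erase u).erase v with hH
    set Y : Set V := G.neighborSet u ∪ G.neighborSet v with hY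
    have hvu : v ≠ u := fun e => G.irrefl (e ▸ huv)
    have hcH : H.card + 2 = W0.card := by
      rw [hH, Finset.card_erase_of_mem (Finset.mem_erase.2 ⟨hvu, hv⟩), Finset.card_erase_of_mem hu]
      have : 2 ≤ W0.card := by
        have h2 : ({u, v} : Finset V) ⊆ W0 := by
          intro x hx; rw [Finset.mem_insert, Finset.mem_singleton] at hx
          rcases hx with rfl | rfl
          · exact hu
          · exact hv
        have := Finset.card_le_card h2
        rwa [Finset.card_pair hvu.symm] at this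
      omega
    have hn2 : H.card + 2 ≤ n := by omega
    have hSY : ∀ x ∈ S0, x ∉ Y := by
      intro x hx
      rw [hY]
      rintro (h | h)
      · exact hisoS x hx u (SimpleGraph.Adj.symm h)
      · exact hisoS x hx v (SimpleGraph.Adj.symm h)
    have hdH : Disjoint S0 H := Finset.disjoint_of_subset_right
      ((Finset.erase_subset _ _).trans (Finset.erase_subset _ _)) hdisj
    have hunH : S0 ∪ H = (Finset.univ.erase u).erase v := by
      ext x
      simp only [hH, Finset.mem_union, Finset.mem_erase, Finset.mem_univ, and_true]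
      constructor
      · rintro (h | ⟨h1, h2, h3⟩)
        · refine ⟨?_, ?_⟩
          · rintro rfl; exact Finset.disjoint_left.1 hdisj h hv
          · rintro rfl; exact Finset.disjoint_left.1 hdisj h hu
        · exact ⟨h1, h2⟩
      · rintro ⟨h1, h2⟩
        have : x ∈ S0 ∪ W0 := by rw [hunion]; exact Finset.mem_univ _
        rcases Finset.mem_union.1 this with h | h
        · exact Or.inl h
        · exact Or.inr ⟨h1, h2, h⟩
    have eP : ∀ k : ℕ, P G k Finset.univ = (k:ℝ) ^ S0.card * P G k W0 := by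
      intro k; rw [← hunion]; exact P_isols k W0 S0 hdisj hisoS
    have eM : ∀ k : ℕ, M G u v k = (k:ℝ) ^ S0.card * MM G k H Y := by
      intro k; rw [M_eq_MM u v huv k, ← hunH]; exact MM_isols k H S0 Y hdH hSY hisoS
    rw [eP, eP, eM, eM]
    have hcnd := cnd_J (G := G) n H Y hn2
    have hMMp := MM_pos (G := G) n H Y (by omega)
    have hPp : 0 < P G n W0 := P_pos _ _ hcW
    have hnp : (0:ℝ) < n := by exact_mod_cast (by omega : 0 < n)
    have hJm := J_mul (G := G) n W0 hcW
    -- J * MM n <= n MM (n-1)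
    have h1 : J G n W0 * MM G n H Y ≤ n * MM G (n-1) H Y := by
      rw [← hcnd]; exact mul_le_mul_of_nonneg_right hJ hMMp.le
    have h2 : (n:ℝ) * (P G (n-1) W0 * MM G n H Y) ≤ n * (MM G (n-1) H Y * P G n W0) := by
      calc (n:ℝ) * (P G (n-1) W0 * MM G n H Y) = (J G n W0 * P G n W0) * MM G n H Y := by rw [hJm]; ring
        _ = (J G n W0 * MM G n H Y) * P G n W0 := by ring
        _ ≤ (n * MM G (n-1) H Y) * P G n W0 := mul_le_mul_of_nonneg_right h1 hPp.le
        _ = n * (MM G (n-1) H Y * P G n W0) := by ring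
    have h3 : P G (n-1) W0 * MM G n H Y ≤ MM G (n-1) H Y * P G n W0 := le_of_mul_le_mul_left h2 hnp
    have h4 : (0:ℝ) ≤ ((n-1 : ℕ):ℝ) ^ S0.card * (n:ℝ) ^ S0.card := by positivity
    calc ((n-1 : ℕ):ℝ) ^ S0.card * P G (n-1) W0 * ((n:ℝ) ^ S0.card * MM G n H Y)
        = (((n-1 : ℕ):ℝ) ^ S0.card * (n:ℝ) ^ S0.card) * (P G (n-1) W0 * MM G n H Y) := by ring
      _ ≤ (((n-1 : ℕ):ℝ) ^ S0.card * (n:ℝ) ^ S0.card) * (MM G (n-1) H Y * P G n W0) :=
        mul_le_mul_of_nonneg_left h3 h4
      _ = ((n-1 : ℕ):ℝ) ^ S0.card * MM G (n-1) H Y * ((n:ℝ) ^ S0.card * P G n W0) := by ring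

end

end Helper87.BWL
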