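import Mathlib
import Pool.Agent.Helper87.BW.Mom

set_option autoImplicit false

/-!
Bounded influences: the covariance of the numbers of colours missing on two sets.
-/

namespace Helper87.BWL

open Finset Classical Helper53.BW

noncomputable section

variable {V : Type*} {G : SimpleGraph V}

lemma ED_abs_le (k : ℕ) (W : Finset V) (φ χ : Finset V → ℝ) (h : ∀ D ∈ I G W, |φ D| ≤ χ D) :
    |ED G k W φ| ≤ ED G k W χ := by
  rw [abs_le]
  constructor
  · have h1 : ED G k W (fun D => (-1) * χ D) ≤ ED G k W φ :=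
      ED_mono k W _ _ (fun D hD => by have := (abs_le.1 (h D hD)).1; linarith)
    rw [ED_mul_left] at h1; linarith
  · exact ED_mono k W _ _ (fun D hD => (abs_le.1 (h D hD)).2)

lemma ED_neg (k : ℕ) (W : Finset V) (φ : Finset V → ℝ) : ED G k W (fun D => - φ D) = - ED G k W φ := by
  have := ED_mul_left (G := G) k W (-1) φ
  simpa using this

lemma mem_I_erase {W D : Finset V} (hD : D ∈ I G W) (v : V) : D.erase v ∈ I G W := by
  rw [mem_I] at hD ⊢
  exact ⟨(Finset.erase_subset _ _).trans hD.1, hD.2.mono (Finset.erase_subset _ _)⟩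

lemma mem_I_subset {W D C : Finset V} (hD : D ∈ I G W) (h : C ⊆ D) : C ∈ I G W := by
  rw [mem_I] at hD ⊢
  exact ⟨h.trans hD.1, hD.2.mono h⟩

/-- removing a set costs at most `L` per vertex -/
lemma lip_subset (W : Finset V) (ψ : Finset V → ℝ) (L : ℝ)
    (hlip : ∀ D : Finset V, ∀ v : V, v ∉ D → insert v D ∈ I G W → |ψ (insert v D) - ψ D| ≤ L)
    (C D : Finset V) (hCD : C ⊆ D) (hD : D ∈ I G W) : |ψ D - ψ C| ≤ L * ((D \ C).card : ℝ) := by
  induction hn : (D \ C).card generalizing D with
  | zero =>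
    have : D = C := by
      have h1 := Finset.card_eq_zero.1 hn
      exact Finset.Subset.antisymm (Finset.sdiff_eq_empty_iff_subset.1 h1) hCD
    subst this; simp
  | succ n ih =>
    have hne : (D \ C).Nonempty := Finset.card_pos.1 (by omega)
    obtain ⟨v, hv⟩ := hne
    rw [Finset.mem_sdiff] at hv
    have hD' : D.erase v ∈ I G W := mem_I_erase hD v
    have hCD' : C ⊆ D.erase v := fun x hx => Finset.mem_erase.2 ⟨fun h => hv.2 (h ▸ hx), hCD hx⟩
    have e : D.erase v \ C = (D \ C).erase v := by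
      ext x; simp only [Finset.mem_sdiff, Finset.mem_erase]; tauto
    have hcard : (D.erase v \ C).card = n := by
      rw [e, Finset.card_erase_of_mem (Finset.mem_sdiff.2 hv)]; omega
    have h1 := ih (D.erase v) hCD' hD' hcard
    have h2 := hlip (D.erase v) v (Finset.notMem_erase _ _) (by rw [Finset.insert_erase hv.1]; exact hD)
    rw [Finset.insert_erase hv.1] at h2
    have h3 : ψ D - ψ C = (ψ D - ψ (D.erase v)) + (ψ (D.erase v) - ψ C) := by ring
    rw [h3]
    refine (abs_add_le _ _).trans ?_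
    push_cast
    linarith

/-- `|ψ D| ≤ L |D|` for nonempty classes -/
lemma contraction_aux (k : ℕ) (W : Finset V) (hc : W.card + 1 ≤ k) (ψ : Finset V → ℝ) (L : ℝ) (hL : 0 ≤ L)
    (hlip : ∀ D : Finset V, ∀ v : V, v ∉ D → insert v D ∈ I G W → |ψ (insert v D) - ψ D| ≤ L)
    (hv : ∀ v ∈ W, ED G k W (fun D => nv v D * ψ D) = 0) (D : Finset V) (hD : D ∈ I G W) (hne : D.Nonempty) :
    |ψ D| ≤ L * cd D := by
  obtain ⟨v, hvD⟩ := hne
  have hvW : v ∈ W := (mem_I.1 hD).1 hvD
  have hk : (0:ℝ) < k := by exact_mod_cast (by omega : 0 < k)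
  have hcl := mom_class (G := G) k W (by omega) (by omega) v
  have hnv := ED_nv (G := G) k W (by omega) v hvW
  -- `ψ D / k = ED (nv v * (ψ D - ψ C))`
  have h1 : ED G k W (fun C => nv v C * (ψ D - ψ C)) = ψ D * (1 / k) := by
    have e : (fun C => nv v C * (ψ D - ψ C)) = fun C => ψ D * nv v C - nv v C * ψ C := by
      funext C; ring
    rw [e, ED_sub, ED_mul_left, hv v hvW, hnv, sub_zero]
  have h2 : |ED G k W (fun C => nv v C * (ψ D - ψ C))|
      ≤ ED G k W (fun C => L * (nv v C * (cd D - 1)) + L * (nv v C * (cd C - 1))) := by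
    refine ED_abs_le k W _ _ (fun C hC => ?_)
    unfold nv
    split_ifs with hvC
    · simp only [one_mul]
      have h3 := lip_subset W ψ L hlip (D ∩ C) D Finset.inter_subset_left hD
      have h4 := lip_subset W ψ L hlip (D ∩ C) C Finset.inter_subset_right hC
      have h5 : ((D \ (D ∩ C)).card : ℝ) ≤ cd D - 1 := by
        have h6 : (D \ (D ∩ C)).card + 1 ≤ D.card := by
          refine Finset.card_lt_card ?_
          refine (Finset.ssubset_iff_of_subset Finset.sdiff_subset).2 ⟨v, hvD, ?_⟩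
          intro h; exact (Finset.mem_sdiff.1 h).2 (Finset.mem_inter.2 ⟨hvD, hvC⟩)
        unfold cd
        have : ((D \ (D ∩ C)).card : ℝ) + 1 ≤ (D.card : ℝ) := by exact_mod_cast h6
        linarith
      have h7 : ((C \ (D ∩ C)).card : ℝ) ≤ cd C - 1 := by
        have h6 : (C \ (D ∩ C)).card + 1 ≤ C.card := by
          refine Finset.card_lt_card ?_
          refine (Finset.ssubset_iff_of_subset Finset.sdiff_subset).2 ⟨v, hvC, ?_⟩
          intro h; exact (Finset.mem_sdiff.1 h).2 (Finset.mem_inter.2 ⟨hvD, hvC⟩)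
        unfold cd
        have : ((C \ (D ∩ C)).card : ℝ) + 1 ≤ (C.card : ℝ) := by exact_mod_cast h6
        linarith
      have h8 : ψ D - ψ C = (ψ D - ψ (D ∩ C)) - (ψ C - ψ (D ∩ C)) := by ring
      rw [h8]
      refine (abs_sub _ _).trans ?_
      exact add_le_add (h3.trans (mul_le_mul_of_nonneg_left h5 hL)) (h4.trans (mul_le_mul_of_nonneg_left h7 hL))
    · simp
  rw [ED_add, ED_mul_left, ED_mul_left] at h2
  have h3 : ED G k W (fun C => nv v C * (cd D - 1)) = (cd D - 1) * (1 / k) := by
    have e : (fun C => nv v C * (cd D - 1)) = fun C => (cd D - 1) * nv v C := by funext C; ring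
    rw [e, ED_mul_left, hnv]
  rw [h3, h1] at h2
  rw [hnv] at hcl
  have h4 : |ψ D| * (1 / k) ≤ L * cd D * (1 / k) := by
    have h5 : |ψ D * (1 / k)| = |ψ D| * (1 / k) := by
      rw [abs_mul, abs_of_pos (by positivity : (0:ℝ) < 1 / k)]
    rw [h5] at h2
    have := mul_le_mul_of_nonneg_left hcl hL
    nlinarith
  exact le_of_mul_le_mul_right h4 (by positivity)

lemma contraction (k : ℕ) (W : Finset V) (hc : W.card + 1 ≤ k) (ψ : Finset V → ℝ) (L q : ℝ) (hL : 0 ≤ L)
    (hlip : ∀ D : Finset V, ∀ v : V, v ∉ D → insert v D ∈ I G W → |ψ (insert v D) - ψ D| ≤ L)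
    (h0 : ED G k W ψ = 0) (hv : ∀ v ∈ W, ED G k W (fun D => nv v D * ψ D) = 0) (hq : |ψ ∅| ≤ q) (Y : Set V) :
    |ED G k W (fun D => ψ D * fr Y D)| ≤ 4 / 5 * (q + L) * ED G k W (fr Y) := by
  have hq0 : 0 ≤ q := (abs_nonneg _).trans hq
  have hpsi := contraction_aux (G := G) k W hc ψ L hL hlip hv
  have hD0 : ∀ D : Finset V, D ∈ I G W → D ≠ ∅ → |ψ D| ≤ L * cd D := fun D hD hne =>
    hpsi D hD (Finset.nonempty_iff_ne_empty.2 hne)
  -- (a)
  have ha : |ED G k W (fun D => ψ D * fr Y D)| ≤ q * ED G k W (fr Y) + L * (ED G k W (fr Y) - ED G k W (xi Y)) := by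
    have h1 : |ED G k W (fun D => ψ D * fr Y D)| ≤ ED G k W (fun D => q * fr Y D + L * (cd D * fr Y D)) := by
      refine ED_abs_le k W _ _ (fun D hD => ?_)
      rw [abs_mul, abs_of_nonneg (fr_nonneg Y D)]
      have h2 : |ψ D| ≤ q + L * cd D := by
        by_cases h : D = ∅
        · subst h
          have : (0:ℝ) ≤ L * cd (∅ : Finset V) := mul_nonneg hL (cd_nonneg _)
          linarith
        · linarith [hD0 D hD h]
      nlinarith [mul_le_mul_of_nonneg_right h2 (fr_nonneg Y D)]
    rw [ED_add, ED_mul_left, ED_mul_left] at h1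
    have h3 := mul_le_mul_of_nonneg_left (mom_free (G := G) k W (by omega) (by omega) Y) hL
    linarith
  -- (b)
  have hb : |ED G k W (fun D => ψ D * fr Y D)| ≤ 4 * L * ED G k W (xi Y) := by
    have e1 : ED G k W (fun D => ψ D * fr Y D) = ED G k W (fun D => ψ D * xi Y D) := by
      have e2 : ED G k W (fun D => ψ D * fr Y D)
          = ED G k W (fun D => (ψ D - ∑ v ∈ W.filter (fun v => v ∈ Y), nv v D * ψ D) + ψ D * xi Y D) := by
        refine ED_congr k W _ _ (fun D hD => ?_)
        rw [fr_eq, ci_eq_sum Y hD, ← Finset.sum_mul]; ring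
      rw [e2, ED_add, ED_sub, h0, ED_sum, Finset.sum_eq_zero, sub_zero, zero_add]
      intro v hv'
      exact hv v (Finset.mem_filter.1 hv').1
    rw [e1]
    have h1 : |ED G k W (fun D => ψ D * xi Y D)| ≤ ED G k W (fun D => L * (xi Y D * cd D)) := by
      refine ED_abs_le k W _ _ (fun D hD => ?_)
      rw [abs_mul, abs_of_nonneg (xi_nonneg Y D)]
      by_cases h : D = ∅
      · subst h
        have : xi Y (∅ : Finset V) = 0 := by rw [xi_eq]; simp
        rw [this]; simp
      · nlinarith [mul_le_mul_of_nonneg_right (hD0 D hD h) (xi_nonneg Y D)]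
    rw [ED_mul_left] at h1
    have h3 := mul_le_mul_of_nonneg_left (mom_xi_cd (G := G) k W (by omega) (by omega) Y) hL
    linarith
  have h5 : 4 / 5 * |ED G k W (fun D => ψ D * fr Y D)| + 1 / 5 * |ED G k W (fun D => ψ D * fr Y D)|
      ≤ 4 / 5 * (q * ED G k W (fr Y) + L * (ED G k W (fr Y) - ED G k W (xi Y))) + 1 / 5 * (4 * L * ED G k W (xi Y)) := by
    linarith
  linarith

/-! ### the influence of a colour -/

lemma psi_em (k : ℕ) (W D : Finset V) :
    psi G k W em D = em D + J G (k-1) (W \ D) - J G k W := by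
  unfold psi; rw [J_eq_a, J_eq_a]

lemma J_empty (k : ℕ) : J G k (∅ : Finset V) = k := by
  unfold J; rw [P_empty, P_empty]; simp

lemma J_colour (k : ℕ) (W : Finset V) (hc : W.card ≤ k) : J G k W ≤ J G (k+1) W := by
  rcases Finset.eq_empty_or_nonempty W with rfl | ⟨y, hy⟩
  · rw [J_empty, J_empty]; push_cast; linarith
  · exact (J_anti k (W.erase y) W (Finset.erase_subset _ _) hc).trans (J_up k W y hy (by omega))

/-- union bound -/
lemma cov_em_le (k : ℕ) (W : Finset V) (hc : W.card + 1 ≤ k) (X : Set V) :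
    ED G k W (fun D => fr X D * psi G k W em D) ≤ ED G k W em := by
  obtain ⟨l, rfl⟩ : ∃ l, k = l + 1 := ⟨k-1, by omega⟩
  have hWl : W.card ≤ l := by omega
  set Γ := J G (l+1) W - J G l W with hΓ
  have hΓ0 : 0 ≤ Γ := by have := J_colour (G := G) l W hWl; rw [hΓ]; linarith
  let m : Finset V → ℝ := fun D => J G l (W \ D) - J G l W
  have hm0 : ∀ D, 0 ≤ m D := fun D => by
    have := J_anti (G := G) l (W \ D) W Finset.sdiff_subset hWl
    simp only [m]; linarith
  have hme : m ∅ = 0 := by simp [m]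
  have hpsi : ∀ D, psi G (l+1) W em D = em D + m D - Γ := by
    intro D; rw [psi_em]; simp only [Nat.add_sub_cancel, m, hΓ]; ring
  have hk : (0:ℝ) < ((l+1 : ℕ) : ℝ) := by positivity
  -- each vertex
  have hvx : ∀ v ∈ W, ED G (l+1) W (fun D => nv v D * m D) = Γ * (1 / ((l+1 : ℕ) : ℝ)) := by
    intro v hv
    have h1 := ED_nv_psi (G := G) (l+1) W (by omega) em v hv
    have e : (fun D => nv v D * psi G (l+1) W em D) = fun D => nv v D * m D - Γ * nv v D := by
      funext D; rw [hpsi]
      have : nv v D * em D = 0 := by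
        unfold nv em
        split_ifs with h2 h3
        · subst h3; simp at h2
        all_goals simp
      linear_combination this
    rw [e, ED_sub, ED_mul_left, ED_nv (l+1) W (by omega) v hv] at h1
    linarith
  have e1 : ED G (l+1) W (fun D => fr X D * psi G (l+1) W em D)
      = ED G (l+1) W em + ED G (l+1) W (fun D => fr X D * m D) - Γ * ED G (l+1) W (fr X) := by
    rw [← ED_add, ← ED_mul_left, ← ED_sub]
    refine ED_congr _ W _ _ (fun D _ => ?_)
    rw [hpsi]
    have : fr X D * em D = em D := by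
      unfold fr em
      split_ifs with h1 h2 h2
      · simp
      · simp
      · subst h2; simp at h1
      · simp
    linear_combination this
  have h2 : ED G (l+1) W (fun D => fr X D * m D)
      ≤ ED G (l+1) W (fun D => ∑ v ∈ W.filter (fun v => v ∉ X), nv v D * m D) := by
    refine ED_mono _ W _ _ (fun D hD => ?_)
    rw [← Finset.sum_mul]
    have hs : (0:ℝ) ≤ ∑ v ∈ W.filter (fun v => v ∉ X), nv v D := Finset.sum_nonneg (fun v _ => nv_nonneg v D)
    by_cases h : ∀ y ∈ D, y ∉ X
    · have : fr X D = 1 := by unfold fr; rw [if_pos h]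
      rw [this, one_mul]
      rcases Finset.eq_empty_or_nonempty D with rfl | ⟨y, hy⟩
      · rw [hme]; simp
      · have hyW : y ∈ W.filter (fun v => v ∉ X) := Finset.mem_filter.2 ⟨(mem_I.1 hD).1 hy, h y hy⟩
        have h3 : nv y D ≤ ∑ v ∈ W.filter (fun v => v ∉ X), nv v D :=
          Finset.single_le_sum (f := fun v => nv v D) (fun v _ => nv_nonneg v D) hyW
        have h4 : nv y D = 1 := by unfold nv; rw [if_pos hy]
        rw [h4] at h3
        nlinarith [hm0 D]
    · have : fr X D = 0 := by unfold fr; rw [if_neg h]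
      rw [this, zero_mul]
      exact mul_nonneg hs (hm0 D)
  rw [ED_sum, Finset.sum_congr rfl (fun v hv => hvx v (Finset.mem_filter.1 hv).1), Finset.sum_const,
    nsmul_eq_mul] at h2
  have h3 : ((W.filter (fun v => v ∉ X)).card : ℝ) * (1 / ((l+1 : ℕ) : ℝ)) ≤ ED G (l+1) W (fr X) := by
    have h4 : ED G (l+1) W (fun D => 1 - ∑ v ∈ W.filter (fun v => v ∈ X), nv v D) ≤ ED G (l+1) W (fr X) := by
      refine ED_mono _ W _ _ (fun D hD => ?_)
      rw [fr_eq, ← ci_eq_sum X hD]
      linarith [xi_nonneg X D]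
    rw [ED_sub, ED_sum, ED_one _ W (by omega) (by omega),
      Finset.sum_congr rfl (fun v hv => ED_nv (l+1) W (by omega) v (Finset.mem_filter.1 hv).1),
      Finset.sum_const, nsmul_eq_mul] at h4
    have h5 : ((W.filter (fun v => v ∈ X)).card : ℝ) + ((W.filter (fun v => v ∉ X)).card : ℝ) = W.card := by
      have := Finset.card_filter_add_card_filter_not (s := W) (fun v => v ∈ X)
      exact_mod_cast this
    have h6 : (W.card : ℝ) ≤ ((l+1 : ℕ) : ℝ) := by exact_mod_cast (by omega : W.card ≤ l + 1)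
    refine le_trans ?_ h4
    rw [mul_one_div, mul_one_div, le_sub_iff_add_le, ← add_div, div_le_one hk]
    linarith
  rw [e1]
  have h7 := mul_le_mul_of_nonneg_left h3 hΓ0
  nlinarith

lemma psi_em_empty_nonneg (k : ℕ) (W : Finset V) (hc : W.card + 1 ≤ k) : 0 ≤ psi G k W em ∅ := by
  obtain ⟨l, rfl⟩ : ∃ l, k = l + 1 := ⟨k-1, by omega⟩
  rw [psi_em]
  have := J_succ_le (G := G) l W (by omega)
  simp only [Nat.add_sub_cancel, Finset.sdiff_empty]
  have h2 : em (∅ : Finset V) = 1 := by simp [em]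
  linarith

lemma psi_em_le (k : ℕ) (W : Finset V) (hc : W.card + 1 ≤ k) (D : Finset V) (hD : D ∈ I G W)
    (hne : D.Nonempty) : psi G k W em D ≤ cd D - 1 := by
  obtain ⟨l, rfl⟩ : ∃ l, k = l + 1 := ⟨k-1, by omega⟩
  rw [psi_em]
  have h1 := J_sdiff_le (G := G) l W D (mem_I.1 hD).1 hne (by omega)
  have h2 : em D = 0 := by unfold em; rw [if_neg (Finset.nonempty_iff_ne_empty.1 hne)]
  simp only [Nat.add_sub_cancel]
  unfold cd
  linarith

lemma cov_em_ge (k : ℕ) (W : Finset V) (hc : W.card + 1 ≤ k) (X : Set V) :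
    - 3 * ED G k W em ≤ ED G k W (fun D => fr X D * psi G k W em D) := by
  have h1k : 1 ≤ k := by omega
  have hck : W.card ≤ k := by omega
  have e1 : ED G k W (fun D => fr X D * psi G k W em D)
      = ED G k W (fun D => (1 - cd D + xi X D) * psi G k W em D) := by
    have e2 : ED G k W (fun D => fr X D * psi G k W em D)
        = ED G k W (fun D => (1 - cd D + xi X D) * psi G k W em D
          + ∑ v ∈ W.filter (fun v => v ∉ X), nv v D * psi G k W em D) := by
      refine ED_congr _ W _ _ (fun D hD => ?_)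
      rw [← Finset.sum_mul]
      have h2 : ∑ v ∈ W.filter (fun v => v ∉ X), nv v D = cd D - ci X D := by
        have := Finset.sum_filter_add_sum_filter_not W (fun v => v ∈ X) (fun v => nv v D)
        rw [cd_eq_sum hD, ci_eq_sum X hD]
        linarith
      rw [h2, fr_eq]; ring
    rw [e2, ED_add, ED_sum, Finset.sum_eq_zero, add_zero]
    intro v hv
    exact ED_nv_psi k W hck em v (Finset.mem_filter.1 hv).1
  rw [e1]
  have h2 : ED G k W (fun D => (-1) * (ci Set.univ D * (ci Set.univ D - 1)))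
      ≤ ED G k W (fun D => (1 - cd D + xi X D) * psi G k W em D) := by
    refine ED_mono _ W _ _ (fun D hD => ?_)
    rw [ci_univ]
    rcases Finset.eq_empty_or_nonempty D with rfl | hne
    · have h3 : xi X (∅ : Finset V) = 0 := by rw [xi_eq]; simp
      have h4 : cd (∅ : Finset V) = 0 := by simp [cd]
      rw [h3, h4]
      have := psi_em_empty_nonneg (G := G) k W hc
      linarith
    · have h3 := psi_em_le (G := G) k W hc D hD hne
      have h4 : xi X D ≤ cd D - 1 := by
        rw [xi_eq]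
        have h5 : (1:ℝ) ≤ cd D := by unfold cd; exact_mod_cast Finset.card_pos.2 hne
        split_ifs
        · linarith
        · linarith [ci_le_cd X D]
      have h5 := xi_nonneg X D
      have h6 : (1:ℝ) ≤ cd D := by unfold cd; exact_mod_cast Finset.card_pos.2 hne
      nlinarith [mul_nonneg (sub_nonneg.2 h4) (sub_nonneg.2 h3), mul_nonneg (sub_nonneg.2 h6) h5]
  rw [ED_mul_left] at h2
  have h3 := mom_ci (G := G) k W h1k hck Set.univ
  have h4 := mom_em (G := G) k W h1k hck
  have h5 : (W.card : ℝ) / k ≤ 1 := by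
    rw [div_le_one (by exact_mod_cast (by omega : 0 < k))]; exact_mod_cast hck
  linarith

lemma psi_empty_eq (k : ℕ) (W : Finset V) (hc : W.card + 1 ≤ k) (X : Set V) :
    psi G k W (fr X) ∅ * ED G k W em = ED G k W (fun D => fr X D * psi G k W em D) := by
  rw [psi_symm k W (by omega) (by omega) em (fr X), ← ED_mul_em]
  refine ED_congr _ W _ _ (fun D _ => by ring)

lemma psi_empty_le (k : ℕ) (W : Finset V) (hc : W.card + 1 ≤ k) (X : Set V) :
    psi G k W (fr X) ∅ ≤ 1 := by
  have h1 := psi_empty_eq (G := G) k W hc X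
  have h2 := cov_em_le (G := G) k W hc X
  have h3 := ED_em_pos (G := G) k W hc
  rw [← h1] at h2
  exact le_of_mul_le_mul_right (by linarith) h3

lemma psi_empty_ge (k : ℕ) (W : Finset V) (hc : W.card + 1 ≤ k) (X : Set V) :
    -4 ≤ psi G k W (fr X) ∅ := by
  have h1 := psi_empty_eq (G := G) k W hc X
  have h2 := cov_em_ge (G := G) k W hc X
  have h3 := ED_em_pos (G := G) k W hc
  rw [← h1] at h2
  have h4 : -3 ≤ psi G k W (fr X) ∅ := le_of_mul_le_mul_right h2 h3
  linarith

/-! ### the main bound -/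

/-- effect of a new vertex -/
lemma a_insert_sub (k : ℕ) (W : Finset V) (hc : W.card + 1 ≤ k) (v : V) (hv : v ∉ W) (X : Set V) :
    a G k (insert v W) (fr X) - a G k W (fr X)
      = ED G k W (fun D => psi G k W (fr X) D * fr (G.neighborSet v) D) / ED G k W (fr (G.neighborSet v))
        - (if v ∈ X then 1 else 0) * (ED G k W (fun D => fr X D * fr (G.neighborSet v) D)
          / ED G k W (fr (G.neighborSet v))) := by
  have hf := ED_fr_pos (G := G) k W hc (G.neighborSet v)
  rw [a_insert k W v hv hc (fr X), ← mul_div_assoc, ← sub_div, div_sub' hf.ne']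
  congr 1
  rw [← ED_mul_left, mul_comm, ← ED_mul_left, ← ED_sub, ← ED_sub]
  refine ED_congr _ W _ _ (fun D _ => ?_)
  rw [fr_insert]
  unfold psi
  split_ifs <;> ring

theorem thmL (k : ℕ) (W : Finset V) (hc : W.card + 1 ≤ k) (X Y : Set V) :
    |ED G k W (fun D => psi G k W (fr X) D * fr Y D)| ≤ 20 * ED G k W (fr Y) := by
  induction hn : W.card using Nat.strong_induction_on generalizing k W X Y with
  | _ n ih =>
  have h1k : 1 ≤ k := by omega
  have hck : W.card ≤ k := by omega
  have key := contraction (G := G) k W hc (psi G k W (fr X)) 21 4 (by norm_num) ?_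
    (ED_psi k W h1k hck _) (fun v hv => ED_nv_psi k W hck _ v hv)
    (abs_le.2 ⟨psi_empty_ge k W hc X, (psi_empty_le k W hc X).trans (by norm_num)⟩) Y
  · norm_num at key
    exact key
  -- Lipschitz property
  intro D v hvD hD
  have hvW : v ∈ W := (mem_I.1 hD).1 (Finset.mem_insert_self _ _)
  have hDW : D ∈ I G W := mem_I_subset hD (Finset.subset_insert _ _)
  set W' := W \ insert v D with hW'
  have e1 : W \ D = insert v W' := by
    ext x; rw [hW']; simp only [Finset.mem_sdiff, Finset.mem_insert]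
    constructor
    · rintro ⟨h1, h2⟩
      by_cases hx : x = v
      · exact Or.inl hx
      · exact Or.inr ⟨h1, by rintro (h | h); exacts [hx h, h2 h]⟩
    · rintro (rfl | ⟨h1, h2⟩)
      · exact ⟨hvW, hvD⟩
      · exact ⟨h1, fun h => h2 (Or.inr h)⟩
  have hvW' : v ∉ W' := by rw [hW']; simp
  have hcard : W'.card < W.card := by
    refine Finset.card_lt_card ((Finset.ssubset_iff_of_subset Finset.sdiff_subset).2 ⟨v, hvW, hvW'⟩)
  have hc' : W'.card + 1 ≤ k - 1 := by omega
  have ih' := ih W'.card (by omega) (k-1) W' hc' X (G.neighborSet v) rfl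
  have hf := ED_fr_pos (G := G) (k-1) W' hc' (G.neighborSet v)
  have h2 := a_insert_sub (G := G) (k-1) W' hc' v hvW' X
  set q := ED G (k-1) W' (fr (G.neighborSet v)) with hq
  set e := ED G (k-1) W' (fun D => psi G (k-1) W' (fr X) D * fr (G.neighborSet v) D) with he
  set t := ED G (k-1) W' (fun D => fr X D * fr (G.neighborSet v) D) with ht
  have he1 : |e / q| ≤ 20 := by
    rw [abs_div, abs_of_pos hf, div_le_iff₀ hf]; exact ih'
  have ht0 : 0 ≤ t / q := div_nonneg (ED_nonneg _ _ _ (fun D _ => mul_nonneg (fr_nonneg _ _) (fr_nonneg _ _))) hf.le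
  have ht1 : t / q ≤ 1 := by
    rw [div_le_one hf]
    refine ED_mono _ _ _ _ (fun D _ => ?_)
    nlinarith [fr_nonneg (G.neighborSet v) D, fr_le_one X D]
  have h3 : psi G k W (fr X) (insert v D) - psi G k W (fr X) D
      = (if v ∈ X then 0 else fr X D) - fr X D - (e / q - (if v ∈ X then 1 else 0) * (t / q)) := by
    unfold psi
    rw [fr_insert, ← hW', e1, ← h2]; ring
  rw [h3]
  have h4 := abs_le.1 he1
  have h5 := fr_nonneg X D
  have h6 := fr_le_one X D
  rw [abs_le]
  split_ifs with h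
  · constructor <;> linarith
  · constructor <;> linarith

lemma cov_le (k : ℕ) (W : Finset V) (hc : W.card + 1 ≤ k) (X Y : Set V) :
    |Ex G k W (fun m => sh (fr X) m * sh (fr Y) m) - a G k W (fr X) * a G k W (fr Y)|
      ≤ 20 * a G k W (fr Y) := by
  rw [cov_eq k W (by omega) (by omega), abs_mul, abs_of_nonneg (by positivity : (0:ℝ) ≤ (k:ℝ)), a_eq k W (fr Y)]
  have h1 := thmL (G := G) k W hc X Y
  have e : (fun D => fr Y D * psi G k W (fr X) D) = fun D => psi G k W (fr X) D * fr Y D := by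
    funext D; ring
  rw [e]
  have hk : (0:ℝ) ≤ k := by positivity
  nlinarith [mul_le_mul_of_nonneg_left h1 hk]

lemma a_lip (k : ℕ) (W : Finset V) (hc : W.card + 1 ≤ k) (v : V) (hv : v ∉ W) (X : Set V) :
    |a G k (insert v W) (fr X) - a G k W (fr X)| ≤ 21 := by
  rw [a_insert_sub k W hc v hv X]
  have hf := ED_fr_pos (G := G) k W hc (G.neighborSet v)
  have h1 := thmL (G := G) k W hc X (G.neighborSet v)
  have h2 : |ED G k W (fun D => psi G k W (fr X) D * fr (G.neighborSet v) D) / ED G k W (fr (G.neighborSet v))| ≤ 20 := by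
    rw [abs_div, abs_of_pos hf, div_le_iff₀ hf]; exact h1
  have h3 : 0 ≤ ED G k W (fun D => fr X D * fr (G.neighborSet v) D) / ED G k W (fr (G.neighborSet v)) :=
    div_nonneg (ED_nonneg _ _ _ (fun D _ => mul_nonneg (fr_nonneg _ _) (fr_nonneg _ _))) hf.le
  have h4 : ED G k W (fun D => fr X D * fr (G.neighborSet v) D) / ED G k W (fr (G.neighborSet v)) ≤ 1 := by
    rw [div_le_one hf]
    refine ED_mono _ _ _ _ (fun D _ => ?_)
    nlinarith [fr_nonneg (G.neighborSet v) D, fr_le_one X D]
  have h5 := abs_le.1 h2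
  rw [abs_le]
  split_ifs
  · constructor <;> linarith
  · constructor <;> linarith

/-- `a_k - a_{k-1} = 1 - psi ∅` -/
lemma a_colour (k : ℕ) (W : Finset V) (hc : W.card + 1 ≤ k) (X : Set V) :
    0 ≤ a G k W (fr X) - a G (k-1) W (fr X) ∧ a G k W (fr X) - a G (k-1) W (fr X) ≤ 5 := by
  have h1 := psi_empty_le (G := G) k W hc X
  have h2 := psi_empty_ge (G := G) k W hc X
  unfold psi at h1 h2
  rw [Finset.sdiff_empty, fr_empty] at h1 h2
  constructor <;> linarith

lemma J_le_a (k : ℕ) (W : Finset V) (X : Set V) : J G k W ≤ a G k W (fr X) := by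
  rw [← J_eq_a, a_eq, a_eq]
  refine mul_le_mul_of_nonneg_left (ED_mono _ _ _ _ (fun D _ => em_le_fr X D)) (by positivity)

end

end Helper87.BWL
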