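import Mathlib
import Pool.Agent.Helper53.ChromMono
import Pool.Agent.Helper87.BW.Frame2

set_option autoImplicit false

/-!
Number of unused colours of a random proper colouring: monotonicity in the number of colours,
variance and fourth moment.
-/

namespace Helper87.BWU

open Finset Classical Helper53.BW Helper87.BWL

noncomputable section

variable {V : Type*} {G : SimpleGraph V}

/-- mean of `F` of the number of unused colours -/
def EF (G : SimpleGraph V) (F : ℝ → ℝ) (k : ℕ) (W : Finset V) : ℝ :=
  Ex G k W (fun m => F (sh em m))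

lemma EF_mul (F : ℝ → ℝ) (k : ℕ) (W : Finset V) :
    EF G F k W * P G k W = S G k W (fun m => F (sh em m)) := by
  rw [mul_comm]
  exact P_mul_Ex k W _

lemma em_of_mem {D : Finset V} {y : V} (h : y ∈ D) : em D = 0 := by
  unfold BWL.em
  rw [if_neg]
  rintro rfl
  simp at h

/-- the class of `y` -/
lemma EF_class (F : ℝ → ℝ) (k : ℕ) (W : Finset V) (y : V) (hy : y ∈ W) :
    EF G F (k+1) W * P G (k+1) W =
      (k+1) * ∑ D ∈ (I G W).filter (fun D => y ∈ D), EF G F k (W \ D) * P G k (W \ D) := by
  rw [EF_mul]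
  have h1 : S G (k+1) W (fun m => F (sh em m)) = S G (k+1) W (fun m => sh (nv y) m * F (sh em m)) := by
    apply S_congr
    intro m hm
    rw [sh_nv hm, if_pos hy, one_mul]
  rw [h1, S_ex, Nat.add_sub_cancel, Finset.sum_filter]
  push_cast
  congr 1
  refine Finset.sum_congr rfl (fun D _ => ?_)
  by_cases h : y ∈ D
  · rw [if_pos h, EF_mul]
    unfold nv
    rw [if_pos h, one_mul]
    congr 1
    funext m
    rw [sh_cons, em_of_mem h, zero_add]
  · rw [if_neg h]
    unfold nv
    rw [if_neg h, zero_mul]

lemma EF_empty (F : ℝ → ℝ) (k : ℕ) : EF G F k (∅ : Finset V) = F k := by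
  have h : EF G F k (∅ : Finset V) * P G k ∅ = F k := by
    rw [EF_mul]
    induction k with
    | zero => rw [S_zero, if_pos rfl, sh_zero]; simp
    | succ k ih =>
      have h2 : ∀ (k : ℕ) (c : ℝ), S G k (∅ : Finset V) (fun m => F (c + sh em m)) = F (c + k) := by
        intro k
        induction k with
        | zero => intro c; rw [S_zero, if_pos rfl, sh_zero]; simp
        | succ k ih =>
          intro c
          rw [S_succ, I_empty, Finset.sum_singleton]
          have h3 : (fun m => F (c + sh em ((∅ : Finset V) ::ₘ m))) =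
              fun m => F ((c + 1) + sh em m) := by
            funext m
            rw [sh_cons, show em (∅ : Finset V) = 1 from if_pos rfl, add_assoc]
          rw [h3, Finset.sdiff_empty, ih (c+1)]
          congr 1
          push_cast; ring
      have h4 := h2 (k+1) 0
      simpa using h4
  rwa [P_empty, mul_one] at h

/-- one vertex -/
lemma EF_insert_le (F : ℝ → ℝ) (hF : Monotone F) (k : ℕ) : ∀ (X : Finset V) (x : V), x ∉ X →
    X.card ≤ k → EF G F (k+1) (insert x X) ≤ EF G F (k+1) X := by
  induction k with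
  | zero =>
    intro X x hx hc
    have hX : X = ∅ := Finset.card_eq_zero.1 (by omega)
    subst hX
    have h1 := EF_class (G := G) F 0 (insert x ∅) x (Finset.mem_insert_self _ _)
    rw [sum_class_insert (G := G) (fun Y => EF G F 0 Y * P G 0 Y) ∅ x hx] at h1
    have h2 : (I G (∅ : Finset V)).filter (fun D => ∀ y ∈ D, ¬ G.Adj x y) = {∅} := by
      rw [I_empty]; ext D; simp only [Finset.mem_filter, Finset.mem_singleton]
      constructor
      · exact fun h => h.1
      · rintro rfl; exact ⟨rfl, by simp⟩
    rw [h2, Finset.sum_singleton, Finset.sdiff_empty, P_empty, EF_empty] at h1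
    have h3 : P G (0+1) (insert x (∅ : Finset V)) = 1 := by
      rw [P_class (G := G) 0 _ x (Finset.mem_insert_self _ _),
        sum_class_insert (G := G) (fun Y => P G 0 Y) ∅ x hx, h2, Finset.sum_singleton,
        Finset.sdiff_empty, P_empty]
      simp
    rw [h3] at h1
    rw [EF_empty]
    have h4 : EF G F (0+1) (insert x ∅) = F 0 := by
      have := h1
      push_cast at this
      linarith
    rw [h4]
    exact hF (by push_cast; norm_num)
  | succ k ih =>
    intro X x hx hc
    have hmono : ∀ D : Finset V, EF G F (k+1) X ≤ EF G F (k+1) (X \ D) := by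
      intro D
      induction D using Finset.induction_on with
      | empty => simp
      | insert y D hy ihD =>
        by_cases hyX : y ∈ X
        · have hyXD : y ∈ X \ D := Finset.mem_sdiff.2 ⟨hyX, hy⟩
          have e : X \ insert y D = (X \ D).erase y := by
            ext z; simp only [Finset.mem_sdiff, Finset.mem_insert, Finset.mem_erase]; tauto
          have e2 : insert y ((X \ D).erase y) = X \ D := Finset.insert_erase hyXD
          have hc2 : ((X \ D).erase y).card ≤ k := by
            rw [Finset.card_erase_of_mem hyXD]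
            have := Finset.card_le_card (Finset.sdiff_subset (s := X) (t := D))
            omega
          have h1 := ih ((X \ D).erase y) y (Finset.notMem_erase _ _) hc2
          rw [e2] at h1
          rw [e]
          exact ihD.trans h1
        · have e : X \ insert y D = X \ D := by
            ext z; simp only [Finset.mem_sdiff, Finset.mem_insert]
            constructor
            · rintro ⟨h1, h2⟩; exact ⟨h1, fun h => h2 (Or.inr h)⟩
            · rintro ⟨h1, h2⟩
              refine ⟨h1, ?_⟩
              rintro (rfl | h)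
              · exact hyX h1
              · exact h2 h
          rw [e]; exact ihD
    set h : Finset V → ℝ := fun D => (EF G F (k+1) (X \ D) - EF G F (k+1) X) * P G (k+1) (X \ D)
      with hh
    have hh0 : ∀ D, 0 ≤ h D := fun D =>
      mul_nonneg (sub_nonneg.2 (hmono D)) (P_nonneg _ _)
    have hhe : h ∅ = 0 := by simp only [hh, Finset.sdiff_empty, sub_self, zero_mul]
    set Δ := EF G F (k+2) X - EF G F (k+1) X with hΔ
    have hy : ∀ y ∈ X, ((k:ℝ)+2) * ∑ D ∈ (I G X).filter (fun D => y ∈ D), h D
        = Δ * P G (k+2) X := by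
      intro y hy
      have e1 := EF_class (G := G) F (k+1) X y hy
      have e2 := P_class (G := G) (k+1) X y hy
      have e3 : ∑ D ∈ (I G X).filter (fun D => y ∈ D), h D
          = (∑ D ∈ (I G X).filter (fun D => y ∈ D), EF G F (k+1) (X \ D) * P G (k+1) (X \ D))
            - EF G F (k+1) X * ∑ D ∈ (I G X).filter (fun D => y ∈ D), P G (k+1) (X \ D) := by
        simp only [hh]
        rw [Finset.mul_sum, ← Finset.sum_sub_distrib]
        exact Finset.sum_congr rfl (fun D _ => by ring)
      rw [e3, hΔ]
      push_cast at e1 e2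
      rw [show k + 2 = k + 1 + 1 from rfl, sub_mul, e1, e2]
      ring
    have hΔ0 : 0 ≤ Δ := by
      rcases Finset.eq_empty_or_nonempty X with h0 | ⟨y, hyX⟩
      · rw [hΔ, h0, EF_empty, EF_empty, sub_nonneg]
        exact hF (by push_cast; linarith)
      · have h1 : 0 ≤ ∑ D ∈ (I G X).filter (fun D => y ∈ D), h D :=
          Finset.sum_nonneg (fun D _ => hh0 D)
        have h2 := hy y hyX
        have h3 : 0 < P G (k+2) X := P_pos _ _ (by omega)
        by_contra hneg
        have h4 : Δ * P G (k+2) X < 0 := mul_neg_of_neg_of_pos (not_le.1 hneg) h3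
        rw [← h2] at h4
        have hk : (0:ℝ) ≤ (k:ℝ) + 2 := by positivity
        have h5 : (0:ℝ) ≤ ((k:ℝ)+2) * ∑ D ∈ (I G X).filter (fun D => y ∈ D), h D :=
          mul_nonneg hk h1
        linarith
    set IR := (I G X).filter (fun D => ∀ y ∈ D, ¬ G.Adj x y) with hIR
    set Rr := X.filter (fun y => ¬ G.Adj x y) with hR
    have hub : ∑ D ∈ IR, h D ≤ ∑ y ∈ Rr, ∑ D ∈ (I G X).filter (fun D => y ∈ D), h D := by
      have e1 : ∀ y ∈ Rr, ∑ D ∈ IR, (if y ∈ D then h D else 0) ≤
          ∑ D ∈ (I G X).filter (fun D => y ∈ D), h D := by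
        intro y _
        rw [← Finset.sum_filter]
        refine Finset.sum_le_sum_of_subset_of_nonneg ?_ (fun D _ _ => hh0 D)
        intro D hD
        simp only [hIR, Finset.mem_filter] at hD ⊢
        exact ⟨hD.1.1, hD.2⟩
      refine le_trans ?_ (Finset.sum_le_sum e1)
      rw [Finset.sum_comm]
      refine Finset.sum_le_sum (fun D hD => ?_)
      rcases Finset.eq_empty_or_nonempty D with rfl | ⟨y, hyD⟩
      · rw [hhe]; exact Finset.sum_nonneg (fun y _ => by split_ifs <;> simp)
      · have hyR : y ∈ Rr := by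
          simp only [hIR, Finset.mem_filter, mem_I] at hD
          exact Finset.mem_filter.2 ⟨hD.1.1 hyD, hD.2 y hyD⟩
        have := Finset.single_le_sum (f := fun y => if y ∈ D then h D else 0)
          (fun y _ => by split_ifs; exacts [hh0 D, le_refl _]) hyR
        simpa [hyD] using this
    have hins : (EF G F (k+2) (insert x X) - EF G F (k+1) X) * P G (k+2) (insert x X) =
        ((k:ℝ)+2) * ∑ D ∈ IR, h D := by
      have e1 := EF_class (G := G) F (k+1) (insert x X) x (Finset.mem_insert_self _ _)
      have e2 := P_class (G := G) (k+1) (insert x X) x (Finset.mem_insert_self _ _)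
      rw [sum_class_insert (G := G) (fun Y => EF G F (k+1) Y * P G (k+1) Y) X x hx] at e1
      rw [sum_class_insert (G := G) (fun Y => P G (k+1) Y) X x hx] at e2
      have e3 : ∑ D ∈ IR, h D
          = (∑ D ∈ IR, EF G F (k+1) (X \ D) * P G (k+1) (X \ D))
            - EF G F (k+1) X * ∑ D ∈ IR, P G (k+1) (X \ D) := by
        simp only [hh]
        rw [Finset.mul_sum, ← Finset.sum_sub_distrib]
        exact Finset.sum_congr rfl (fun D _ => by ring)
      rw [e3]
      push_cast at e1 e2
      rw [show k + 2 = k + 1 + 1 from rfl, sub_mul, e1, e2]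
      ring
    have hD : ((k:ℝ)+2) * ∑ y ∈ Rr, ∑ D ∈ (I G X).filter (fun D => y ∈ D), h D
        = Rr.card * (Δ * P G (k+2) X) := by
      rw [Finset.mul_sum, Finset.sum_congr rfl (fun y hy' => hy y (Finset.mem_filter.1 hy').1)]
      rw [Finset.sum_const, nsmul_eq_mul]
    have hext : (Rr.card : ℝ) * P G (k+2) X ≤ P G (k+2) (insert x X) := by
      have h1 := P_ext (G := G) (k+2) X x hx
      refine le_trans ?_ h1
      have h2 : (Rr.card : ℝ) + ((X.filter (fun y => G.Adj x y)).card : ℝ) = X.card := by
        have := Finset.card_filter_add_card_filter_not (s := X) (fun y => G.Adj x y)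
        rw [hR]; exact_mod_cast (by omega)
      have h3 : (X.card : ℝ) ≤ k + 1 := by exact_mod_cast hc
      have h4 := P_nonneg (G := G) (k+2) X
      push_cast
      nlinarith
    have hpos : 0 < P G (k+2) (insert x X) :=
      P_pos _ _ (by rw [Finset.card_insert_of_notMem hx]; omega)
    have h6 : (EF G F (k+2) (insert x X) - EF G F (k+1) X) * P G (k+2) (insert x X) ≤
        Δ * P G (k+2) (insert x X) := by
      rw [hins]
      calc ((k:ℝ)+2) * ∑ D ∈ IR, h D
          ≤ ((k:ℝ)+2) * ∑ y ∈ Rr, ∑ D ∈ (I G X).filter (fun D => y ∈ D), h D :=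
            mul_le_mul_of_nonneg_left hub (by positivity)
        _ = Δ * (Rr.card * P G (k+2) X) := by rw [hD]; ring
        _ ≤ Δ * P G (k+2) (insert x X) := mul_le_mul_of_nonneg_left hext hΔ0
    have h7 := le_of_mul_le_mul_right h6 hpos
    rw [hΔ] at h7
    show EF G F (k+2) (insert x X) ≤ EF G F (k+2) X
    linarith

/-- subsets -/
lemma EF_sdiff (F : ℝ → ℝ) (hF : Monotone F) (k : ℕ) (X D : Finset V) (hc : X.card ≤ k) :
    EF G F k X ≤ EF G F k (X \ D) := by
  induction D using Finset.induction_on with
  | empty => simp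
  | insert y D hy ihD =>
    by_cases hyX : y ∈ X \ D
    · have e : X \ insert y D = (X \ D).erase y := by
        ext z; simp only [Finset.mem_sdiff, Finset.mem_insert, Finset.mem_erase]; tauto
      have e2 : insert y ((X \ D).erase y) = X \ D := Finset.insert_erase hyX
      have hle := Finset.card_le_card (Finset.sdiff_subset (s := X) (t := D))
      have hpos : 0 < (X \ D).card := Finset.card_pos.2 ⟨y, hyX⟩
      obtain ⟨l, rfl⟩ : ∃ l, k = l + 1 := ⟨k - 1, by omega⟩
      have h1 := EF_insert_le (G := G) F hF l ((X \ D).erase y) y (Finset.notMem_erase _ _) (by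
        rw [Finset.card_erase_of_mem hyX]; omega)
      rw [e2] at h1
      rw [e]
      exact ihD.trans h1
    · have e : X \ insert y D = X \ D := by
        ext z; simp only [Finset.mem_sdiff, Finset.mem_insert]
        constructor
        · rintro ⟨h1, h2⟩; exact ⟨h1, fun h => h2 (Or.inr h)⟩
        · rintro ⟨h1, h2⟩
          refine ⟨h1, ?_⟩
          rintro (rfl | h)
          · exact hyX (Finset.mem_sdiff.2 ⟨h1, h2⟩)
          · exact h2 h
      rw [e]; exact ihD

/-- more colours -/
lemma EF_succ (F : ℝ → ℝ) (hF : Monotone F) (k : ℕ) (W : Finset V) (hc : W.card ≤ k) :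
    EF G F k W ≤ EF G F (k+1) W := by
  rcases Finset.eq_empty_or_nonempty W with h0 | ⟨y, hyW⟩
  · rw [h0, EF_empty, EF_empty]
    exact hF (by push_cast; linarith)
  · have hpos : 0 < P G (k+1) W := P_pos _ _ (by omega)
    have e1 := EF_class (G := G) F k W y hyW
    have e2 := P_class (G := G) k W y hyW
    have h1 : EF G F k W * P G (k+1) W ≤ EF G F (k+1) W * P G (k+1) W := by
      rw [e1, e2]
      have h2 : EF G F k W * ∑ D ∈ (I G W).filter (fun D => y ∈ D), P G k (W \ D) ≤
          ∑ D ∈ (I G W).filter (fun D => y ∈ D), EF G F k (W \ D) * P G k (W \ D) := by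
        rw [Finset.mul_sum]
        refine Finset.sum_le_sum (fun D _ => ?_)
        exact mul_le_mul_of_nonneg_right (EF_sdiff F hF k W D hc) (P_nonneg _ _)
      have hk : (0:ℝ) ≤ (k:ℝ) + 1 := by positivity
      nlinarith [mul_le_mul_of_nonneg_left h2 hk]
    exact le_of_mul_le_mul_right h1 hpos

end

end Helper87.BWU

namespace Helper87.BWL

open Finset Classical Helper53.BW

noncomputable section

variable {V : Type*} {G : SimpleGraph V}

lemma U_mono_k (k : ℕ) (W : Finset V) (hc : W.card ≤ k) (F : ℝ → ℝ) (hF : Monotone F) :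
    Ex G k W (fun m => F (sh em m)) ≤ Ex G (k+1) W (fun m => F (sh em m)) :=
  Helper87.BWU.EF_succ F hF k W hc

/-- exchangeability for the empty classes -/
lemma U_ex (k : ℕ) (W : Finset V) (F : ℝ → ℝ) :
    Ex G k W (fun m => sh em m * F (sh em m)) =
      J G k W * Ex G (k-1) W (fun m => F (sh em m + 1)) := by
  rw [Ex_ex]
  unfold ED J
  have h1 : ∀ D ∈ I G W, P G (k-1) (W \ D) * (em D * Ex G (k-1) (W \ D)
      (fun m => F (sh em (D ::ₘ m)))) =
      if D = ∅ then P G (k-1) W * Ex G (k-1) W (fun m => F (sh em m + 1)) else 0 := by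
    intro D _
    by_cases hD : D = ∅
    · subst hD
      rw [if_pos rfl, Finset.sdiff_empty]
      unfold BWL.em
      rw [if_pos rfl, one_mul]
      congr 2
      funext m
      have : sh (fun D : Finset V => if D = ∅ then (1:ℝ) else 0) ((∅ : Finset V) ::ₘ m) =
          (if (∅ : Finset V) = ∅ then (1:ℝ) else 0) +
          sh (fun D : Finset V => if D = ∅ then (1:ℝ) else 0) m := sh_cons _ _ _
      rw [this, if_pos rfl, add_comm]
    · rw [if_neg hD]
      unfold BWL.em
      rw [if_neg hD, zero_mul, mul_zero]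
  rw [Finset.sum_congr rfl h1, Finset.sum_ite_eq' , if_pos (empty_mem_I W)]
  ring

lemma U_step (k : ℕ) (W : Finset V) (hc : W.card + 1 ≤ k) (F : ℝ → ℝ) (hF : Monotone F) :
    Ex G k W (fun m => (sh em m - J G k W) * F (sh em m))
      ≤ J G k W * Ex G (k-1) W (fun m => F (sh em m + 1) - F (sh em m)) := by
  have h1 : (fun m : Multiset (Finset V) => (sh em m - J G k W) * F (sh em m)) =
      fun m => sh em m * F (sh em m) - J G k W * F (sh em m) := by
    funext m; ring
  rw [h1, Ex_sub k W (fun m => sh em m * F (sh em m)) (fun m => J G k W * F (sh em m)),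
    Ex_mul_left k W _ (fun m => F (sh em m)), U_ex,
    Ex_sub (k-1) W (fun m => F (sh em m + 1)) (fun m => F (sh em m))]
  obtain ⟨l, rfl⟩ : ∃ l, k = l + 1 := ⟨k - 1, by omega⟩
  rw [Nat.add_sub_cancel]
  have h2 := U_mono_k (G := G) l W (by omega) F hF
  have h3 := mul_le_mul_of_nonneg_left h2 (J_nonneg (G := G) (l+1) W)
  linarith

lemma U_var (k : ℕ) (W : Finset V) (hc : W.card + 1 ≤ k) :
    Ex G k W (fun m => (sh em m - J G k W) ^ 2) ≤ J G k W := by
  have h := U_step (G := G) k W hc (fun x => x - J G k W) (fun a b h => sub_le_sub_right h _)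
  have h1 : (fun m : Multiset (Finset V) => (sh em m - J G k W) * (sh em m - J G k W)) =
      fun m => (sh em m - J G k W) ^ 2 := by funext m; ring
  have h2 : (fun m : Multiset (Finset V) => (sh em m + 1 - J G k W) - (sh em m - J G k W)) =
      fun _ => (1:ℝ) := by funext m; ring
  rw [h1, h2, Ex_const (k-1) W (by omega), mul_one] at h
  exact h

lemma U_four (k : ℕ) (W : Finset V) (hc : W.card + 2 ≤ k) (hJ : 1 ≤ J G k W) :
    Ex G k W (fun m => (sh em m - J G k W) ^ 4) ≤ 7 * J G k W ^ 2 := by
  set μ := J G k W with hμ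
  have h := U_step (G := G) k W (by omega) (fun x => (x - μ) ^ 3) (fun a b h => by
    have h3 : Odd 3 := by decide
    exact (h3.strictMono_pow).monotone (sub_le_sub_right h _))
  rw [← hμ] at h
  have h1 : (fun m : Multiset (Finset V) => (sh em m - μ) * (sh em m - μ) ^ 3) =
      fun m => (sh em m - μ) ^ 4 := by funext m; ring
  obtain ⟨l, rfl⟩ : ∃ l, k = l + 1 := ⟨k - 1, by omega⟩
  rw [Nat.add_sub_cancel] at h
  set ν := J G l W with hν
  have h2 : (fun m : Multiset (Finset V) => (sh em m + 1 - μ) ^ 3 - (sh em m - μ) ^ 3) =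
      fun m => 3 * (sh em m - ν) ^ 2 + ((6 * (ν - μ) + 3) * sh em m +
        (3 * μ ^ 2 - 3 * ν ^ 2 - 3 * μ + 1)) := by
    funext m; ring
  have h3 : Ex G l W (fun m => sh em m) = ν := J_eq_a l W
  have h4 : Ex G l W (fun m => (sh em m + 1 - μ) ^ 3 - (sh em m - μ) ^ 3) ≤
      3 * ν + ((6 * (ν - μ) + 3) * ν + (3 * μ ^ 2 - 3 * ν ^ 2 - 3 * μ + 1)) := by
    rw [h2, Ex_add l W (fun m => 3 * (sh em m - ν) ^ 2), Ex_mul_left l W 3,
      Ex_add l W (fun m => (6 * (ν - μ) + 3) * sh em m), Ex_mul_left l W _ (fun m => sh em m), h3,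
      Ex_const l W (by omega)]
    have := U_var (G := G) l W (by omega)
    linarith
  rw [h1] at h
  refine h.trans ?_
  have h5 : ν ≤ μ := by
    have := U_mono_k (G := G) l W (by omega) (fun x => x) monotone_id
    rw [h3] at this
    have h6 : Ex G (l+1) W (fun m => sh em m) = μ := J_eq_a (l+1) W
    rw [h6] at this
    exact this
  have h6 : μ ≤ ν + 1 := J_succ_le l W (by omega)
  have h7 : 0 ≤ μ := by linarith
  have h8 := mul_le_mul_of_nonneg_left h4 h7
  refine h8.trans ?_
  have h9 : 3 * ν + ((6 * (ν - μ) + 3) * ν + (3 * μ ^ 2 - 3 * ν ^ 2 - 3 * μ + 1)) ≤ 7 * μ := by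
    nlinarith [mul_nonneg (sub_nonneg.2 h5) (sub_nonneg.2 h6)]
  nlinarith

end

end Helper87.BWL
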