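import Mathlib
import Pool.Agent.Helper87.BW.Infl
import Pool.Agent.Helper87.BW.Unused

set_option autoImplicit false

/-! Second differences of the mean number of unused colours (helper79). -/

namespace Helper87.BWL

open Finset Classical Helper53.BW

noncomputable section

variable {V : Type*} {G : SimpleGraph V}

namespace SD

lemma sh_ci {k : ℕ} {W : Finset V} {m : Multiset (Finset V)} (h : Val G k W m) (X : Set V) :
    sh (ci X) m = ((W.filter (fun y => y ∈ X)).card : ℝ) := by
  induction k generalizing W m with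
  | zero => rw [h.2, h.1]; simp [sh_zero]
  | succ k ih =>
    obtain ⟨D, hD, m', hm', rfl⟩ := h
    rw [sh_cons, ih hm', ci]
    rw [mem_I] at hD
    have e1 : (W \ D).filter (fun y => y ∈ X) = W.filter (fun y => y ∈ X) \ D.filter (fun y => y ∈ X) := by
      ext y; simp only [Finset.mem_filter, Finset.mem_sdiff]; tauto
    have e2 : D.filter (fun y => y ∈ X) ⊆ W.filter (fun y => y ∈ X) :=
      Finset.filter_subset_filter _ hD.1
    have := Finset.card_sdiff_add_card_eq_card e2
    rw [e1]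
    have h2 : (((W.filter (fun y => y ∈ X) \ D.filter (fun y => y ∈ X)).card : ℕ) : ℝ)
        + ((D.filter (fun y => y ∈ X)).card : ℝ) = ((W.filter (fun y => y ∈ X)).card : ℝ) := by
      exact_mod_cast this
    linarith

lemma xi_nonneg (X : Set V) (D : Finset V) : 0 ≤ xi X D := by
  unfold xi ci fr
  split_ifs with h
  · have : (0:ℝ) ≤ ((D.filter (fun y => y ∈ X)).card : ℝ) := by positivity
    linarith
  · push Not at h
    obtain ⟨y, hy, hyX⟩ := h
    have h1 : 1 ≤ (D.filter (fun y => y ∈ X)).card :=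
      Finset.card_pos.2 ⟨y, Finset.mem_filter.2 ⟨hy, hyX⟩⟩
    have h2 : (1:ℝ) ≤ ((D.filter (fun y => y ∈ X)).card : ℝ) := by exact_mod_cast h1
    linarith

lemma xi_le (X : Set V) (D : Finset V) : xi X D ≤ cd D - 1 + em D := by
  unfold xi ci fr cd em
  have h0 : ((D.filter (fun y => y ∈ X)).card : ℝ) ≤ (D.card : ℝ) := by
    exact_mod_cast Finset.card_filter_le _ _
  by_cases hD : D = ∅
  · subst hD; simp
  · rw [if_neg hD]
    split_ifs with h
    · have h1 : D.filter (fun y => y ∈ X) = ∅ := by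
        rw [Finset.filter_eq_empty_iff]
        intro y hy; exact h y hy
      have h2 : 1 ≤ D.card := Finset.card_pos.2 (Finset.nonempty_iff_ne_empty.2 hD)
      have h3 : (1:ℝ) ≤ (D.card : ℝ) := by exact_mod_cast h2
      rw [h1, Finset.card_empty]
      push_cast
      linarith
    · linarith

/-- pointwise sandwich for the number of colours unused on `X` -/
lemma sandwich (k : ℕ) (W : Finset V) (hc : W.card ≤ k) (X : Set V) (m : Multiset (Finset V))
    (hm : Val G k W m) :
    (k:ℝ) - ((W.filter (fun y => y ∈ X)).card : ℝ) ≤ sh (fr X) m ∧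
      sh (fr X) m ≤ (k:ℝ) - ((W.filter (fun y => y ∈ X)).card : ℝ) + sh em m := by
  have hfr : sh (fr X) m = k - ((W.filter (fun y => y ∈ X)).card : ℝ) + sh (xi X) m := by
    have e : fr X = fun D => (1 : ℝ) + ((-1) * ci X D + xi X D) := by
      funext D; unfold xi; ring
    rw [e, sh_add, sh_add, sh_const hm, sh_mul_left, sh_ci hm]
    ring
  have h1 : 0 ≤ sh (xi X) m := by
    have := sh_mono hm (fun _ => 0) (xi X) (fun D _ => xi_nonneg X D)
    rwa [sh_const hm, mul_zero] at this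
  have h2 : sh (xi X) m ≤ sh em m := by
    have h3 := sh_mono hm (xi X) (fun D => cd D + ((-1) + em D)) (fun D _ => by
      have := xi_le X D; linarith)
    rw [sh_add, sh_add, sh_const hm, sh_cd hm] at h3
    have h4 : (W.card : ℝ) ≤ k := by exact_mod_cast hc
    linarith
  rw [hfr]
  exact ⟨by linarith, by linarith⟩

end SD

lemma A_close (k : ℕ) (W : Finset V) (hc : W.card ≤ k) (X : Set V) (m : Multiset (Finset V)) (hm : Val G k W m) :
    |sh (fr X) m - a G k W (fr X)| ≤ sh em m + J G k W := by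
  obtain ⟨h1, h2⟩ := SD.sandwich k W hc X m hm
  have h3 : (k:ℝ) - ((W.filter (fun y => y ∈ X)).card : ℝ) ≤ a G k W (fr X) := by
    have := Ex_mono (G := G) k W (fun _ => (k:ℝ) - ((W.filter (fun y => y ∈ X)).card : ℝ)) (sh (fr X))
      (fun m hm => (SD.sandwich k W hc X m hm).1)
    rwa [Ex_const k W hc] at this
  have h4 : a G k W (fr X) ≤ (k:ℝ) - ((W.filter (fun y => y ∈ X)).card : ℝ) + J G k W := by
    have := Ex_mono (G := G) k W (sh (fr X))
      (fun m => (k:ℝ) - ((W.filter (fun y => y ∈ X)).card : ℝ) + sh em m)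
      (fun m hm => (SD.sandwich k W hc X m hm).2)
    rw [Ex_add, Ex_const k W hc] at this
    have e : Ex G k W (fun m => sh em m) = J G k W := J_eq_a k W
    rw [e] at this
    exact this
  have h5 : 0 ≤ sh em m := by linarith
  have h6 : 0 ≤ J G k W := J_nonneg k W
  rw [abs_le]
  constructor <;> linarith

namespace SD

/-- expectation of a product of centred variables -/
lemma Ex_cov (k : ℕ) (W : Finset V) (hc : W.card ≤ k) (h h' : Finset V → ℝ) :
    Ex G k W (fun m => (sh h m - a G k W h) * (sh h' m - a G k W h'))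
      = Ex G k W (fun m => sh h m * sh h' m) - a G k W h * a G k W h' := by
  have e : (fun m => (sh h m - a G k W h) * (sh h' m - a G k W h'))
      = fun m => (sh h m * sh h' m - a G k W h * sh h' m) - (a G k W h' * sh h m - a G k W h * a G k W h') := by
    funext m; ring
  rw [e, Ex_sub, Ex_sub, Ex_sub, Ex_mul_left, Ex_mul_left, Ex_const k W hc]
  have e1 : Ex G k W (fun m => sh h m) = a G k W h := rfl
  have e2 : Ex G k W (fun m => sh h' m) = a G k W h' := rfl
  rw [e1, e2]; ring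

lemma pointwise (mu a b x y u η : ℝ) (hmu : 1 ≤ mu) (ha : 0 < a) (hb : 0 < b) (h0 : 0 < η) (h1 : η ≤ 1)
    (hx : |x| ≤ u + 2 * mu) (hy : |y| ≤ u + 2 * mu) :
    |x * y * u| ≤ η * mu / 2 * (b / a * (x * x) + a / b * (y * y))
      + (2 / η + 1) ^ 2 / (η * mu) * u ^ 4 := by
  have hem : 0 < η * mu := by positivity
  have hxy : |x * y| ≤ 1 / 2 * (b / a * (x * x) + a / b * (y * y)) := by
    have e : b / a * (x * x) + a / b * (y * y) = (b ^ 2 * x ^ 2 + a ^ 2 * y ^ 2) / (a * b) := by
      field_simp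
    rw [e, abs_mul]
    have e2 : (1:ℝ) / 2 * ((b ^ 2 * x ^ 2 + a ^ 2 * y ^ 2) / (a * b))
      = (b ^ 2 * x ^ 2 + a ^ 2 * y ^ 2) / (2 * (a * b)) := by field_simp
    rw [e2, le_div_iff₀ (by positivity)]
    have := sq_nonneg (b * |x| - a * |y|)
    have hx2 : |x| ^ 2 = x ^ 2 := sq_abs x
    have hy2 : |y| ^ 2 = y ^ 2 := sq_abs y
    nlinarith
  have hK : 0 ≤ (2 / η + 1) ^ 2 / (η * mu) := by positivity
  have hu4 : 0 ≤ u ^ 4 := by positivity
  by_cases hu : |u| ≤ η * mu
  · rw [abs_mul]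
    have h2 : |x * y| * |u| ≤ 1 / 2 * (b / a * (x * x) + a / b * (y * y)) * (η * mu) :=
      mul_le_mul hxy hu (abs_nonneg _) (le_trans (abs_nonneg _) hxy)
    have h3 := mul_nonneg hK hu4
    nlinarith
  · push Not at hu
    have h2 : u + 2 * mu ≤ (2 / η + 1) * |u| := by
      have h3 : 2 * mu ≤ 2 / η * |u| := by
        rw [div_mul_eq_mul_div, le_div_iff₀ h0]
        nlinarith
      have h4 := le_abs_self u
      nlinarith
    have hc : 0 ≤ (2 / η + 1) := by positivity
    have h5 : |x| * |y| ≤ ((2 / η + 1) * |u|) * ((2 / η + 1) * |u|) :=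
      mul_le_mul (hx.trans h2) (hy.trans h2) (abs_nonneg _) (by positivity)
    have h6 : |x * y * u| ≤ (2 / η + 1) ^ 2 * |u| ^ 3 := by
      rw [abs_mul, abs_mul]
      calc |x| * |y| * |u| ≤ (((2 / η + 1) * |u|) * ((2 / η + 1) * |u|)) * |u| :=
            mul_le_mul_of_nonneg_right h5 (abs_nonneg _)
        _ = (2 / η + 1) ^ 2 * |u| ^ 3 := by ring
    have h7 : (2 / η + 1) ^ 2 * |u| ^ 3 ≤ (2 / η + 1) ^ 2 / (η * mu) * u ^ 4 := by
      have e4 : u ^ 4 = |u| ^ 3 * |u| := by
        have : u ^ 4 = |u| ^ 4 := by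
          rw [show (4:ℕ) = 2 * 2 from rfl, pow_mul, pow_mul, sq_abs]
        rw [this]; ring
      rw [e4, div_mul_eq_mul_div, le_div_iff₀ hem]
      have : 0 ≤ (2 / η + 1) ^ 2 * |u| ^ 3 := by positivity
      nlinarith
    have h8 : 0 ≤ η * mu / 2 * (b / a * (x * x) + a / b * (y * y)) := by
      have : 0 ≤ b / a * (x * x) + a / b * (y * y) := by
        have := mul_self_nonneg x
        have := mul_self_nonneg y
        positivity
      positivity
    linarith

end SD

lemma kappa_le (k : ℕ) (W : Finset V) (hc : W.card + 2 ≤ k) (hJ : 1 ≤ J G k W) (X Y : Set V) (η : ℝ)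
    (h0 : 0 < η) (h1 : η ≤ 1) :
    |Ex G k W (fun m => (sh (fr X) m - a G k W (fr X)) * (sh (fr Y) m - a G k W (fr Y)) * (sh em m - J G k W))|
      ≤ 20 * η * a G k W (fr X) * a G k W (fr Y) + 7 * (2 / η + 1) ^ 2 * J G k W / η := by
  have hcW : W.card ≤ k := by omega
  have hcW1 : W.card + 1 ≤ k := by omega
  have hJa := J_le_a (G := G) k W X
  have hJb := J_le_a (G := G) k W Y
  have ha : 0 < a G k W (fr X) := by linarith
  have hb : 0 < a G k W (fr Y) := by linarith
  have hU : Ex G k W (fun m => (sh em m - J G k W) ^ 4) ≤ 7 * J G k W ^ 2 := U_four k W hc hJ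
  have hA : Ex G k W (fun m => (sh (fr X) m - a G k W (fr X)) * (sh (fr X) m - a G k W (fr X)))
      ≤ 20 * a G k W (fr X) := by
    rw [SD.Ex_cov k W hcW]
    exact (abs_le.1 (cov_le (G := G) k W hcW1 X X)).2
  have hB : Ex G k W (fun m => (sh (fr Y) m - a G k W (fr Y)) * (sh (fr Y) m - a G k W (fr Y)))
      ≤ 20 * a G k W (fr Y) := by
    rw [SD.Ex_cov k W hcW]
    exact (abs_le.1 (cov_le (G := G) k W hcW1 Y Y)).2
  set mu := J G k W with hmu
  set aX := a G k W (fr X) with haX
  set aY := a G k W (fr Y) with haY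
  set B : Multiset (Finset V) → ℝ := fun m => η * mu / 2 * (aY / aX * ((sh (fr X) m - aX) * (sh (fr X) m - aX))
      + aX / aY * ((sh (fr Y) m - aY) * (sh (fr Y) m - aY)))
      + (2 / η + 1) ^ 2 / (η * mu) * (sh em m - mu) ^ 4 with hBdef
  have hpt : ∀ m, Val G k W m →
      |(sh (fr X) m - aX) * (sh (fr Y) m - aY) * (sh em m - mu)| ≤ B m := by
    intro m hm
    refine SD.pointwise mu aX aY _ _ _ η hJ ha hb h0 h1 ?_ ?_
    · have := A_close (G := G) k W hcW X m hm
      rw [← haX, ← hmu] at this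
      linarith
    · have := A_close (G := G) k W hcW Y m hm
      rw [← haY, ← hmu] at this
      linarith
  have hup : Ex G k W (fun m => (sh (fr X) m - aX) * (sh (fr Y) m - aY) * (sh em m - mu)) ≤ Ex G k W B :=
    Ex_mono k W _ _ (fun m hm => (abs_le.1 (hpt m hm)).2)
  have hlo : Ex G k W (fun m => (-1) * B m)
      ≤ Ex G k W (fun m => (sh (fr X) m - aX) * (sh (fr Y) m - aY) * (sh em m - mu)) :=
    Ex_mono k W _ _ (fun m hm => by have := (abs_le.1 (hpt m hm)).1; linarith)
  rw [Ex_mul_left] at hlo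
  have hEB : Ex G k W B ≤ 20 * η * aX * aY + 7 * (2 / η + 1) ^ 2 * mu / η := by
    rw [hBdef, Ex_add, Ex_mul_left, Ex_add, Ex_mul_left, Ex_mul_left, Ex_mul_left]
    have hmupos : 0 < mu := by linarith
    have t1 : aY / aX * Ex G k W (fun m => (sh (fr X) m - aX) * (sh (fr X) m - aX)) ≤ 20 * aY := by
      have : aY / aX * Ex G k W (fun m => (sh (fr X) m - aX) * (sh (fr X) m - aX))
          ≤ aY / aX * (20 * aX) := mul_le_mul_of_nonneg_left hA (by positivity)
      have e : aY / aX * (20 * aX) = 20 * aY := by field_simp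
      linarith
    have t2 : aX / aY * Ex G k W (fun m => (sh (fr Y) m - aY) * (sh (fr Y) m - aY)) ≤ 20 * aX := by
      have : aX / aY * Ex G k W (fun m => (sh (fr Y) m - aY) * (sh (fr Y) m - aY))
          ≤ aX / aY * (20 * aY) := mul_le_mul_of_nonneg_left hB (by positivity)
      have e : aX / aY * (20 * aY) = 20 * aX := by field_simp
      linarith
    have t3 : (2 / η + 1) ^ 2 / (η * mu) * Ex G k W (fun m => (sh em m - mu) ^ 4)
        ≤ 7 * (2 / η + 1) ^ 2 * mu / η := by
      have : (2 / η + 1) ^ 2 / (η * mu) * Ex G k W (fun m => (sh em m - mu) ^ 4)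
          ≤ (2 / η + 1) ^ 2 / (η * mu) * (7 * mu ^ 2) := mul_le_mul_of_nonneg_left hU (by positivity)
      have e : (2 / η + 1) ^ 2 / (η * mu) * (7 * mu ^ 2) = 7 * (2 / η + 1) ^ 2 * mu / η := by
        field_simp
      linarith
    have t4 : η * mu / 2 * (aY / aX * Ex G k W (fun m => (sh (fr X) m - aX) * (sh (fr X) m - aX))
        + aX / aY * Ex G k W (fun m => (sh (fr Y) m - aY) * (sh (fr Y) m - aY)))
        ≤ η * mu / 2 * (20 * aY + 20 * aX) := mul_le_mul_of_nonneg_left (by linarith) (by positivity)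
    have t5 : η * mu / 2 * (20 * aY + 20 * aX) ≤ 20 * η * aX * aY := by
      have s1 : η * (mu * aY) ≤ η * (aX * aY) :=
        mul_le_mul_of_nonneg_left (mul_le_mul_of_nonneg_right hJa hb.le) h0.le
      have s2 : η * (mu * aX) ≤ η * (aY * aX) :=
        mul_le_mul_of_nonneg_left (mul_le_mul_of_nonneg_right hJb ha.le) h0.le
      nlinarith
    linarith
  rw [abs_le]
  constructor <;> linarith

namespace SD

/-- algebra of the second difference -/
lemma core (mu a b c a1 b1 c1 t kap g E E1 η K : ℝ) (hmu : 42 ≤ mu) (hma : mu ≤ a) (hmb : mu ≤ b)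
    (ht0 : 0 ≤ t) (ht1 : t ≤ 1) (hA0 : 0 ≤ a - a1) (hA5 : a - a1 ≤ 5) (hB0 : 0 ≤ b - b1) (hB5 : b - b1 ≤ 5)
    (hC0 : 0 ≤ c - c1) (hC5 : c - c1 ≤ 5) (hga : |g| ≤ 21 * a) (hgb : |g| ≤ 21 * b)
    (hp : mu - mu * a1 / a ≤ 1) (hq : mu - mu * b1 / b ≤ 1)
    (hE : E = a * b + g)
    (hE1 : mu * E1 = mu * E + (kap + a * (mu * (1 - (b - b1))) + b * (mu * (1 - (a - a1)))
      - t * (mu * (1 - (c - c1)))) - mu * (a1 + b1 + 1 - t))
    (hkap : |kap| ≤ 20 * η * a * b + K * mu) (hK : 0 ≤ K) :
    |mu * E1 / E - mu * a1 / a - mu * b1 / b + mu| ≤ 40 * η + 2 * K / mu + 114 / mu := by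
  have hmu0 : 0 < mu := by linarith
  have ha : 0 < a := by linarith
  have hb : 0 < b := by linarith
  have hab : 0 < a * b := mul_pos ha hb
  have hg : |g| ≤ a * b / 2 := by
    have h1 : 42 * |g| ≤ 21 * (a * b) := by nlinarith
    linarith
  have hg' : mu * |g| ≤ 21 * (a * b) := by nlinarith
  have hEpos : a * b / 2 ≤ E := by
    rw [hE]
    have := (abs_le.1 hg).1
    linarith
  have hE0 : 0 < E := by linarith
  set p := mu - mu * a1 / a with hpdef
  set q := mu - mu * b1 / b with hqdef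
  have hp' : p = mu * (a - a1) / a := by rw [hpdef]; field_simp
  have hq' : q = mu * (b - b1) / b := by rw [hqdef]; field_simp
  have hp0 : 0 ≤ p := by rw [hp']; positivity
  have hq0 : 0 ≤ q := by rw [hq']; positivity
  have hpa : p * a = mu * (a - a1) := by rw [hp']; field_simp
  have hqb : q * b = mu * (b - b1) := by rw [hq']; field_simp
  have key : mu * E1 / E - mu * a1 / a - mu * b1 / b + mu
      = (kap + mu * ((a - a1) + (b - b1) - 1) + t * mu * (c - c1) + g * (p + q)) / E := by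
    rw [eq_div_iff hE0.ne']
    have e1 : mu * E1 / E * E = mu * E1 := by field_simp
    have e2 : mu * a1 / a = mu - p := by rw [hpdef]; ring
    have e3 : mu * b1 / b = mu - q := by rw [hqdef]; ring
    rw [e2, e3]
    have : (mu * E1 / E - (mu - p) - (mu - q) + mu) * E = mu * E1 / E * E + (p + q - mu) * E := by ring
    rw [this, e1, hE1, hE]
    have hpab : p * (a * b) = mu * (a - a1) * b := by rw [← hpa]; ring
    have hqab : q * (a * b) = mu * (b - b1) * a := by rw [← hqb]; ring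
    linear_combination hpab + hqab
  rw [key, abs_div, abs_of_pos hE0, div_le_iff₀ hE0]
  have n1 : |kap + mu * ((a - a1) + (b - b1) - 1) + t * mu * (c - c1) + g * (p + q)|
      ≤ |kap| + 9 * mu + 5 * mu + 2 * |g| := by
    have s1 : |mu * ((a - a1) + (b - b1) - 1)| ≤ 9 * mu := by
      rw [abs_le]; constructor <;> nlinarith
    have s2 : |t * mu * (c - c1)| ≤ 5 * mu := by
      rw [abs_le]
      have : 0 ≤ t * mu := by positivity
      have h3 : t * mu ≤ mu := by nlinarith
      constructor <;> nlinarith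
    have s3 : |g * (p + q)| ≤ 2 * |g| := by
      rw [abs_mul, abs_of_nonneg (by linarith : 0 ≤ p + q)]
      have := abs_nonneg g
      nlinarith
    have s4 := abs_add_le (kap + mu * ((a - a1) + (b - b1) - 1) + t * mu * (c - c1)) (g * (p + q))
    have s5 := abs_add_le (kap + mu * ((a - a1) + (b - b1) - 1)) (t * mu * (c - c1))
    have s6 := abs_add_le kap (mu * ((a - a1) + (b - b1) - 1))
    linarith
  refine n1.trans ?_
  have n2 : |kap| + 9 * mu + 5 * mu + 2 * |g| ≤ (20 * η * a * b + K * mu) + 14 * mu + 42 * (a * b) / mu := by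
    have : 2 * |g| ≤ 42 * (a * b) / mu := by
      rw [le_div_iff₀ hmu0]; nlinarith
    linarith
  refine n2.trans ?_
  have hη : 0 ≤ 40 * η + 2 * K / mu + 114 / mu := by
    have h1 : 0 ≤ 20 * η * a * b + K * mu := le_trans (abs_nonneg _) hkap
    have h2 : 0 ≤ (20 * η * a * b + K * mu) / (a * b) := by positivity
    have h3 : (20 * η * a * b + K * mu) / (a * b) = 20 * η + K * mu / (a * b) := by
      field_simp
    have h4 : K * mu / (a * b) ≤ K / mu := by
      rw [div_le_div_iff₀ hab hmu0]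
      have h5 : mu * mu ≤ a * b := mul_le_mul hma hmb hmu0.le ha.le
      nlinarith
    have h6 : 0 ≤ 114 / mu := by positivity
    have h7 : 2 * K / mu = 2 * (K / mu) := by ring
    rw [h3] at h2
    rw [h7]
    linarith
  have n3 : (40 * η + 2 * K / mu + 114 / mu) * (a * b / 2) ≤ (40 * η + 2 * K / mu + 114 / mu) * E :=
    mul_le_mul_of_nonneg_left hEpos hη
  refine le_trans ?_ n3
  have h5 : mu * mu ≤ a * b := mul_le_mul hma hmb hmu0.le ha.le
  have e : (40 * η + 2 * K / mu + 114 / mu) * (a * b / 2)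
      = 20 * η * a * b + (K * (a * b) / mu) + 57 * (a * b) / mu := by ring
  rw [e]
  have m1 : K * mu ≤ K * (a * b) / mu := by
    rw [le_div_iff₀ hmu0]; nlinarith
  have m2 : 14 * mu ≤ 14 * (a * b) / mu := by
    rw [le_div_iff₀ hmu0]; nlinarith
  have m3 : 57 * (a * b) / mu = 42 * (a * b) / mu + 14 * (a * b) / mu + (a * b) / mu := by ring
  have m4 : 0 ≤ (a * b) / mu := by positivity
  linarith

lemma sh_fr_union_le {k : ℕ} {W : Finset V} {m : Multiset (Finset V)} (hm : Val G k W m) (X Y : Set V) :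
    0 ≤ sh (fr (X ∪ Y)) m ∧ sh (fr (X ∪ Y)) m ≤ sh (fr X) m ∧ sh (fr (X ∪ Y)) m ≤ sh (fr Y) m := by
  refine ⟨?_, ?_, ?_⟩
  · have := sh_mono hm (fun _ => 0) (fr (X ∪ Y)) (fun D _ => by unfold fr; split_ifs <;> norm_num)
    rwa [sh_const hm, mul_zero] at this
  · refine sh_mono hm _ _ (fun D _ => ?_)
    unfold fr
    by_cases h : ∀ y ∈ D, y ∉ X ∪ Y
    · have h' : ∀ y ∈ D, y ∉ X := fun y hy hyX => h y hy (Or.inl hyX)
      rw [if_pos h, if_pos h']
    · rw [if_neg h]; split_ifs <;> norm_num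
  · refine sh_mono hm _ _ (fun D _ => ?_)
    unfold fr
    by_cases h : ∀ y ∈ D, y ∉ X ∪ Y
    · have h' : ∀ y ∈ D, y ∉ Y := fun y hy hyX => h y hy (Or.inr hyX)
      rw [if_pos h, if_pos h']
    · rw [if_neg h]; split_ifs <;> norm_num

/-- size biasing by the number of unused colours -/
lemma Ex_em_mul (k : ℕ) (W : Finset V) (Φ : Multiset (Finset V) → ℝ) (hk : 1 ≤ k) :
    Ex G k W (fun m => sh em m * Φ m) = J G k W * Ex G (k-1) W (fun m => Φ (∅ ::ₘ m)) := by
  rw [Ex_ex]
  have e : ED G k W (fun D => em D * Ex G (k-1) (W \ D) (fun m => Φ (D ::ₘ m)))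
      = ED G k W em * Ex G (k-1) W (fun m => Φ (∅ ::ₘ m)) := by
    have e1 : ED G k W (fun D => em D * Ex G (k-1) (W \ D) (fun m => Φ (D ::ₘ m)))
        = ED G k W (fun D => Ex G (k-1) W (fun m => Φ (∅ ::ₘ m)) * em D) := by
      refine ED_congr k W _ _ (fun D _ => ?_)
      unfold em
      by_cases hD : D = ∅
      · subst hD; simp
      · simp [hD]
    rw [e1, ED_mul_left]; ring
  rw [e, ED_em k W hk]
  have : (k:ℝ) ≠ 0 := by positivity
  field_simp

end SD

theorem second_diff (k : ℕ) (W : Finset V) (hc : W.card + 2 ≤ k) (x y : V) (hx : x ∉ W) (hy : y ∉ W)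
    (hxy : x ≠ y) (η : ℝ) (h0 : 0 < η) (h1 : η ≤ 1) (hJ : 42 ≤ J G k W) :
    |J G k (insert x (insert y W)) - J G k (insert x W) - J G k (insert y W) + J G k W|
      ≤ 40 * η + 14 * (2 / η + 1) ^ 2 / (η * J G k W) + 114 / J G k W := by
  have hcW : W.card ≤ k := by omega
  have hcW1 : W.card + 1 ≤ k := by omega
  have hcW' : W.card ≤ k - 1 := by omega
  have hk1 : 1 ≤ k := by omega
  set X := G.neighborSet x with hX
  set Y := G.neighborSet y with hY
  set t : ℝ := (if G.Adj x y then 1 else 0) with ht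
  have ht0 : 0 ≤ t := by rw [ht]; split_ifs <;> norm_num
  have ht1 : t ≤ 1 := by rw [ht]; split_ifs <;> norm_num
  set Q : Multiset (Finset V) → ℝ := fun m => sh (fr X) m * sh (fr Y) m - t * sh (fr (X ∪ Y)) m with hQ
  have hP0 : 0 < P G k W := P_pos k W hcW
  have hP1 : 0 < P G (k-1) W := P_pos (k-1) W hcW'
  -- expectations
  have hPk : P G k (insert x (insert y W)) = P G k W * Ex G k W Q := by
    rw [P_insert2 k W x y hx hy hxy, P_mul_Ex]
  have hPk1 : P G (k-1) (insert x (insert y W)) = P G (k-1) W * Ex G (k-1) W Q := by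
    rw [P_insert2 (k-1) W x y hx hy hxy, P_mul_Ex]
  have hJ2 : J G k (insert x (insert y W)) = J G k W * Ex G (k-1) W Q / Ex G k W Q := by
    unfold J
    rw [hPk, hPk1]
    have hpos : 0 < P G k (insert x (insert y W)) := by
      refine P_pos k _ ?_
      have h2 := Finset.card_insert_le x (insert y W)
      have h3 := Finset.card_insert_le y W
      omega
    rw [hPk] at hpos
    have hne : Ex G k W Q ≠ 0 := by
      intro h; rw [h, mul_zero] at hpos; exact lt_irrefl _ hpos
    field_simp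
  have hJx : J G k (insert x W) = J G k W * a G (k-1) W (fr X) / a G k W (fr X) := by
    unfold J
    rw [P_insert k W x hx, P_insert (k-1) W x hx, ← hX]
    have hne : a G k W (fr X) ≠ 0 := by
      have := J_le_a (G := G) k W X
      intro h; rw [h] at this; linarith
    field_simp
  have hJy : J G k (insert y W) = J G k W * a G (k-1) W (fr Y) / a G k W (fr Y) := by
    unfold J
    rw [P_insert k W y hy, P_insert (k-1) W y hy, ← hY]
    have hne : a G k W (fr Y) ≠ 0 := by
      have := J_le_a (G := G) k W Y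
      intro h; rw [h] at this; linarith
    field_simp
  have hEmX := SD.Ex_em_mul (G := G) k W (fun m => sh (fr X) m) hk1
  have hEmY := SD.Ex_em_mul (G := G) k W (fun m => sh (fr Y) m) hk1
  have hEmC := SD.Ex_em_mul (G := G) k W (fun m => sh (fr (X ∪ Y)) m) hk1
  have hEmQ := SD.Ex_em_mul (G := G) k W Q hk1
  have hfe : ∀ Z : Set V, fr Z (∅ : Finset V) = 1 := fun Z => by simp [fr]
  have hA1 : ∀ Z : Set V, Ex G (k-1) W (fun m => sh (fr Z) (∅ ::ₘ m)) = a G (k-1) W (fr Z) + 1 := by
    intro Z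
    have e : (fun m => sh (fr Z) (∅ ::ₘ m)) = fun m => (1:ℝ) + sh (fr Z) m := by
      funext m; rw [sh_cons, hfe]
    rw [e, Ex_add, Ex_const (k-1) W hcW']
    have : Ex G (k-1) W (fun m => sh (fr Z) m) = a G (k-1) W (fr Z) := rfl
    rw [this]; ring
  rw [hA1] at hEmX hEmY hEmC
  have hQ1 : Ex G (k-1) W (fun m => Q (∅ ::ₘ m)) = Ex G (k-1) W Q
      + (a G (k-1) W (fr X) + a G (k-1) W (fr Y) + 1 - t) := by
    have e : (fun m => Q (∅ ::ₘ m)) = fun m => Q m + (sh (fr X) m + (sh (fr Y) m + (1 - t))) := by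
      funext m
      simp only [hQ]
      rw [sh_cons, sh_cons, sh_cons, hfe, hfe, hfe]; ring
    rw [e, Ex_add, Ex_add, Ex_add, Ex_const (k-1) W hcW']
    have e1 : Ex G (k-1) W (fun m => sh (fr X) m) = a G (k-1) W (fr X) := rfl
    have e2 : Ex G (k-1) W (fun m => sh (fr Y) m) = a G (k-1) W (fr Y) := rfl
    have e3 : Ex G (k-1) W (fun m => Q m) = Ex G (k-1) W Q := rfl
    rw [e1, e2, e3]; ring
  rw [hQ1] at hEmQ
  -- the covariance g
  have hEQ : Ex G k W Q = Ex G k W (fun m => sh (fr X) m * sh (fr Y) m) - t * a G k W (fr (X ∪ Y)) := by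
    rw [hQ, Ex_sub, Ex_mul_left]; rfl
  set mu := J G k W with hmu
  set aa := a G k W (fr X) with haa
  set bb := a G k W (fr Y) with hbb
  set cc := a G k W (fr (X ∪ Y)) with hcc
  set kap := Ex G k W (fun m => (sh (fr X) m - aa) * (sh (fr Y) m - bb) * (sh em m - mu)) with hkapdef
  have hkap := kappa_le (G := G) k W hc (by linarith) X Y η h0 h1
  rw [← hmu, ← haa, ← hbb, ← hkapdef] at hkap
  have hExX : Ex G k W (fun m => sh (fr X) m) = aa := rfl
  have hExY : Ex G k W (fun m => sh (fr Y) m) = bb := rfl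
  have hExC : Ex G k W (fun m => sh (fr (X ∪ Y)) m) = cc := rfl
  have hExU : Ex G k W (fun m => sh em m) = mu := J_eq_a k W
  -- expansion of kap
  have hkapexp : Ex G k W (fun m => sh em m * (sh (fr X) m * sh (fr Y) m))
      = kap + mu * Ex G k W (fun m => sh (fr X) m * sh (fr Y) m)
        + bb * Ex G k W (fun m => sh em m * sh (fr X) m) + aa * Ex G k W (fun m => sh em m * sh (fr Y) m)
        - 2 * aa * bb * mu := by
    have e : (fun m => sh em m * (sh (fr X) m * sh (fr Y) m))
        = fun m => (sh (fr X) m - aa) * (sh (fr Y) m - bb) * (sh em m - mu)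
          + (mu * (sh (fr X) m * sh (fr Y) m) + (bb * (sh em m * sh (fr X) m)
          + (aa * (sh em m * sh (fr Y) m) - (aa * bb * sh em m + (mu * bb * sh (fr X) m + (mu * aa * sh (fr Y) m - aa * bb * mu)))))) := by
      funext m; ring
    rw [e, Ex_add, Ex_add, Ex_add, Ex_sub, Ex_add, Ex_add, Ex_sub, Ex_mul_left, Ex_mul_left, Ex_mul_left,
      Ex_mul_left, Ex_mul_left, Ex_mul_left, Ex_const k W hcW, hExX, hExY, hExU]
    ring
  have hemQ2 : Ex G k W (fun m => sh em m * Q m)
      = Ex G k W (fun m => sh em m * (sh (fr X) m * sh (fr Y) m))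
        - t * Ex G k W (fun m => sh em m * sh (fr (X ∪ Y)) m) := by
    have e : (fun m => sh em m * Q m)
        = fun m => sh em m * (sh (fr X) m * sh (fr Y) m) - t * (sh em m * sh (fr (X ∪ Y)) m) := by
      funext m; simp only [hQ]; ring
    rw [e, Ex_sub, Ex_mul_left]
  have hcolX := a_colour (G := G) k W hcW1 X
  have hcolY := a_colour (G := G) k W hcW1 Y
  have hcolC := a_colour (G := G) k W hcW1 (X ∪ Y)
  rw [← haa] at hcolX
  rw [← hbb] at hcolY
  rw [← hcc] at hcolC
  have hca : 0 ≤ cc ∧ cc ≤ aa ∧ cc ≤ bb := by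
    refine ⟨?_, ?_, ?_⟩
    · exact Ex_nonneg k W _ (fun m hm => (SD.sh_fr_union_le hm X Y).1)
    · exact Ex_mono k W _ _ (fun m hm => (SD.sh_fr_union_le hm X Y).2.1)
    · exact Ex_mono k W _ _ (fun m hm => (SD.sh_fr_union_le hm X Y).2.2)
  have hcovY := cov_le (G := G) k W hcW1 X Y
  have hcovX := cov_le (G := G) k W hcW1 Y X
  have hcomm : Ex G k W (fun m => sh (fr Y) m * sh (fr X) m) = Ex G k W (fun m => sh (fr X) m * sh (fr Y) m) :=
    Ex_congr k W _ _ (fun m _ => mul_comm _ _)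
  rw [hcomm] at hcovX
  rw [← haa, ← hbb] at hcovX hcovY
  set EAB := Ex G k W (fun m => sh (fr X) m * sh (fr Y) m) with hEAB
  have htc : t * cc ≤ aa ∧ t * cc ≤ bb ∧ 0 ≤ t * cc := by
    obtain ⟨q1, q2, q3⟩ := hca
    refine ⟨?_, ?_, ?_⟩
    · have := mul_le_mul_of_nonneg_right ht1 q1
      linarith
    · have := mul_le_mul_of_nonneg_right ht1 q1
      linarith
    · positivity
  have hga : |EAB - aa * bb - t * cc| ≤ 21 * aa := by
    have e := abs_le.1 hcovX
    rw [abs_le]
    constructor <;> linarith [e.1, e.2, htc.1, htc.2.1, htc.2.2]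
  have hgb : |EAB - aa * bb - t * cc| ≤ 21 * bb := by
    have e := abs_le.1 hcovY
    rw [abs_le]
    constructor <;> linarith [e.1, e.2, htc.1, htc.2.1, htc.2.2]
  have hp : mu - mu * a G (k-1) W (fr X) / aa ≤ 1 := by
    have h2 := J_erase_le (G := G) k (insert x W) x (Finset.mem_insert_self _ _)
      (by rw [Finset.card_insert_of_notMem hx]; omega)
    rw [Finset.erase_insert hx] at h2
    rw [← hJx]; rw [← hmu] at h2; linarith
  have hq : mu - mu * a G (k-1) W (fr Y) / bb ≤ 1 := by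
    have h2 := J_erase_le (G := G) k (insert y W) y (Finset.mem_insert_self _ _)
      (by rw [Finset.card_insert_of_notMem hy]; omega)
    rw [Finset.erase_insert hy] at h2
    rw [← hJy]; rw [← hmu] at h2; linarith
  have hfin := SD.core mu aa bb cc (a G (k-1) W (fr X)) (a G (k-1) W (fr Y)) (a G (k-1) W (fr (X ∪ Y))) t kap
    (EAB - aa * bb - t * cc) (Ex G k W Q) (Ex G (k-1) W Q) η (7 * (2 / η + 1) ^ 2 / η)
    hJ (J_le_a k W X) (J_le_a k W Y) ht0 ht1 hcolX.1 hcolX.2 hcolY.1 hcolY.2 hcolC.1 hcolC.2 hga hgb hp hq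
    (by rw [hEQ]; ring)
    (by
      rw [hemQ2, hkapexp, hEmX, hEmY, hEmC] at hEmQ
      rw [hEQ]
      linear_combination -hEmQ)
    (by
      refine hkap.trans (le_of_eq ?_)
      ring)
    (by positivity)
  rw [hJ2, hJx, hJy]
  refine hfin.trans (le_of_eq ?_)
  ring

end

end Helper87.BWL
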