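import Mathlib
import Pool.Agent.Helper87.BW.Cnd
import Pool.Agent.Helper87.BW.Infl
import Pool.Agent.Helper87.BW.Second

set_option autoImplicit false

/-!
Linearisation of the mean number of unused colours (part HA of the large graph case).
-/

namespace Helper87.BWL

open Finset Classical Helper53.BW

noncomputable section

variable {V : Type*} {G : SimpleGraph V}

/-- small second differences on level `k-1` strictly below `W` -/
def SDp (G : SimpleGraph V) (k : ℕ) (W : Finset V) (ε : ℝ) : Prop :=
  ∀ H : Finset V, ∀ x y : V, x ∉ H → y ∉ H → x ≠ y → insert x (insert y H) ⊂ W →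
    |J G (k-1) (insert x (insert y H)) - J G (k-1) (insert x H) - J G (k-1) (insert y H)
      + J G (k-1) H| ≤ ε

/-- `J_{k-1}(H) ≥ J_k(W) - 1` for `H ⊂ W` -/
lemma J_below (k : ℕ) (W H : Finset V) (hc : W.card ≤ k) (hH : H ⊂ W) :
    J G k W - 1 ≤ J G (k-1) H := by
  have h1 := Finset.card_lt_card hH
  obtain ⟨l, rfl⟩ : ∃ l, k = l + 1 := ⟨k - 1, by omega⟩
  have h2 := J_anti (G := G) (l + 1) H W hH.subset hc
  have h3 := J_succ_le (G := G) l H (by omega)
  simp only [Nat.add_sub_cancel]
  linarith

theorem sdp_of (ε : ℝ) (h : 0 < ε) : ∃ M : ℝ, ∀ {V : Type} (G : SimpleGraph V) (k : ℕ) (W : Finset V),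
    W.card ≤ k → M ≤ J G k W → SDp G k W ε := by
  set η : ℝ := min 1 (ε / 120) with hη
  have hη0 : 0 < η := lt_min one_pos (by positivity)
  have hη1 : η ≤ 1 := min_le_left _ _
  have hη2 : 40 * η ≤ ε / 3 := by
    have : η ≤ ε / 120 := min_le_right _ _
    linarith
  set A : ℝ := 14 * (2 / η + 1) ^ 2 / η with hA
  have hA0 : 0 ≤ A := by positivity
  refine ⟨43 + 3 * A / ε + 342 / ε, ?_⟩
  intro V G k W hc hM H x y hx hy hxy hsub
  have hcard : (insert x (insert y H)).card = H.card + 2 := by
    have hx' : x ∉ insert y H := by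
      rw [Finset.mem_insert]; push Not; exact ⟨hxy, hx⟩
    rw [Finset.card_insert_of_notMem hx', Finset.card_insert_of_notMem hy]
  have h1 := Finset.card_lt_card hsub
  have hHW : H ⊂ W := by
    refine lt_of_le_of_lt ?_ hsub
    exact (Finset.subset_insert y H).trans (Finset.subset_insert x _)
  have hJ := J_below (G := G) k W H hc hHW
  have hB : 42 + 3 * A / ε + 342 / ε ≤ J G (k-1) H := by linarith
  have hB1 : 0 ≤ 3 * A / ε := by positivity
  have hB2 : 0 ≤ 342 / ε := by positivity
  have hB3 : (0:ℝ) < J G (k-1) H := by linarith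
  have h2 := second_diff (G := G) (k-1) H (by omega) x y hx hy hxy η hη0 hη1 (by linarith)
  refine h2.trans ?_
  have h3 : 14 * (2 / η + 1) ^ 2 / (η * J G (k-1) H) ≤ ε / 3 := by
    have e : 14 * (2 / η + 1) ^ 2 / (η * J G (k-1) H) = A / J G (k-1) H := by
      rw [hA]; field_simp
    rw [e, div_le_iff₀ hB3]
    have : 3 * A / ε ≤ J G (k-1) H := by linarith
    rw [div_le_iff₀ h] at this
    linarith
  have h4 : 114 / J G (k-1) H ≤ ε / 3 := by
    rw [div_le_iff₀ hB3]
    have : 342 / ε ≤ J G (k-1) H := by linarith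
    rw [div_le_iff₀ h] at this
    linarith
  linarith

/-- increments of `S ↦ J (R \ S)` vary slowly -/
lemma nl_step (k : ℕ) (W : Finset V) (ε : ℝ) (h : SDp G k W ε) (R : Finset V) (hR : R ⊂ W)
    (x : V) (hxR : x ∈ R) (T : Finset V) (hT : T ⊆ R) (hxT : x ∉ T) :
    |J G (k-1) (R \ insert x T) - J G (k-1) (R \ T) - (J G (k-1) (R.erase x) - J G (k-1) R)|
      ≤ ε * T.card := by
  induction T using Finset.induction_on with
  | empty =>
    have e : R \ insert x ∅ = R.erase x := by
      ext z; simp only [Finset.mem_sdiff, Finset.mem_insert, Finset.notMem_empty, or_false,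
        Finset.mem_erase]; tauto
    rw [e]; simp
  | insert y T hy ih =>
    rw [Finset.insert_subset_iff] at hT
    rw [Finset.mem_insert] at hxT
    push Not at hxT
    have ih' := ih hT.2 hxT.2
    set H : Finset V := R \ insert x (insert y T) with hH
    have hxH : x ∉ H := by simp [hH]
    have hyH : y ∉ H := by simp [hH]
    have e1 : insert y H = R \ insert x T := by
      ext z; simp only [hH, Finset.mem_sdiff, Finset.mem_insert]
      constructor
      · rintro (rfl | h)
        · exact ⟨hT.1, by push Not; exact ⟨hxT.1.symm, hy⟩⟩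
        · exact ⟨h.1, by tauto⟩
      · intro h
        by_cases hz : z = y
        · left; exact hz
        · right; exact ⟨h.1, by tauto⟩
    have e2 : insert x H = R \ insert y T := by
      ext z; simp only [hH, Finset.mem_sdiff, Finset.mem_insert]
      constructor
      · rintro (rfl | h)
        · exact ⟨hxR, by push Not; exact ⟨hxT.1, hxT.2⟩⟩
        · exact ⟨h.1, by tauto⟩
      · intro h
        by_cases hz : z = x
        · left; exact hz
        · right; exact ⟨h.1, by tauto⟩
    have e3 : insert x (insert y H) = R \ T := by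
      rw [e1]
      ext z; simp only [Finset.mem_sdiff, Finset.mem_insert]
      constructor
      · rintro (rfl | h)
        · exact ⟨hxR, hxT.2⟩
        · exact ⟨h.1, by tauto⟩
      · intro h
        by_cases hz : z = x
        · left; exact hz
        · right; exact ⟨h.1, by tauto⟩
    have h2 := h H x y hxH hyH hxT.1 (by
      rw [e3]; exact lt_of_le_of_lt Finset.sdiff_subset hR)
    rw [e3, e2, e1] at h2
    rw [Finset.card_insert_of_notMem hy]
    push_cast
    rw [abs_le] at h2 ih' ⊢
    constructor <;> linarith [h2.1, h2.2, ih'.1, ih'.2]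

/-- second-order Taylor bound; the right side may be improved to `ε * T.card ^ 2 / 2` but is frozen so -/
lemma nl (k : ℕ) (W : Finset V) (ε : ℝ) (h0 : 0 ≤ ε) (h : SDp G k W ε) (R : Finset V) (hR : R ⊂ W)
    (T : Finset V) (hT : T ⊆ R) :
    |J G (k-1) (R \ T) - J G (k-1) R - ∑ x ∈ T, (J G (k-1) (R.erase x) - J G (k-1) R)|
      ≤ ε / 2 * cd T ^ 2 := by
  induction T using Finset.induction_on with
  | empty => simp [cd]
  | insert y T hy ih =>
    rw [Finset.insert_subset_iff] at hT
    have ih' := ih hT.2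
    have h1 := nl_step k W ε h R hR y hT.1 T hT.2 hy
    rw [Finset.sum_insert hy]
    have e : cd (insert y T) = cd T + 1 := by
      unfold cd; rw [Finset.card_insert_of_notMem hy]; push_cast; ring
    have e' : (T.card : ℝ) = cd T := rfl
    rw [e]
    rw [e'] at h1
    have hsq : ε / 2 * (cd T + 1) ^ 2 = ε / 2 * cd T ^ 2 + ε * cd T + ε / 2 := by ring
    rw [hsq]
    rw [abs_le] at h1 ih' ⊢
    constructor <;> linarith [h1.1, h1.2, ih'.1, ih'.2]

lemma erase_comm' (W : Finset V) (u v : V) : (W.erase u).erase v = (W.erase v).erase u :=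
  Finset.erase_right_comm

/-- the interaction of two vertices does not depend on one of them, up to `2ε` -/
lemma theta_change (k : ℕ) (W : Finset V) (ε : ℝ) (h0 : 0 ≤ ε) (h : SDp G k W ε) (u u' v : V)
    (hu : u ∈ W) (hu' : u' ∈ W) (hv : v ∈ W) (huv : u ≠ v) (huv' : u' ≠ v) :
    |(J G (k-1) (W.erase u) + J G (k-1) (W.erase v) - J G (k-1) ((W.erase u).erase v))
      - (J G (k-1) (W.erase u') + J G (k-1) (W.erase v) - J G (k-1) ((W.erase u').erase v))|
      ≤ 2 * ε := by
  by_cases huu : u = u'
  · subst huu; simp; exact h0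
  set H : Finset V := ((W.erase u).erase v).erase u' with hH
  have hu1 : u ∉ H := by simp [hH]
  have hu2 : u' ∉ H := by simp [hH]
  have hv1 : v ∉ H := by simp [hH]
  have e1 : insert u' H = (W.erase u).erase v := by
    rw [hH, Finset.insert_erase]
    simp only [Finset.mem_erase]
    exact ⟨huv', fun h => huu h.symm, hu'⟩
  have e2 : insert u H = (W.erase u').erase v := by
    have : H = ((W.erase u').erase v).erase u := by
      ext z; simp only [hH, Finset.mem_erase]; tauto
    rw [this, Finset.insert_erase]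
    simp only [Finset.mem_erase]
    exact ⟨huv, huu, hu⟩
  have e3 : insert u' (insert v H) = W.erase u := by
    rw [Finset.insert_comm, e1, Finset.insert_erase]
    simp only [Finset.mem_erase]
    exact ⟨huv.symm, hv⟩
  have e4 : insert u (insert v H) = W.erase u' := by
    rw [Finset.insert_comm, e2, Finset.insert_erase]
    simp only [Finset.mem_erase]
    exact ⟨huv'.symm, hv⟩
  have s1 := h H u' v hu2 hv1 huv' (by rw [e3]; exact Finset.erase_ssubset hu)
  have s2 := h H u v hu1 hv1 huv (by rw [e4]; exact Finset.erase_ssubset hu')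
  rw [e3, e1] at s1
  rw [e4, e2] at s2
  rw [abs_le] at s1 s2 ⊢
  constructor <;> linarith [s1.1, s1.2, s2.1, s2.2]

lemma theta_const (k : ℕ) (W : Finset V) (ε : ℝ) (h0 : 0 ≤ ε) (h : SDp G k W ε) (p q : V)
    (hp : p ∈ W) (hq : q ∈ W) (hpq : p ≠ q) (u v : V) (hu : u ∈ W) (hv : v ∈ W) (huv : u ≠ v) :
    |(J G (k-1) (W.erase u) + J G (k-1) (W.erase v) - J G (k-1) ((W.erase u).erase v))
      - (J G (k-1) (W.erase p) + J G (k-1) (W.erase q) - J G (k-1) ((W.erase p).erase q))|
      ≤ 4 * ε := by
  by_cases hpv : p = v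
  · subst hpv
    have h1 := theta_change k W ε h0 h u q p hu hq hp huv hpq.symm
    rw [erase_comm' W p q]
    rw [abs_le] at h1 ⊢
    constructor <;> linarith [h1.1, h1.2]
  · have h1 := theta_change k W ε h0 h u p v hu hp hv huv hpv
    by_cases hqv : q = v
    · subst hqv
      rw [abs_le] at h1 ⊢
      constructor <;> linarith [h1.1, h1.2]
    · have h2 := theta_change k W ε h0 h v q p hv hq hp (fun h => hpv h.symm) hpq.symm
      rw [erase_comm' W v p, erase_comm' W q p] at h2
      rw [abs_le] at h1 h2 ⊢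
      constructor <;> linarith [h1.1, h1.2, h2.1, h2.2]

lemma cnd_approx (k : ℕ) (W : Finset V) (Y : Set V) (hc : W.card + 1 ≤ k)
    (φ χ : Finset V → ℝ) (c1 c2 : ℝ) (hc1 : 0 ≤ c1) (hc2 : 0 ≤ c2)
    (h : ∀ D ∈ I G W, |φ D - χ D| ≤ c1 * cd D ^ 2 + c2 * cd D) :
    |cnd G k W Y φ - cnd G k W Y χ| ≤ 2 * c1 + c2 := by
  rw [← cnd_sub]
  refine (cnd_abs k W Y _).trans ?_
  refine (cnd_mono k W Y _ (fun D => c1 * cd D ^ 2 + c2 * cd D) (fun D hD _ => h D hD)).trans ?_
  rw [cnd_add, cnd_mul_left, cnd_mul_left]
  have h1 := cnd_sq_le (G := G) k W Y hc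
  have h2 := cnd_cd_le (G := G) k W Y hc
  nlinarith [mul_le_mul_of_nonneg_left h1 hc1, mul_le_mul_of_nonneg_left h2 hc2]

/-- linearization. Take `j0 := J(W-p)+J(W-q)-J(W-p-q)` for two fixed distinct `p q` in `W`,
`w x := J(W-x) - j0`. -/
theorem linearize (k : ℕ) (W : Finset V) (hc : W.card ≤ k) (h2 : 2 ≤ W.card) (ε : ℝ) (h0 : 0 ≤ ε)
    (h : SDp G k W ε) : ∃ (j0 : ℝ) (w : V → ℝ),
      (∀ x ∈ W, ∀ v ∈ W, x ≠ v → |J G (k-1) ((W.erase v).erase x) - J G (k-1) (W.erase v) - w x| ≤ 4 * ε) ∧
      (∀ x ∈ W, |w x + tx G k W x (wt w) - (J G k W - j0)| ≤ 6 * ε) ∧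
      (∀ u ∈ W, ∀ v ∈ W, G.Adj u v →
        J G k W + w u + w v + te G k W u v (wt w) - (J G k W - j0) - 13 * ε
          ≤ te G k W u v (fun T => J G (k-1) (((W.erase u).erase v) \ T))) ∧
      (∀ x ∈ W, -(4 * ε) ≤ w x) ∧ (∀ x ∈ W, w x ≤ 1 + 4 * ε) := by
  obtain ⟨p, hp, q, hq, hpq⟩ := Finset.one_lt_card.1 (by omega : 1 < W.card)
  set j0 : ℝ := J G (k-1) (W.erase p) + J G (k-1) (W.erase q) - J G (k-1) ((W.erase p).erase q)
    with hj0
  set w : V → ℝ := fun x => J G (k-1) (W.erase x) - j0 with hw
  have hth := theta_const (G := G) k W ε h0 h p q hp hq hpq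
  rw [← hj0] at hth
  have H1 : ∀ x ∈ W, ∀ v ∈ W, x ≠ v →
      |J G (k-1) ((W.erase v).erase x) - J G (k-1) (W.erase v) - w x| ≤ 4 * ε := by
    intro x hx v hv hxv
    have := hth v x hv hx hxv.symm
    simp only [hw]
    rw [abs_le] at this ⊢
    constructor <;> linarith [this.1, this.2]
  have hcard : ∀ v ∈ W, (W.erase v).card + 1 = W.card := fun v hv => Finset.card_erase_add_one hv
  have hex : ∀ x ∈ W, ∃ v ∈ W, x ≠ v := by
    intro x hx
    by_cases hxp : x = p
    · exact ⟨q, hq, by rw [hxp]; exact hpq⟩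
    · exact ⟨p, hp, hxp⟩
  refine ⟨j0, w, H1, ?_, ?_, ?_, ?_⟩
  · intro x hx
    have hR : W.erase x ⊂ W := Finset.erase_ssubset hx
    have hcx := hcard x hx
    have e1 : J G k W = cnd G k (W.erase x) (G.neighborSet x)
        (fun D => J G (k-1) (W.erase x \ D)) := by
      have := J_insert (G := G) k (W.erase x) x (Finset.notMem_erase x W) (by omega)
      rw [Finset.insert_erase hx] at this
      rw [this]; rfl
    have e2 : w x + tx G k W x (wt w) + j0 = cnd G k (W.erase x) (G.neighborSet x)
        (fun D => J G (k-1) (W.erase x) + wt w D) := by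
      rw [cnd_add, cnd_const k _ _ (by omega)]
      simp only [hw, tx]; ring
    have e3 : w x + tx G k W x (wt w) - (J G k W - j0) =
        -(cnd G k (W.erase x) (G.neighborSet x) (fun D => J G (k-1) (W.erase x \ D))
        - cnd G k (W.erase x) (G.neighborSet x) (fun D => J G (k-1) (W.erase x) + wt w D)) := by
      rw [← e1, ← e2]; ring
    rw [e3, abs_neg]
    refine (cnd_approx k (W.erase x) _ (by omega) _ _ (ε / 2) (4 * ε) (by linarith) (by linarith)
      (fun D hD => ?_)).trans (by linarith)
    have hDs : D ⊆ W.erase x := (mem_I.1 hD).1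
    have n1 := nl k W ε h0 h (W.erase x) hR D hDs
    have n2 : |∑ y ∈ D, (J G (k-1) ((W.erase x).erase y) - J G (k-1) (W.erase x)) - wt w D|
        ≤ 4 * ε * cd D := by
      unfold wt
      rw [← Finset.sum_sub_distrib]
      refine (Finset.abs_sum_le_sum_abs _ _).trans ?_
      have : ∑ y ∈ D, |J G (k-1) ((W.erase x).erase y) - J G (k-1) (W.erase x) - w y|
          ≤ ∑ y ∈ D, 4 * ε := by
        refine Finset.sum_le_sum (fun y hy => ?_)
        have hy' := Finset.mem_erase.1 (hDs hy)
        exact H1 y hy'.2 x hx hy'.1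
      rw [Finset.sum_const, nsmul_eq_mul] at this
      unfold cd
      linarith
    rw [abs_le] at n1 n2 ⊢
    constructor <;> linarith [n1.1, n1.2, n2.1, n2.2]
  · intro u hu v hv hadj
    have huv : u ≠ v := hadj.ne
    have hvu : v ∈ W.erase u := Finset.mem_erase.2 ⟨huv.symm, hv⟩
    have hcu := hcard u hu
    have hcv : ((W.erase u).erase v).card + 1 = (W.erase u).card := Finset.card_erase_add_one hvu
    set H := (W.erase u).erase v with hH
    have hHW : H ⊂ W := lt_of_le_of_lt (Finset.erase_subset v _) (Finset.erase_ssubset hu)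
    have e2 : J G (k-1) H + te G k W u v (wt w) = cnd G k H
        (G.neighborSet u ∪ G.neighborSet v) (fun D => J G (k-1) H + wt w D) := by
      rw [cnd_add, cnd_const k _ _ (by omega)]
      simp only [te, hH]
    have key := cnd_approx (G := G) k H (G.neighborSet u ∪ G.neighborSet v) (by omega)
      (fun T => J G (k-1) (H \ T)) (fun D => J G (k-1) H + wt w D) (ε / 2) (5 * ε) (by linarith)
      (by linarith) (fun D hD => by
        have hDs : D ⊆ H := (mem_I.1 hD).1
        have n1 := nl k W ε h0 h H hHW D hDs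
        have n2 : |∑ y ∈ D, (J G (k-1) (H.erase y) - J G (k-1) H) - wt w D|
            ≤ 5 * ε * cd D := by
          unfold wt
          rw [← Finset.sum_sub_distrib]
          refine (Finset.abs_sum_le_sum_abs _ _).trans ?_
          have : ∑ y ∈ D, |J G (k-1) (H.erase y) - J G (k-1) H - w y|
              ≤ ∑ y ∈ D, 5 * ε := by
            refine Finset.sum_le_sum (fun y hy => ?_)
            have hyH := hDs hy
            have hy1 := Finset.mem_erase.1 hyH
            have hy2 := Finset.mem_erase.1 hy1.2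
            have s1 := H1 y hy2.2 u hu hy2.1
            have s2 := h (H.erase y) y v (Finset.notMem_erase y H)
              (fun hh => Finset.notMem_erase v (W.erase u) (Finset.mem_of_mem_erase hh)) hy1.1 (by
                rw [Finset.insert_comm, Finset.insert_erase hyH, hH, Finset.insert_erase hvu]
                exact Finset.erase_ssubset hu)
            have e5 : insert v (H.erase y) = (W.erase u).erase y := by
              rw [hH, erase_comm' (W.erase u) v y, Finset.insert_erase]
              exact Finset.mem_erase.2 ⟨fun hh => hy1.1 hh.symm, hvu⟩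
            have e6 : insert y (insert v (H.erase y)) = W.erase u := by
              rw [Finset.insert_comm, Finset.insert_erase hyH, hH, Finset.insert_erase hvu]
            rw [e6, e5, Finset.insert_erase hyH] at s2
            rw [abs_le] at s1 s2 ⊢
            constructor <;> linarith [s1.1, s1.2, s2.1, s2.2]
          rw [Finset.sum_const, nsmul_eq_mul] at this
          unfold cd
          linarith
        rw [abs_le] at n1 n2 ⊢
        constructor <;> linarith [n1.1, n1.2, n2.1, n2.2])
    have e7 : te G k W u v (fun T => J G (k-1) (H \ T)) =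
        cnd G k H (G.neighborSet u ∪ G.neighborSet v) (fun T => J G (k-1) (H \ T)) := rfl
    rw [e7]
    rw [← e2] at key
    have t1 := hth u v hu hv huv
    rw [← hH] at t1
    rw [abs_le] at key t1
    simp only [hw]
    simp only [hw] at key
    linarith [key.1, key.2, t1.1, t1.2]
  · intro x hx
    obtain ⟨v, hv, hxv⟩ := hex x hx
    have h1 := H1 x hx v hv hxv
    have hcv := hcard v hv
    have h3 := J_anti (G := G) (k-1) ((W.erase v).erase x) (W.erase v) (Finset.erase_subset _ _)
      (by omega)
    rw [abs_le] at h1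
    linarith [h1.1, h1.2]
  · intro x hx
    obtain ⟨v, hv, hxv⟩ := hex x hx
    have h1 := H1 x hx v hv hxv
    have hcv := hcard v hv
    have h3 := J_erase_le (G := G) (k-1) (W.erase v) x (Finset.mem_erase.2 ⟨hxv, hx⟩) (by omega)
    rw [abs_le] at h1
    linarith [h1.1, h1.2]

end

end Helper87.BWL
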