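import Mathlib
import Pool.Agent.Helper87.BW.Lin

set_option autoImplicit false

/-!
The largest influence is bounded below.
-/

namespace Helper87.BWL

open Finset Classical Helper53.BW

noncomputable section

variable {V : Type*} {G : SimpleGraph V}

/-- first half: `J_k(R) - J_{k-1}(R) ≥ 1/3 - 3/2 ε` for `R ⊂ W` -/
lemma grow_low (k : ℕ) (W : Finset V) (ε : ℝ) (h0 : 0 ≤ ε) (h : SDp G k W ε) (R : Finset V)
    (hR : R ⊂ W) (hc : R.card + 1 ≤ k) : 1 / 3 - 3 / 2 * ε ≤ J G k R - J G (k-1) R := by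
  obtain ⟨l, rfl⟩ : ∃ l, k = l + 1 := ⟨k-1, by omega⟩
  have h1k : 1 ≤ l + 1 := by omega
  have hck : R.card ≤ l + 1 := by omega
  simp only [Nat.add_sub_cancel]
  set Γ := J G (l+1) R - J G l R with hΓ
  have hΓ0 : 0 ≤ Γ := by have := J_colour (G := G) l R (by omega); rw [hΓ]; linarith
  have hp := ED_em_pos (G := G) (l+1) R hc
  -- exact identity
  have e1 : ED G (l+1) R (fun D => psi G (l+1) R em D * xi Set.univ D) = (1 - Γ) * ED G (l+1) R em := by
    have e2 : ED G (l+1) R (fun D => psi G (l+1) R em D * xi Set.univ D)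
        = ED G (l+1) R (fun D => ((∑ v ∈ R, nv v D * psi G (l+1) R em D) - psi G (l+1) R em D)
          + psi G (l+1) R em D * em D) := by
      refine ED_congr _ R _ _ (fun D hD => ?_)
      rw [xi_univ, cd_eq_sum hD, ← Finset.sum_mul]; ring
    rw [e2, ED_add, ED_sub, ED_sum, ED_psi _ R h1k hck, ED_mul_em,
      Finset.sum_eq_zero (fun v hv => ED_nv_psi (l+1) R hck em v hv), psi_em, hΓ]
    have : em (∅ : Finset V) = 1 := by simp [em]
    rw [this, Finset.sdiff_empty]
    simp only [Nat.add_sub_cancel]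
    ring
  -- pointwise bound
  have h2 : ED G (l+1) R (fun D => psi G (l+1) R em D * xi Set.univ D)
      ≤ ED G (l+1) R (fun D => Γ * xi Set.univ D ^ 2 + ε / 2 * (cd D ^ 2 * xi Set.univ D)) := by
    refine ED_mono _ R _ _ (fun D hD => ?_)
    rcases Finset.eq_empty_or_nonempty D with rfl | hne
    · have h3 : xi Set.univ (∅ : Finset V) = 0 := by rw [xi_eq]; simp
      rw [h3]; simp
    · have hDR := (mem_I.1 hD).1
      have h3 := xi_nonneg (Set.univ : Set V) D
      have hem : em D = 0 := by unfold em; rw [if_neg (Finset.nonempty_iff_ne_empty.1 hne)]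
      have h4 : xi Set.univ D = cd D - 1 := by rw [xi_univ, hem]; ring
      have h5 := (abs_le.1 (nl (l+1) W ε h0 h R hR D hDR)).2
      simp only [Nat.add_sub_cancel] at h5
      have h6 : ∑ x ∈ D, (J G l (R.erase x) - J G l R) ≤ ∑ x ∈ D, Γ := by
        refine Finset.sum_le_sum (fun x hx => ?_)
        have := J_up (G := G) l R x (hDR hx) hck
        rw [hΓ]; linarith
      rw [Finset.sum_const, nsmul_eq_mul] at h6
      have h7 : psi G (l+1) R em D ≤ Γ * xi Set.univ D + ε / 2 * cd D ^ 2 := by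
        rw [psi_em, hem, h4]
        simp only [Nat.add_sub_cancel]
        unfold cd at h5 ⊢
        rw [hΓ] at h6 ⊢
        linarith
      have h8 := mul_le_mul_of_nonneg_right h7 h3
      linarith
  rw [e1, ED_add, ED_mul_left, ED_mul_left] at h2
  have h3 := mul_le_mul_of_nonneg_left (mom_xi_sq (G := G) (l+1) R h1k hck) hΓ0
  have h4 := mul_le_mul_of_nonneg_left (mom_three (G := G) (l+1) R h1k hck) (by positivity : 0 ≤ ε / 2)
  have h5 := mom_em (G := G) (l+1) R h1k hck
  have h6 : (R.card : ℝ) / ((l+1 : ℕ) : ℝ) ≤ 1 := by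
    rw [div_le_one (by positivity)]; exact_mod_cast hck
  have h7 : ED G (l+1) R (xi Set.univ) ≤ ED G (l+1) R em := by linarith
  have h8 : (1 - Γ) * ED G (l+1) R em ≤ (2 * Γ + 9 / 2 * ε) * ED G (l+1) R em := by
    have h9 := mul_le_mul_of_nonneg_left h7 (by positivity : 0 ≤ 2 * Γ + 9 / 2 * ε)
    linarith
  have h9 := le_of_mul_le_mul_right h8 hp
  linarith

/-- BW_proof section 6 (L) -/
theorem grow (k : ℕ) (W : Finset V) (hc : W.card ≤ k) (h2 : 2 ≤ W.card) (ε : ℝ) (h0 : 0 ≤ ε)
    (h : SDp G k W ε) (w : V → ℝ)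
    (hw : ∀ x ∈ W, ∀ v ∈ W, x ≠ v →
      |J G (k-1) ((W.erase v).erase x) - J G (k-1) (W.erase v) - w x| ≤ 4 * ε)
    (ws : ℝ) (hws : ∀ x ∈ W, w x ≤ ws) : 1 / 6 - 8 * ε ≤ ws := by
  obtain ⟨v, hv⟩ : W.Nonempty := Finset.card_pos.1 (by omega)
  set R := W.erase v with hR
  have hRc : R.card + 1 = W.card := Finset.card_erase_add_one hv
  have hRW : R ⊂ W := Finset.erase_ssubset hv
  obtain ⟨y, hy⟩ : R.Nonempty := Finset.card_pos.1 (by omega)
  have hyW : y ∈ W := Finset.mem_of_mem_erase hy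
  have hyv : y ≠ v := Finset.ne_of_mem_erase hy
  set Q := R.erase y with hQ
  have hQc : Q.card + 1 = R.card := Finset.card_erase_add_one hy
  have hQW : Q ⊂ W := (Finset.erase_subset _ _).trans_ssubset hRW
  have hyQ : y ∉ Q := Finset.notMem_erase _ _
  have hRQ : insert y Q = R := Finset.insert_erase hy
  have hlow := grow_low (G := G) k W ε h0 h R hRW (by omega)
  -- one vertex
  have hone : ∀ x ∈ R, J G (k-1) (R.erase x) - J G (k-1) R ≤ w x + 4 * ε := by
    intro x hx
    have := (abs_le.1 (hw x (Finset.mem_of_mem_erase hx) v hv (Finset.ne_of_mem_erase hx))).2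
    linarith
  have hws0 : -(4 * ε) ≤ ws := by
    have h3 := hone y hy
    have h4 := J_anti (G := G) (k-1) (R.erase y) R (Finset.erase_subset _ _) (by omega)
    linarith [hws y hyW]
  have hJQ : J G (k-1) Q - J G (k-1) R ≤ ws + 4 * ε := (hone y hy).trans (by linarith [hws y hyW])
  -- two vertices
  have htwo : ∀ x ∈ Q, J G (k-1) (Q.erase x) - J G (k-1) Q ≤ ws + 5 * ε := by
    intro x hx
    have hxR : x ∈ R := Finset.mem_of_mem_erase hx
    have hxy : x ≠ y := Finset.ne_of_mem_erase hx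
    have e1 : insert x (Q.erase x) = Q := Finset.insert_erase hx
    have hyH : y ∉ Q.erase x := fun h => hyQ (Finset.mem_of_mem_erase h)
    have e2 : insert y (Q.erase x) = R.erase x := by
      rw [← hRQ]
      ext z
      simp only [Finset.mem_insert, Finset.mem_erase]
      constructor
      · rintro (rfl | ⟨h1, h2⟩)
        · exact ⟨hxy.symm, Or.inl rfl⟩
        · exact ⟨h1, Or.inr h2⟩
      · rintro ⟨h1, h2 | h2⟩
        · exact Or.inl h2
        · exact Or.inr ⟨h1, h2⟩
    have e3 : insert x (insert y (Q.erase x)) = R := by rw [Finset.insert_comm, e1, hRQ]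
    have h3 := h (Q.erase x) x y (Finset.notMem_erase _ _) hyH hxy (by rw [e3]; exact hRW)
    rw [e3, e1, e2] at h3
    have h4 := (abs_le.1 h3).2
    have h5 := hone x hxR
    linarith [hws x (Finset.mem_of_mem_erase hxR)]
  -- the new class of `y`
  have hup : J G k R ≤ J G (k-1) Q + (ws + 5 * ε) + ε := by
    have e1 : J G k R = cnd G k Q (G.neighborSet y) (fun D => J G (k-1) (Q \ D)) := by
      rw [← hRQ, J_insert k Q y hyQ (by omega)]; rfl
    rw [e1]
    have h3 : cnd G k Q (G.neighborSet y) (fun D => J G (k-1) (Q \ D))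
        ≤ cnd G k Q (G.neighborSet y) (fun D => (J G (k-1) Q + (ws + 5 * ε) * cd D) + ε / 2 * cd D ^ 2) := by
      refine cnd_mono k Q _ _ _ (fun D hD _ => ?_)
      have hDQ := (mem_I.1 hD).1
      have h4 := (abs_le.1 (nl k W ε h0 h Q hQW D hDQ)).2
      have h5 : ∑ x ∈ D, (J G (k-1) (Q.erase x) - J G (k-1) Q) ≤ ∑ x ∈ D, (ws + 5 * ε) :=
        Finset.sum_le_sum (fun x hx => htwo x (hDQ hx))
      rw [Finset.sum_const, nsmul_eq_mul] at h5
      unfold cd at h4 ⊢
      linarith
    refine h3.trans ?_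
    rw [cnd_add, cnd_add, cnd_mul_left, cnd_mul_left, cnd_const k Q _ (by omega)]
    have h4 := mul_le_mul_of_nonneg_left (cnd_cd_le (G := G) k Q (G.neighborSet y) (by omega))
      (by linarith : 0 ≤ ws + 5 * ε)
    have h5 := mul_le_mul_of_nonneg_left (cnd_sq_le (G := G) k Q (G.neighborSet y) (by omega))
      (by positivity : 0 ≤ ε / 2)
    linarith
  linarith

end

end Helper87.BWL
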