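import Mathlib
import Pool.Agent.Helper87.BW.Cnd
import Pool.Agent.Helper87.BW.Infl

set_option autoImplicit false

/-! HC (helper36): tilting the law of the class of a vertex by a neighbour. -/

namespace Helper87.BWL

open Finset Classical Helper53.BW

noncomputable section

variable {V : Type*} {G : SimpleGraph V}

namespace TiltAux

/-- `J_{k-1}(H) ≥ J_k(W) - 1` for `H ⊂ W` -/
lemma J_down (k : ℕ) (W H : Finset V) (hc : W.card ≤ k) (hH : H ⊂ W) :
    J G k W - 1 ≤ J G (k-1) H := by
  have h1 := Finset.card_lt_card hH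
  obtain ⟨l, rfl⟩ : ∃ l, k = l + 1 := ⟨k-1, by omega⟩
  have h2 := J_anti (G := G) (l+1) H W hH.subset hc
  have h3 := J_succ_le (G := G) l H (by omega)
  rw [Nat.add_sub_cancel]
  linarith

lemma fr_union (X Y : Set V) (D : Finset V) : fr (X ∪ Y) D = fr X D * fr Y D := by
  unfold fr
  by_cases h1 : ∀ y ∈ D, y ∉ X
  · by_cases h2 : ∀ y ∈ D, y ∉ Y
    · rw [if_pos h1, if_pos h2, if_pos, one_mul]
      intro y hy h
      rcases h with h | h
      · exact h1 y hy h
      · exact h2 y hy h
    · rw [if_neg h2, mul_zero, if_neg]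
      intro h
      exact h2 fun y hy h3 => h y hy (Or.inr h3)
  · rw [if_neg h1, zero_mul, if_neg]
    intro h
    exact h1 fun y hy h3 => h y hy (Or.inl h3)

lemma fr_mem {X : Set V} {D : Finset V} {u : V} (hu : u ∈ D) (huX : u ∈ X) : fr X D = 0 := by
  unfold fr
  exact if_neg fun h => h u hu huX

end TiltAux

open TiltAux

/-- the class of `v` in `W` against the class in `H = W-u-v`: tilt by `a_{k-1}(H\D; N(u))` -/
lemma tilt (k : ℕ) (W : Finset V) (hc : W.card ≤ k) (u v : V) (hu : u ∈ W) (hv : v ∈ W) (huv : G.Adj u v)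
    (φ : Finset V → ℝ) :
    P G k (W.erase v) * ED G k (W.erase v) (fun D => fr (G.neighborSet v) D * φ D)
      = P G k ((W.erase u).erase v) * ED G k ((W.erase u).erase v) (fun D => fr (G.neighborSet v) D
        * (a G (k-1) (((W.erase u).erase v) \ D) (fr (G.neighborSet u)) * φ D)) := by
  have hc1 : (W.erase v).card ≤ k := (Finset.card_erase_le).trans hc
  have hc2 : ((W.erase u).erase v).card ≤ k :=
    (Finset.card_erase_le).trans ((Finset.card_erase_le).trans hc)
  rw [P_mul_ED k _ hc1, P_mul_ED k _ hc2]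
  symm
  have huN : u ∈ G.neighborSet v := huv.symm
  have hsub : I G ((W.erase u).erase v) ⊆ I G (W.erase v) := by
    intro D hD
    rw [mem_I] at hD ⊢
    refine ⟨hD.1.trans ?_, hD.2⟩
    exact Finset.erase_subset_erase _ (Finset.erase_subset _ _)
  rw [← Finset.sum_subset hsub]
  · refine Finset.sum_congr rfl fun D hD => ?_
    rw [mem_I] at hD
    have huD : u ∉ D := fun h => by
      have h1 := hD.1 h
      rw [Finset.mem_erase, Finset.mem_erase] at h1
      exact h1.2.1 rfl
    have h1 : (W.erase v) \ D = insert u (((W.erase u).erase v) \ D) := by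
      ext x
      simp only [Finset.mem_sdiff, Finset.mem_erase, Finset.mem_insert]
      constructor
      · rintro ⟨⟨h2, h3⟩, h4⟩
        by_cases h5 : x = u
        · exact Or.inl h5
        · exact Or.inr ⟨⟨h2, h5, h3⟩, h4⟩
      · rintro (rfl | ⟨⟨h2, _, h3⟩, h4⟩)
        · exact ⟨⟨huv.ne, hu⟩, huD⟩
        · exact ⟨⟨h2, h3⟩, h4⟩
    have h2 : u ∉ ((W.erase u).erase v) \ D := fun h => by
      rw [Finset.mem_sdiff, Finset.mem_erase, Finset.mem_erase] at h
      exact h.1.2.1 rfl
    rw [h1, P_insert (k-1) _ u h2]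
    ring
  · intro D hD hD'
    have huD : u ∈ D := by
      by_contra h
      apply hD'
      rw [mem_I] at hD ⊢
      refine ⟨?_, hD.2⟩
      intro x hx
      have h3 := hD.1 hx
      rw [Finset.mem_erase] at h3
      rw [Finset.mem_erase, Finset.mem_erase]
      exact ⟨h3.1, fun h4 => h (h4 ▸ hx), h3.2⟩
    rw [fr_mem huD huN, zero_mul, mul_zero]

/-- Lipschitz tilt (from `a_lip`) -/
lemma alpha_lip (k : ℕ) (H : Finset V) (hc : H.card + 1 ≤ k) (X : Set V) (D : Finset V) (hD : D ⊆ H) :
    |a G k (H \ D) (fr X) - a G k H (fr X)| ≤ 21 * cd D := by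
  induction D using Finset.induction_on with
  | empty => simp [cd]
  | insert x D hx ih =>
    have hxH : x ∈ H := hD (Finset.mem_insert_self _ _)
    have hDH : D ⊆ H := (Finset.subset_insert _ _).trans hD
    have h1 := ih hDH
    have h2 : H \ D = insert x (H \ insert x D) := by
      ext y
      simp only [Finset.mem_sdiff, Finset.mem_insert]
      constructor
      · rintro ⟨h3, h4⟩
        by_cases h5 : y = x
        · exact Or.inl h5
        · exact Or.inr ⟨h3, fun h6 => h6.elim h5 h4⟩
      · rintro (rfl | ⟨h3, h4⟩)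
        · exact ⟨hxH, hx⟩
        · exact ⟨h3, fun h5 => h4 (Or.inr h5)⟩
    have h3 : x ∉ H \ insert x D := fun h => by
      rw [Finset.mem_sdiff] at h
      exact h.2 (Finset.mem_insert_self _ _)
    have h4 : (H \ insert x D).card + 1 ≤ k := by
      have := Finset.card_le_card (Finset.sdiff_subset (s := H) (t := insert x D))
      omega
    have h5 := a_lip (G := G) k (H \ insert x D) h4 x h3 X
    rw [← h2] at h5
    have h6 : cd (insert x D) = cd D + 1 := by
      unfold cd
      rw [Finset.card_insert_of_notMem hx]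
      push_cast
      ring
    rw [h6]
    rw [abs_le] at h1 h5 ⊢
    constructor <;> linarith [h1.1, h1.2, h5.1, h5.2]

namespace TiltAux

/-- the means over the class of `v` through the class in `H = W-u-v` -/
lemma tx_eq (k : ℕ) (W : Finset V) (hc : W.card ≤ k) (u v : V) (hu : u ∈ W) (hv : v ∈ W)
    (huv : G.Adj u v) (ψ : Finset V → ℝ) :
    tx G k W v ψ = ED G k ((W.erase u).erase v) (fun D => fr (G.neighborSet v) D
        * (a G (k-1) (((W.erase u).erase v) \ D) (fr (G.neighborSet u)) * ψ D)) /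
      ED G k ((W.erase u).erase v) (fun D => fr (G.neighborSet v) D
        * a G (k-1) (((W.erase u).erase v) \ D) (fr (G.neighborSet u))) := by
  have hc1 : (W.erase v).card ≤ k := (Finset.card_erase_le).trans hc
  have hc2 : ((W.erase u).erase v).card ≤ k :=
    (Finset.card_erase_le).trans ((Finset.card_erase_le).trans hc)
  have hp1 := P_pos (G := G) k _ hc1
  have hp2 := P_pos (G := G) k _ hc2
  have h1 := tilt k W hc u v hu hv huv ψ
  have h2 := tilt k W hc u v hu hv huv (fun _ => 1)
  simp only [mul_one] at h2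
  have h3 : ED G k (W.erase v) (fr (G.neighborSet v)) =
      ED G k (W.erase v) (fun D => fr (G.neighborSet v) D) := rfl
  unfold tx cnd
  rw [h3, ← mul_div_mul_left _ _ hp1.ne', h1, h2, mul_div_mul_left _ _ hp2.ne']

variable {k : ℕ} {W : Finset V} {u v : V}

lemma card_H (hu : u ∈ W) (hv : v ∈ W) (huv : u ≠ v) :
    ((W.erase u).erase v).card + 2 = W.card := by
  have h1 := Finset.card_erase_add_one hu
  have h2 := Finset.card_erase_add_one (Finset.mem_erase.mpr ⟨huv.symm, hv⟩)
  omega

lemma H_ssubset (hu : u ∈ W) : (W.erase u).erase v ⊂ W :=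
  lt_of_le_of_lt (Finset.erase_subset _ _) (Finset.erase_ssubset hu)

/-- the tilting factor at the empty class is large -/
lemma A_ge (hc : W.card ≤ k) (hu : u ∈ W) (X : Set V) (B : ℝ) (hJ : B + 1 ≤ J G k W) :
    B ≤ a G (k-1) ((W.erase u).erase v) (fr X) := by
  have h1 := J_down (G := G) k W _ hc (H_ssubset (v := v) hu)
  have h2 := J_le_a (G := G) (k-1) ((W.erase u).erase v) X
  linarith

/-- lower bound for the denominator -/
lemma den_ge (hc : W.card ≤ k) (hu : u ∈ W) (hv : v ∈ W) (huv : u ≠ v) (X Y : Set V) :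
    (a G (k-1) ((W.erase u).erase v) (fr Y) - 21) * ED G k ((W.erase u).erase v) (fr X) ≤
      ED G k ((W.erase u).erase v) (fun D => fr X D * a G (k-1) (((W.erase u).erase v) \ D) (fr Y)) := by
  set H := (W.erase u).erase v with hH
  have hcard : H.card + 2 = W.card := card_H hu hv huv
  set A := a G (k-1) H (fr Y) with hA
  have h1 : ED G k H (fun D => A * fr X D - 21 * (cd D * fr X D)) ≤
      ED G k H (fun D => fr X D * a G (k-1) (H \ D) (fr Y)) := by
    refine ED_mono k H _ _ fun D hD => ?_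
    have h2 := alpha_lip (G := G) (k-1) H (by omega) Y D (mem_I.mp hD).1
    rw [← hA, abs_le] at h2
    have h3 := fr_nonneg X D
    nlinarith [h2.1, mul_nonneg h3 (by linarith [h2.1] : 0 ≤ a G (k-1) (H \ D) (fr Y) - A + 21 * cd D)]
  rw [ED_sub, ED_mul_left, ED_mul_left] at h1
  have h4 := mom_free (G := G) k H (by omega) (by omega) X
  have h5 := ED_nonneg (G := G) k H (xi X) fun D _ => xi_nonneg X D
  have h6 : (fun D => A * fr X D) = fun D => A * fr X D := rfl
  have h7 : ED G k H (fun D => fr X D) = ED G k H (fr X) := rfl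
  rw [h7] at h1
  nlinarith

/-- upper bound for the numerator -/
lemma num_le (hc : W.card ≤ k) (hu : u ∈ W) (hv : v ∈ W) (huv : u ≠ v) (X Y : Set V)
    (ψ : Finset V → ℝ) (hψ : ∀ D, 0 ≤ ψ D) :
    ED G k ((W.erase u).erase v) (fun D => fr X D * (a G (k-1) (((W.erase u).erase v) \ D) (fr Y) * ψ D)) ≤
      a G (k-1) ((W.erase u).erase v) (fr Y) * ED G k ((W.erase u).erase v) (fun D => fr X D * ψ D) +
      21 * ED G k ((W.erase u).erase v) (fun D => fr X D * (cd D * ψ D)) := by
  set H := (W.erase u).erase v with hH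
  have hcard : H.card + 2 = W.card := card_H hu hv huv
  set A := a G (k-1) H (fr Y) with hA
  rw [← ED_mul_left, ← ED_mul_left, ← ED_add]
  refine ED_mono k H _ _ fun D hD => ?_
  have h2 := alpha_lip (G := G) (k-1) H (by omega) Y D (mem_I.mp hD).1
  rw [← hA, abs_le] at h2
  have h3 := mul_nonneg (fr_nonneg X D) (hψ D)
  nlinarith [h2.2, mul_nonneg h3 (by linarith [h2.2] : 0 ≤ A + 21 * cd D - a G (k-1) (H \ D) (fr Y))]

end TiltAux

/-- `E[φ(T_v); T_v ∩ N(u) = ∅] ≤ (1+42/B) E φ(T_uv) + 42/B E[|T_uv| φ(T_uv)]` -/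
lemma tilt_avoid (k : ℕ) (W : Finset V) (hc : W.card ≤ k) (u v : V) (hu : u ∈ W) (hv : v ∈ W)
    (huv : G.Adj u v) (B : ℝ) (hB : 100 ≤ B) (hJ : B + 1 ≤ J G k W) (φ : Finset V → ℝ)
    (hφ : ∀ D, 0 ≤ φ D) :
    tx G k W v (fun D => fr (G.neighborSet u) D * φ D)
      ≤ (1 + 42 / B) * te G k W u v φ + 42 / B * te G k W u v (fun D => cd D * φ D) := by
  have hne : u ≠ v := huv.ne
  have hA := A_ge (G := G) (v := v) hc hu (G.neighborSet u) B hJ
  have hden := den_ge (G := G) hc hu hv hne (G.neighborSet v) (G.neighborSet u)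
  have hnum := num_le (G := G) hc hu hv hne (G.neighborSet v) (G.neighborSet u)
    (fun D => fr (G.neighborSet u) D * φ D) fun D => mul_nonneg (fr_nonneg _ _) (hφ D)
  have hcard : ((W.erase u).erase v).card + 2 = W.card := card_H hu hv hne
  rw [tx_eq k W hc u v hu hv huv]
  set H := (W.erase u).erase v with hH
  set A := a G (k-1) H (fr (G.neighborSet u)) with hAd
  set X := G.neighborSet u ∪ G.neighborSet v with hX
  set E := ED G k H (fr X) with hE
  set N1 := ED G k H (fun D => fr X D * φ D) with hN1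
  set N2 := ED G k H (fun D => fr X D * (cd D * φ D)) with hN2
  have hfr : ∀ D : Finset V, fr X D = fr (G.neighborSet v) D * fr (G.neighborSet u) D := fun D => by
    rw [hX, fr_union]; ring
  have hE0 : 0 < E := ED_fr_pos k H (by omega) X
  have hEv : E ≤ ED G k H (fr (G.neighborSet v)) := ED_mono k H _ _ fun D _ => by
    rw [hfr]
    have h1 := fr_nonneg (G.neighborSet v) D
    have h2 := fr_le_one (G.neighborSet u) D
    nlinarith
  have hN1' : ED G k H (fun D => fr (G.neighborSet v) D * (fr (G.neighborSet u) D * φ D)) = N1 := by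
    rw [hN1]
    refine congrArg _ (funext fun D => ?_)
    rw [hfr]; ring
  have hN2' : ED G k H (fun D => fr (G.neighborSet v) D * (cd D * (fr (G.neighborSet u) D * φ D))) =
      N2 := by
    rw [hN2]
    refine congrArg _ (funext fun D => ?_)
    rw [hfr]; ring
  rw [hN1', hN2'] at hnum
  have hN10 : 0 ≤ N1 := ED_nonneg k H _ fun D _ => mul_nonneg (fr_nonneg _ _) (hφ D)
  have hN20 : 0 ≤ N2 := ED_nonneg k H _ fun D _ =>
    mul_nonneg (fr_nonneg _ _) (mul_nonneg (cd_nonneg _) (hφ D))
  have hA21 : 0 < A - 21 := by linarith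
  have hden' : (A - 21) * E ≤ ED G k H (fun D => fr (G.neighborSet v) D *
      a G (k-1) (H \ D) (fr (G.neighborSet u))) := le_trans (mul_le_mul_of_nonneg_left hEv hA21.le) hden
  have hte1 : te G k W u v φ = N1 / E := rfl
  have hte2 : te G k W u v (fun D => cd D * φ D) = N2 / E := rfl
  rw [hte1, hte2]
  have hB0 : 0 < B := by linarith
  have h1 : ED G k H (fun D => fr (G.neighborSet v) D * (a G (k-1) (H \ D) (fr (G.neighborSet u)) *
      (fr (G.neighborSet u) D * φ D))) /
      ED G k H (fun D => fr (G.neighborSet v) D * a G (k-1) (H \ D) (fr (G.neighborSet u))) ≤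
      (A * N1 + 21 * N2) / ((A - 21) * E) :=
    div_le_div₀ (by have := mul_nonneg (by linarith : 0 ≤ A) hN10; linarith) hnum
      (mul_pos hA21 hE0) hden'
  refine h1.trans ?_
  have h2 : (A * N1 + 21 * N2) / ((A - 21) * E) = A / (A - 21) * (N1 / E) + 21 / (A - 21) * (N2 / E) := by
    field_simp
  rw [h2]
  have h3 : 21 / (A - 21) ≤ 42 / B := by
    rw [div_le_div_iff₀ hA21 hB0]
    nlinarith
  have h4 : A / (A - 21) ≤ 1 + 42 / B := by
    have h5 : A / (A - 21) = 1 + 21 / (A - 21) := by field_simp; ring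
    rw [h5]; linarith
  exact add_le_add (mul_le_mul_of_nonneg_right h4 (div_nonneg hN10 hE0.le))
    (mul_le_mul_of_nonneg_right h3 (div_nonneg hN20 hE0.le))

/-- `t_u ≤ E[|D| | D ∩ N(u) = ∅] + 63/B`, `D` from `(k, W-u-v)` -/
lemma tilt_mean (k : ℕ) (W : Finset V) (hc : W.card ≤ k) (u v : V) (hu : u ∈ W) (hv : v ∈ W)
    (huv : G.Adj u v) (B : ℝ) (hB : 100 ≤ B) (hJ : B + 1 ≤ J G k W) :
    tx G k W u cd ≤ cnd G k ((W.erase u).erase v) (G.neighborSet u) cd + 63 / B := by
  have hne : v ≠ u := huv.ne'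
  have hA := A_ge (G := G) (v := u) hc hv (G.neighborSet v) B hJ
  have hden := den_ge (G := G) hc hv hu hne (G.neighborSet u) (G.neighborSet v)
  have hnum := num_le (G := G) hc hv hu hne (G.neighborSet u) (G.neighborSet v) cd cd_nonneg
  have hcard : ((W.erase v).erase u).card + 2 = W.card := card_H hv hu hne
  have ht1 : tx G k W u cd ≤ 1 := cnd_cd_le k _ _ (by
    have := Finset.card_erase_add_one hu
    omega)
  have hB0 : 0 < B := by linarith
  have heq := tx_eq k W hc v u hv hu huv.symm (cd : Finset V → ℝ)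
  rw [Finset.erase_right_comm (a := u) (b := v)]
  set H := (W.erase v).erase u with hH
  set A := a G (k-1) H (fr (G.neighborSet v)) with hAd
  set E := ED G k H (fr (G.neighborSet u)) with hE
  set t := tx G k W u cd with ht
  have hE0 : 0 < E := ED_fr_pos k H (by omega) _
  have hA21 : 0 < A - 21 := by linarith
  have hs : cnd G k H (G.neighborSet u) cd = ED G k H (fun D => fr (G.neighborSet u) D * cd D) / E := rfl
  set N1 := ED G k H (fun D => fr (G.neighborSet u) D * cd D) with hN1
  rw [hs]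
  have hsq : ED G k H (fun D => fr (G.neighborSet u) D * (cd D * cd D)) ≤ 2 * E := by
    have h1 := mom_sq (G := G) k H (by omega) (by omega) (G.neighborSet u)
    have h2 : (fun D => fr (G.neighborSet u) D * (cd D * cd D)) =
        fun D => cd D ^ 2 * fr (G.neighborSet u) D := by funext D; ring
    rw [h2]
    exact h1
  set Dn := ED G k H (fun D => fr (G.neighborSet u) D * a G (k-1) (H \ D) (fr (G.neighborSet v)))
    with hDn
  have hDn0 : 0 < Dn := lt_of_lt_of_le (mul_pos hA21 hE0) hden
  have h3 : t * Dn ≤ A * N1 + 42 * E := by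
    rw [heq, div_mul_cancel₀ _ hDn0.ne']
    linarith
  have ht0 : 0 ≤ t := cnd_cd_nonneg _ _ _
  have h4 : t * ((A - 21) * E) ≤ A * N1 + 42 * E := (mul_le_mul_of_nonneg_left hden ht0).trans h3
  have hA0 : 0 < A := by linarith
  have h5 : t * A * E ≤ A * N1 + 63 * E := by nlinarith
  have h6 : t ≤ N1 / E + 63 / A := by
    rw [div_add_div _ _ hE0.ne' hA0.ne', le_div_iff₀ (mul_pos hE0 hA0)]
    nlinarith
  have h7 : 63 / A ≤ 63 / B := div_le_div_of_nonneg_left (by norm_num) hB0 hA
  linarith

end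

end Helper87.BWL
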