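import Mathlib
import Pool.Agent.Helper53.ChromFinal
import Pool.Agent.Helper87.BW.Cnd
import Pool.Agent.Helper87.BW.Infl
import Pool.Agent.Helper87.BW.Tilt

set_option autoImplicit false

/-! HD (helper67): the last step of the high case. -/

namespace Helper87.BWL

open Finset Classical Helper53.BW

noncomputable section

variable {V : Type*} {G : SimpleGraph V}

namespace LastAux

/-- class of the vertex `x`: mean of `g` over the class -/
lemma ED_nv_class (k : ℕ) (W : Finset V) (hc : W.card ≤ k) (x : V) (hx : x ∈ W) (g : Finset V → ℝ) :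
    ED G k W (fun D => nv x D * g D) = (1 / k) * tx G k W x (fun D => g (insert x D)) := by
  have h0 : 0 < W.card := Finset.card_pos.2 ⟨x, hx⟩
  have hk : (0:ℝ) < k := by exact_mod_cast (by omega : 0 < k)
  have hce : (W.erase x).card = W.card - 1 := Finset.card_erase_of_mem hx
  have hxe : x ∉ W.erase x := Finset.notMem_erase x W
  have hW : insert x (W.erase x) = W := Finset.insert_erase hx
  have hpe := P_pos (G := G) k (W.erase x) (by omega)
  have hf := ED_fr_pos (G := G) k (W.erase x) (by omega) (G.neighborSet x)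
  have h1 : P G k W * ED G k W (fun D => nv x D * g D)
      = P G k (W.erase x) * ED G k (W.erase x) (fun D => fr (G.neighborSet x) D * g (insert x D)) := by
    rw [P_mul_ED k _ hc, P_mul_ED k _ (by omega)]
    have := sum_new (G := G) (fun D R => P G (k-1) R * g D) (W.erase x) x hxe
    rw [hW] at this
    have e1 : ∑ D ∈ I G W, P G (k-1) (W \ D) * (nv x D * g D)
        = ∑ D ∈ I G W, nv x D * (P G (k-1) (W \ D) * g D) :=
      Finset.sum_congr rfl (fun D _ => by ring)
    rw [e1, this]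
    exact Finset.sum_congr rfl (fun D _ => by ring)
  have h2 := P_insert_ED (G := G) k (W.erase x) (by omega) x hxe
  rw [hW] at h2
  rw [h2] at h1
  unfold tx cnd
  have h3 : P G k (W.erase x) * (k * ED G k (W.erase x) (fr (G.neighborSet x))
      * ED G k W (fun D => nv x D * g D))
      = P G k (W.erase x) * ED G k (W.erase x) (fun D => fr (G.neighborSet x) D * g (insert x D)) := by
    rw [← h1]; ring
  have h4 := mul_left_cancel₀ hpe.ne' h3
  rw [← h4]
  field_simp

lemma card_insert_I {W : Finset V} {x : V} {D : Finset V} (hD : D ∈ I G (W.erase x)) :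
    cd (insert x D) = cd D + 1 := by
  have : x ∉ D := fun h => (Finset.notMem_erase x W) ((mem_I.1 hD).1 h)
  unfold cd
  rw [Finset.card_insert_of_notMem this]
  push_cast
  ring

lemma ED_nv_cd (k : ℕ) (W : Finset V) (hc : W.card ≤ k) (x : V) (hx : x ∈ W) :
    ED G k W (fun D => nv x D * (cd D - 1)) = (1 / k) * tx G k W x cd := by
  rw [ED_nv_class k W hc x hx (fun D => cd D - 1)]
  congr 1
  unfold tx cnd
  congr 1
  refine ED_congr k _ _ _ (fun D hD => ?_)
  show fr (G.neighborSet x) D * (cd (insert x D) - 1) = fr (G.neighborSet x) D * cd D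
  rw [card_insert_I hD]
  ring

/-- second factorial moment through the classes of the vertices -/
lemma ED_cd_pair (k : ℕ) (W : Finset V) (hc : W.card ≤ k) :
    ED G k W (fun D => cd D * (cd D - 1)) = (1 / k) * ∑ x ∈ W, tx G k W x cd := by
  have h1 : ED G k W (fun D => cd D * (cd D - 1)) = ED G k W (fun D => ∑ x ∈ W, nv x D * (cd D - 1)) := by
    refine ED_congr k W _ _ (fun D hD => ?_)
    rw [← Finset.sum_mul, ← cd_eq_sum hD]
  rw [h1, ED_sum, Finset.mul_sum]
  exact Finset.sum_congr rfl (fun x hx => ED_nv_cd k W hc x hx)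

/-- lower bound for `J_k(W) / k` -/
lemma J_low (k : ℕ) (W : Finset V) (h1 : 1 ≤ k) (hc : W.card ≤ k) (δ : ℝ) (h0 : 0 ≤ δ)
    (ht : ∀ x ∈ W, 1 - δ ≤ tx G k W x cd) : (1 - δ) / 3 ≤ J G k W / k := by
  have hk : (0:ℝ) < k := by exact_mod_cast h1
  rw [← ED_em k W h1, mom_em k W h1 hc]
  have h2 := mom_ci (G := G) k W h1 hc Set.univ
  have h3 : ED G k W (fun D => ci Set.univ D * (ci Set.univ D - 1))
      = ED G k W (fun D => cd D * (cd D - 1)) :=
    ED_congr k W _ _ (fun D _ => by rw [ci_univ])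
  rw [h3, ED_cd_pair k W hc] at h2
  have h4 : (W.card : ℝ) * (1 - δ) ≤ ∑ x ∈ W, tx G k W x cd := by
    rw [← nsmul_eq_mul, ← Finset.sum_const]
    exact Finset.sum_le_sum ht
  have h5 : (W.card : ℝ) / k * (1 - δ) ≤ 3 * ED G k W (xi Set.univ) := by
    refine le_trans ?_ h2
    calc (W.card : ℝ) / k * (1 - δ) = (1 / k) * ((W.card : ℝ) * (1 - δ)) := by ring
      _ ≤ _ := mul_le_mul_of_nonneg_left h4 (by positivity)
  have h6 : (W.card : ℝ) / k ≤ 1 := by
    rw [div_le_one hk]; exact_mod_cast hc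
  nlinarith

/-- hitting bound -/
lemma hit_le (k : ℕ) (H : Finset V) (h1 : 1 ≤ k) (hc : H.card + 1 ≤ k) (Y : Set V) (s : ℝ)
    (hs : 1 - cnd G k H Y cd ≤ s) :
    ED G k H (fun D => (cd D - 1) * (1 - fr Y D)) + (1 - (H.card : ℝ) / k) ≤ s := by
  have hf := ED_fr_pos (G := G) k H hc Y
  have hf1 : ED G k H (fr Y) ≤ 1 := by
    have := ED_mono (G := G) k H (fr Y) (fun _ => 1) (fun D _ => fr_le_one Y D)
    rwa [ED_one k H h1 (by omega)] at this
  have e1 : ED G k H (fun D => (cd D - 1) * (1 - fr Y D))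
      = ED G k H cd - 1 - ED G k H (fun D => fr Y D * cd D) + ED G k H (fr Y) := by
    have e2 : ED G k H (fun D => (cd D - 1) * (1 - fr Y D))
        = ED G k H (fun D => (cd D - 1 - fr Y D * cd D) + fr Y D) :=
      ED_congr k H _ _ (fun D _ => by ring)
    rw [e2, ED_add k H (fun D => cd D - 1 - fr Y D * cd D) (fr Y),
      ED_sub k H (fun D => cd D - 1) (fun D => fr Y D * cd D), ED_sub k H cd (fun _ => 1),
      ED_one k H h1 (by omega)]
  have e3 : ED G k H (fun D => fr Y D * cd D) = cnd G k H Y cd * ED G k H (fr Y) := by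
    unfold cnd
    field_simp
  have e4 := ED_cd (G := G) k H (by omega)
  have e5 := cnd_cd_le (G := G) k H Y hc
  rw [e1, e3, e4]
  have : (1 - cnd G k H Y cd) * ED G k H (fr Y) ≤ (1 - cnd G k H Y cd) * 1 :=
    mul_le_mul_of_nonneg_left hf1 (by linarith)
  linarith

/-- pointwise bound -/
lemma xi_le (X Y : Set V) (D : Finset V) :
    xi Set.univ D ≤ (cd D - 1) * (1 - fr X D) + (cd D - 1) * (1 - fr Y D) + fr (X ∪ Y) D * cd D := by
  rw [xi_univ]
  by_cases hD : D = ∅
  · subst hD
    rw [fr_empty, fr_empty, fr_empty]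
    simp [cd, em]
  · have hcd : 1 ≤ cd D := by
      unfold cd
      exact_mod_cast Finset.card_pos.2 (Finset.nonempty_iff_ne_empty.2 hD)
    have hem : em D = 0 := by unfold em; rw [if_neg hD]
    have hn1 : 0 ≤ (cd D - 1) * (1 - fr X D) :=
      mul_nonneg (by linarith) (by linarith [fr_le_one X D])
    have hn2 : 0 ≤ (cd D - 1) * (1 - fr Y D) :=
      mul_nonneg (by linarith) (by linarith [fr_le_one Y D])
    have hn3 : 0 ≤ fr (X ∪ Y) D * cd D := mul_nonneg (fr_nonneg _ _) (cd_nonneg _)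
    rw [hem]
    by_cases hX : ∀ y ∈ D, y ∉ X
    · by_cases hY : ∀ y ∈ D, y ∉ Y
      · have : fr (X ∪ Y) D = 1 := by
          unfold fr
          rw [if_pos]
          intro y hy h
          rcases h with h | h
          · exact hX y hy h
          · exact hY y hy h
        rw [this]
        linarith
      · have : fr Y D = 0 := by unfold fr; rw [if_neg hY]
        rw [this] at hn2 ⊢
        linarith
    · have : fr X D = 0 := by unfold fr; rw [if_neg hX]
      rw [this] at hn1 ⊢
      linarith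

/-- upper bound for `J_k(H) / k` -/
lemma J_high (k : ℕ) (H : Finset V) (h1 : 1 ≤ k) (hc : H.card + 1 ≤ k) (X Y : Set V) (s s' δ' : ℝ)
    (hs : 1 - cnd G k H X cd ≤ s) (hs' : 1 - cnd G k H Y cd ≤ s')
    (hte : cnd G k H (X ∪ Y) cd ≤ δ') : J G k H / k ≤ s + s' + δ' := by
  have hk : (0:ℝ) < k := by exact_mod_cast h1
  rw [← ED_em k H h1, mom_em k H h1 (by omega)]
  have hf := ED_fr_pos (G := G) k H hc (X ∪ Y)
  have hf1 : ED G k H (fr (X ∪ Y)) ≤ 1 := by
    have := ED_mono (G := G) k H (fr (X ∪ Y)) (fun _ => 1) (fun D _ => fr_le_one _ D)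
    rwa [ED_one k H h1 (by omega)] at this
  have h2 := ED_mono (G := G) k H (xi Set.univ) _ (fun D _ => xi_le X Y D)
  rw [ED_add k H (fun D => (cd D - 1) * (1 - fr X D) + (cd D - 1) * (1 - fr Y D))
      (fun D => fr (X ∪ Y) D * cd D),
    ED_add k H (fun D => (cd D - 1) * (1 - fr X D)) (fun D => (cd D - 1) * (1 - fr Y D))] at h2
  have h3 := hit_le (G := G) k H h1 hc X s hs
  have h4 := hit_le (G := G) k H h1 hc Y s' hs'
  have h5 : ED G k H (fun D => fr (X ∪ Y) D * cd D) = cnd G k H (X ∪ Y) cd * ED G k H (fr (X ∪ Y)) := by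
    unfold cnd
    field_simp
  have h6 := cnd_cd_nonneg (G := G) k H (X ∪ Y)
  have h7 : cnd G k H (X ∪ Y) cd * ED G k H (fr (X ∪ Y)) ≤ cnd G k H (X ∪ Y) cd * 1 :=
    mul_le_mul_of_nonneg_left hf1 h6
  have h8 : (H.card : ℝ) / k ≤ 1 := by
    rw [div_le_one hk]; exact_mod_cast (by omega : H.card ≤ k)
  linarith

end LastAux

open LastAux in
/-- last step of section 6 (helper58's form) -/
theorem last_step (k : ℕ) (W : Finset V) (hc : W.card ≤ k) (u v : V) (hu : u ∈ W) (hv : v ∈ W)
    (huv : G.Adj u v) (B : ℝ) (hB : 100 ≤ B) (hJ : B + 1 ≤ J G k W) (δ δ' : ℝ) (h0 : 0 ≤ δ) (h1 : δ ≤ 1)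
    (ht : ∀ x ∈ W, 1 - δ ≤ tx G k W x cd) (hte : te G k W u v cd ≤ δ') (h0' : 0 ≤ δ') :
    (1 - δ) / 3 ≤ 2 * (δ + 63 / B) + δ' := by
  have hne : u ≠ v := huv.ne
  have hc0 : 0 < W.card := Finset.card_pos.2 ⟨u, hu⟩
  have hk1 : 1 ≤ k := by omega
  have hk : (0:ℝ) < k := by exact_mod_cast hk1
  have hvu : v ∈ W.erase u := Finset.mem_erase.2 ⟨hne.symm, hv⟩
  have hcard : ((W.erase u).erase v).card + 1 ≤ k := by
    rw [Finset.card_erase_of_mem hvu, Finset.card_erase_of_mem hu]
    omega
  have hlow := J_low (G := G) k W hk1 hc δ h0 ht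
  have htu := tilt_mean (G := G) k W hc u v hu hv huv B hB hJ
  have htv := tilt_mean (G := G) k W hc v u hv hu huv.symm B hB hJ
  have hsw : (W.erase v).erase u = (W.erase u).erase v := Finset.erase_right_comm
  rw [hsw] at htv
  have hhigh := J_high (G := G) k ((W.erase u).erase v) hk1 hcard (G.neighborSet u) (G.neighborSet v)
    (δ + 63 / B) (δ + 63 / B) δ' (by linarith [ht u hu]) (by linarith [ht v hv]) hte
  have hanti : J G k W ≤ J G k ((W.erase u).erase v) :=
    J_anti k _ _ ((Finset.erase_subset _ _).trans (Finset.erase_subset _ _)) hc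
  have : J G k W / k ≤ J G k ((W.erase u).erase v) / k := div_le_div_of_nonneg_right hanti hk.le
  linarith

end

end Helper87.BWL
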