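import Mathlib
import Pool.Agent.Helper53.ChromFinal
import Pool.Agent.Helper87.BW.Grow
import Pool.Agent.Helper87.BW.Tilt
import Pool.Agent.Helper87.BW.Last

set_option autoImplicit false

/-!
The case of many unused colours.
-/

namespace Helper87.BWL

open Finset Classical Helper53.BW

noncomputable section

variable {V : Type*} {G : SimpleGraph V}

lemma tx_card (k : ℕ) (W : Finset V) (hc : W.card ≤ k) (x : V) (hx : x ∈ W) :
    (W.erase x).card + 1 ≤ k := by
  rw [Finset.card_erase_of_mem hx]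
  have : 0 < W.card := Finset.card_pos.2 ⟨x, hx⟩
  omega

lemma te_card (k : ℕ) (W : Finset V) (hc : W.card ≤ k) (u v : V) (hu : u ∈ W) :
    ((W.erase u).erase v).card + 1 ≤ k := by
  have h1 := tx_card k W hc u hu
  have h2 : ((W.erase u).erase v).card ≤ (W.erase u).card := Finset.card_le_card (Finset.erase_subset _ _)
  omega

lemma wt_le (w : V → ℝ) (c : ℝ) (T : Finset V) (h : ∀ x ∈ T, w x ≤ c) : wt w T ≤ c * cd T := by
  unfold wt cd
  have := Finset.sum_le_card_nsmul T w c h
  rw [nsmul_eq_mul] at this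
  linarith

lemma le_wt (w : V → ℝ) (c : ℝ) (T : Finset V) (h : ∀ x ∈ T, c ≤ w x) : c * cd T ≤ wt w T := by
  unfold wt cd
  have := Finset.card_nsmul_le_sum T w c h
  rw [nsmul_eq_mul] at this
  linarith

/-- the core deduction -/
theorem high_core (k : ℕ) (W : Finset V) (hc : W.card ≤ k) (ε : ℝ) (hε : ε = 1 / 10000)
    (B : ℝ) (hB : 10000000 ≤ B) (hJ : B + 1 ≤ J G k W) (hsd : SDp G k W ε) (hne : W.Nonempty)
    (hnb : ∀ v ∈ W, ∃ w ∈ W, G.Adj v w) :
    ∃ u ∈ W, ∃ v ∈ W, G.Adj u v ∧
      J G k W ≤ te G k W u v (fun T => J G (k-1) (((W.erase u).erase v) \ T)) := by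
  have h2 : 2 ≤ W.card := by
    obtain ⟨x, hx⟩ := hne
    obtain ⟨y, hy, hxy⟩ := hnb x hx
    exact Finset.one_lt_card.2 ⟨x, hx, y, hy, hxy.ne⟩
  have hε0 : 0 ≤ ε := by rw [hε]; norm_num
  obtain ⟨j0, w, hw, hW, hG, hwlo, hwhi⟩ := linearize (G := G) k W hc h2 ε hε0 hsd
  obtain ⟨u, hu, hmax⟩ := Finset.exists_max_image W w hne
  by_contra hcon
  push Not at hcon
  set Γ : ℝ := J G k W - j0 with hΓ
  have hws := grow (G := G) k W hc h2 ε hε0 hsd w hw (w u) hmax
  have hws7 : 1 / 7 ≤ w u := by rw [hε] at hws; linarith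
  have hwu0 : 0 ≤ w u := by linarith
  have hws2 : w u ≤ 2 := by have := hwhi u hu; rw [hε] at this; linarith
  -- bad edges
  have hbad : ∀ v ∈ W, G.Adj u v → w u + w v + te G k W u v (wt w) < Γ + 13 * ε := by
    intro v hv huv
    have h1 := hcon u hu v hv huv
    have h3 := hG u hu v hv huv
    linarith
  -- moments
  have m1 : ∀ x ∈ W, tx G k W x cd ≤ 1 := fun x hx => cnd_cd_le k _ _ (tx_card k W hc x hx)
  have m1' : ∀ x, 0 ≤ tx G k W x cd := fun x => cnd_cd_nonneg k _ _
  have m2 : ∀ x ∈ W, tx G k W x (fun D => cd D ^ 2) ≤ 2 := fun x hx => cnd_sq_le k _ _ (tx_card k W hc x hx)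
  have e1 : ∀ v, te G k W u v cd ≤ 1 := fun v => cnd_cd_le k _ _ (te_card k W hc u v hu)
  have e1' : ∀ v, 0 ≤ te G k W u v cd := fun v => cnd_cd_nonneg k _ _
  have e2 : ∀ v, te G k W u v (fun D => cd D ^ 2) ≤ 2 := fun v => cnd_sq_le k _ _ (te_card k W hc u v hu)
  -- upper bound for `E w(T_x)`
  have twhi : ∀ x, tx G k W x (wt w) ≤ w u * tx G k W x cd := by
    intro x
    unfold tx
    rw [← cnd_mul_left]
    refine cnd_mono k _ _ _ _ (fun D hD _ => wt_le w (w u) D (fun z hz => hmax z ?_))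
    exact Finset.erase_subset _ _ ((mem_I.1 hD).1 hz)
  have telo : ∀ v, -(4 * ε) * te G k W u v cd ≤ te G k W u v (wt w) := by
    intro v
    unfold te
    rw [← cnd_mul_left]
    refine cnd_mono k _ _ _ _ (fun D hD _ => le_wt w (-(4 * ε)) D (fun z hz => hwlo z ?_))
    exact Finset.erase_subset _ _ (Finset.erase_subset _ _ ((mem_I.1 hD).1 hz))
  have telo' : ∀ v, -(4 * ε) ≤ te G k W u v (wt w) := by
    intro v
    have h1 := telo v
    have h3 := mul_le_mul_of_nonneg_left (e1 v) (by positivity : (0:ℝ) ≤ 4 * ε)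
    linarith
  -- a neighbour of `u`
  obtain ⟨v, hv, huv⟩ := hnb u hu
  have hWv := abs_le.1 (hW v hv)
  have hbv := hbad v hv huv
  have hc1 : w u + te G k W u v (wt w) < tx G k W v (wt w) + 19 * ε := by linarith [hWv.1, hWv.2]
  have hb1 : w u * tx G k W v cd - tx G k W v (wt w) ≤ 23 * ε := by
    have h1 := telo' v
    have h3 := mul_le_mul_of_nonneg_left (m1 v hv) hwu0
    linarith
  have hc2 : te G k W u v (wt w) ≤ 19 * ε := by
    have h1 := twhi v
    have h3 := mul_le_mul_of_nonneg_left (m1 v hv) hwu0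
    linarith
  have ha1 : 1 - 161 * ε ≤ tx G k W v cd := by
    have h1 := twhi v
    have h3 := m1 v hv
    have h4 := telo' v
    have h5 : w u * (1 - tx G k W v cd) ≤ 23 * ε := by linarith
    have h6 : 1 / 7 * (1 - tx G k W v cd) ≤ w u * (1 - tx G k W v cd) :=
      mul_le_mul_of_nonneg_right hws7 (by linarith)
    linarith
  -- avoiding `N(u)`
  set φ : Finset V → ℝ := fun D => |wt w D + (4 * ε) * cd D| with hφ
  have hφW : ∀ D : Finset V, D ⊆ W → φ D = wt w D + (4 * ε) * cd D := by
    intro D hD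
    rw [hφ]
    refine abs_of_nonneg ?_
    have := le_wt w (-(4 * ε)) D (fun z hz => hwlo z (hD hz))
    linarith
  have hsubx : ∀ x, ∀ D ∈ I G (W.erase x), D ⊆ W := fun x D hD =>
    (mem_I.1 hD).1.trans (Finset.erase_subset _ _)
  have hsube : ∀ D ∈ I G ((W.erase u).erase v), D ⊆ W := fun D hD =>
    (mem_I.1 hD).1.trans ((Finset.erase_subset _ _).trans (Finset.erase_subset _ _))
  have hta := tilt_avoid (G := G) k W hc u v hu hv huv B (by linarith) hJ φ (fun D => abs_nonneg _)
  have hte1 : te G k W u v φ ≤ 23 * ε := by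
    have e : te G k W u v φ ≤ te G k W u v (fun D => wt w D + (4 * ε) * cd D) :=
      cnd_mono k _ _ _ _ (fun D hD _ => (hφW D (hsube D hD)).le)
    have e3 : te G k W u v (fun D => wt w D + (4 * ε) * cd D) = te G k W u v (wt w) + (4 * ε) * te G k W u v cd := by
      unfold te
      rw [cnd_add, cnd_mul_left]
    have h3 := mul_le_mul_of_nonneg_left (e1 v) (by positivity : (0:ℝ) ≤ 4 * ε)
    linarith
  have hte0 : 0 ≤ te G k W u v φ := cnd_nonneg k _ _ _ (fun D _ _ => abs_nonneg _)
  have hte2 : te G k W u v (fun D => cd D * φ D) ≤ 5 := by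
    have e : te G k W u v (fun D => cd D * φ D) ≤ te G k W u v (fun D => (5/2) * cd D ^ 2) := by
      refine cnd_mono k _ _ _ _ (fun D hD _ => ?_)
      have h1 := hφW D (hsube D hD)
      have h3 := wt_le w (w u) D (fun z hz => hmax z (hsube D hD hz))
      have h4 := cd_nonneg D
      have h5 : φ D ≤ 5 / 2 * cd D := by
        rw [h1]
        have : w u * cd D ≤ 2 * cd D := mul_le_mul_of_nonneg_right hws2 h4
        have h6 : 4 * ε * cd D ≤ 1 / 2 * cd D := mul_le_mul_of_nonneg_right (by rw [hε]; norm_num) h4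
        linarith
      have := mul_le_mul_of_nonneg_left h5 h4
      nlinarith
    have e3 : te G k W u v (fun D => (5/2) * cd D ^ 2) = (5/2) * te G k W u v (fun D => cd D ^ 2) := by
      unfold te
      rw [cnd_mul_left]
    have h3 := e2 v
    linarith
  have hte2' : 0 ≤ te G k W u v (fun D => cd D * φ D) :=
    cnd_nonneg k _ _ _ (fun D _ _ => mul_nonneg (cd_nonneg D) (abs_nonneg _))
  have hBpos : 0 < B := by linarith
  have h42 : 42 / B ≤ 1 / 200000 := by
    rw [div_le_div_iff₀ hBpos (by norm_num)]; linarith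
  have h42' : 0 ≤ 42 / B := by positivity
  have hav : tx G k W v (fun D => fr (G.neighborSet u) D * φ D) ≤ 25 * ε := by
    have h1 : 42 / B * te G k W u v φ ≤ 1 / 200000 * (23 * ε) :=
      mul_le_mul h42 hte1 hte0 (by norm_num)
    have h3 : 42 / B * te G k W u v (fun D => cd D * φ D) ≤ 1 / 200000 * 5 :=
      mul_le_mul h42 hte2 hte2' (by norm_num)
    rw [hε] at h1 hte1 ⊢
    linarith
  -- probability of meeting `N(u)`
  set p : ℝ := tx G k W v (fun D => 1 - fr (G.neighborSet u) D) with hp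
  have hpl : w u * tx G k W v cd - 23 * ε ≤ 25 * ε + w u * (1 / 2 + p) := by
    have h1 : tx G k W v (wt w) ≤ tx G k W v (fun D => fr (G.neighborSet u) D * φ D
        + w u * ((1/4) * cd D ^ 2 + (1 - fr (G.neighborSet u) D))) := by
      refine cnd_mono k _ _ _ _ (fun D hD _ => ?_)
      have h1 := hφW D (hsubx v D hD)
      have h3 := wt_le w (w u) D (fun z hz => hmax z (hsubx v D hD hz))
      have h4 := cd_nonneg D
      have h5 : 0 ≤ w u := by linarith
      by_cases h6 : ∀ y ∈ D, y ∉ G.neighborSet u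
      · have h7 : fr (G.neighborSet u) D = 1 := by unfold fr; rw [if_pos h6]
        rw [h7, h1]
        have h8 : 0 ≤ w u * ((1/4) * cd D ^ 2 + (1 - 1)) := by positivity
        have h9 : 0 ≤ 4 * ε * cd D := by positivity
        linarith
      · have h7 : fr (G.neighborSet u) D = 0 := by unfold fr; rw [if_neg h6]
        rw [h7]
        have h8 : cd D ≤ (1/4) * cd D ^ 2 + (1 - 0) := by nlinarith [sq_nonneg (cd D - 2)]
        have h9 := mul_le_mul_of_nonneg_left h8 h5
        linarith
    have h3 : tx G k W v (fun D => fr (G.neighborSet u) D * φ D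
        + w u * ((1/4) * cd D ^ 2 + (1 - fr (G.neighborSet u) D)))
        = tx G k W v (fun D => fr (G.neighborSet u) D * φ D)
          + w u * ((1/4) * tx G k W v (fun D => cd D ^ 2) + p) := by
      rw [hp]
      unfold tx
      rw [cnd_add, cnd_mul_left, cnd_add, cnd_mul_left]
    have h4 := m2 v hv
    have h5 : 0 ≤ w u := by linarith
    have h6 : w u * ((1/4) * tx G k W v (fun D => cd D ^ 2) + p) ≤ w u * (1 / 2 + p) :=
      mul_le_mul_of_nonneg_left (by linarith) h5
    linarith
  have hp45 : 9 / 20 ≤ p := by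
    have h1 : w u * (tx G k W v cd - 1 / 2 - p) ≤ 48 * ε := by linarith
    have h3 : tx G k W v cd - 1 / 2 - p ≤ 336 * ε := by
      by_contra h4
      push Not at h4
      have h5 : 1 / 7 * (tx G k W v cd - 1 / 2 - p) ≤ w u * (tx G k W v cd - 1 / 2 - p) :=
        mul_le_mul_of_nonneg_right hws7 (by have : 0 ≤ 336 * ε := by positivity
                                            linarith)
      linarith
    rw [hε] at h3 ha1
    linarith
  -- a good vertex `z` in `N(u)`
  have hz : ∃ z ∈ W, G.Adj u z ∧ w u - 58 * ε ≤ w z := by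
    by_contra hno
    push Not at hno
    have h1 : (58 * ε) * p ≤ w u * tx G k W v cd - tx G k W v (wt w) := by
      rw [hp]
      unfold tx
      rw [← cnd_mul_left, ← cnd_mul_left, ← cnd_sub]
      refine cnd_mono k _ _ _ _ (fun D hD _ => ?_)
      have hDW := hsubx v D hD
      have e : w u * cd D - wt w D = ∑ z ∈ D, (w u - w z) := by
        unfold wt cd
        rw [Finset.sum_sub_distrib, Finset.sum_const, nsmul_eq_mul]; ring
      rw [e]
      have hnn : ∀ z ∈ D, 0 ≤ w u - w z := fun z hz => by have := hmax z (hDW hz); linarith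
      by_cases h6 : ∀ y ∈ D, y ∉ G.neighborSet u
      · have h7 : fr (G.neighborSet u) D = 1 := by unfold fr; rw [if_pos h6]
        rw [h7]
        have := Finset.sum_nonneg hnn
        linarith
      · have h7 : fr (G.neighborSet u) D = 0 := by unfold fr; rw [if_neg h6]
        rw [h7]
        push Not at h6
        obtain ⟨y, hy, hyu⟩ := h6
        have h8 := Finset.single_le_sum hnn hy
        have h9 := hno y (hDW hy) ((SimpleGraph.mem_neighborSet _ _ _).1 hyu)
        linarith
    rw [hε] at h1 hb1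
    linarith
  obtain ⟨z, hz, huz, hwz⟩ := hz
  have hΓ2 : 2 * w u - 75 * ε ≤ Γ := by
    have h1 := hbad z hz huz
    have h3 := telo' z
    linarith
  have hx1 : ∀ x ∈ W, w u - 81 * ε ≤ w x := by
    intro x hx
    have h1 := abs_le.1 (hW x hx)
    have h3 := twhi x
    have h4 := mul_le_mul_of_nonneg_left (m1 x hx) hwu0
    linarith [h1.1, h1.2]
  have hx2 : ∀ x ∈ W, 1 - 567 * ε ≤ tx G k W x cd := by
    intro x hx
    have h1 := abs_le.1 (hW x hx)
    have h3 := twhi x
    have h4 := hmax x hx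
    have h5 : w u * (1 - tx G k W x cd) ≤ 81 * ε := by linarith [h1.1, h1.2]
    have h6 : 1 / 7 * (1 - tx G k W x cd) ≤ w u * (1 - tx G k W x cd) :=
      mul_le_mul_of_nonneg_right hws7 (by have := m1 x hx; linarith)
    linarith
  have hte3 : te G k W u v cd ≤ 152 * ε := by
    have h1 : 1 / 8 * te G k W u v cd ≤ te G k W u v (wt w) := by
      unfold te
      rw [← cnd_mul_left]
      refine cnd_mono k _ _ _ _ (fun D hD _ => le_wt w (1/8) D (fun z hz => ?_))
      have := hx1 z (hsube D hD hz)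
      rw [hε] at this
      linarith
    linarith
  have hlast := last_step (G := G) k W hc u v hu hv huv B (by linarith) hJ (567 * ε) (152 * ε)
    (by positivity) (by rw [hε]; norm_num) hx2 hte3 (by positivity)
  have h63 : 63 / B ≤ 1 / 100000 := by
    rw [div_le_div_iff₀ hBpos (by norm_num)]; linarith
  rw [hε] at hlast
  linarith

theorem high_case : ∃ M : ℝ, ∀ {V : Type} (G : SimpleGraph V) (k : ℕ) (W : Finset V), W.card ≤ k → M ≤ J G k W →
    W.Nonempty → (∀ v ∈ W, ∃ w ∈ W, G.Adj v w) →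
    ∃ u ∈ W, ∃ v ∈ W, G.Adj u v ∧
      J G k W ≤ cnd G k ((W.erase u).erase v) (G.neighborSet u ∪ G.neighborSet v)
        (fun T => J G (k-1) (((W.erase u).erase v) \ T)) := by
  obtain ⟨M, hM⟩ := sdp_of (1 / 10000) (by norm_num)
  refine ⟨max M 10000001, fun {V} G k W hc hJ hne hnb => ?_⟩
  exact high_core (G := G) k W hc (1 / 10000) rfl 10000000 le_rfl
    (by have := le_max_right M 10000001; linarith) (hM G k W hc (le_trans (le_max_left _ _) hJ)) hne hnb

end

end Helper87.BWL
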