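import Mathlib
import Pool.Agent.Helper87.BW.Frame2

set_option autoImplicit false

/-! MODULE LOW (helper36) for MP_36ff57_co: few unused colours force adjacent twins. -/

namespace Helper87.BWL

open Finset Classical Helper53.BW

noncomputable section

variable {V : Type*} {G : SimpleGraph V}

namespace Low

/-- the class is `A` -/
def eq1 (A D : Finset V) : ℝ := if D = A then 1 else 0

lemma eq1_self (A : Finset V) : eq1 A A = 1 := if_pos rfl

lemma eq1_ne {A D : Finset V} (h : D ≠ A) : eq1 A D = 0 := if_neg h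

lemma eq1_nonneg (A D : Finset V) : 0 ≤ eq1 A D := by
  unfold eq1; split_ifs <;> norm_num

lemma em_eq : (em : Finset V → ℝ) = eq1 ∅ := rfl

lemma ED_eq1 (k : ℕ) (W A : Finset V) (hA : A ∈ I G W) (f : Finset V → ℝ) :
    ED G k W (fun D => eq1 A D * f D) = P G (k-1) (W \ A) * f A / P G k W := by
  unfold ED
  rw [Finset.sum_eq_single A]
  · beta_reduce
    rw [eq1_self, one_mul]
  · intro D _ hD
    beta_reduce
    rw [eq1_ne hD, zero_mul, mul_zero]
  · intro h; exact absurd hA h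

/-- two disjoint classes -/
lemma Ex_two (k : ℕ) (W A B : Finset V) (hA : A ∈ I G W) (hB : B ∈ I G (W \ A)) (hAB : A ≠ B)
    (hc : (W \ A).card ≤ k - 1) :
    Ex G k W (fun m => sh (eq1 A) m * sh (eq1 B) m) =
      k * ((k - 1 : ℕ) * P G (k - 1 - 1) ((W \ A) \ B)) / P G k W := by
  have hP : P G (k-1) (W \ A) ≠ 0 := (P_pos _ _ hc).ne'
  have h1 := Ex_ex (G := G) k W (eq1 A) (fun m => sh (eq1 B) m)
  rw [h1, ED_eq1 k W A hA]
  have h2 : Ex G (k-1) (W \ A) (fun m => sh (eq1 B) (A ::ₘ m)) = a G (k-1) (W \ A) (eq1 B) := by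
    unfold a
    refine Ex_congr _ _ _ _ fun m _ => ?_
    rw [sh_cons, eq1_ne hAB, zero_add]
  have h3 : a G (k-1) (W \ A) (eq1 B) =
      (k - 1 : ℕ) * (P G (k-1-1) ((W \ A) \ B) / P G (k-1) (W \ A)) := by
    rw [a_eq]
    congr 1
    have := ED_eq1 (G := G) (k-1) (W \ A) B hB (fun _ => 1)
    simpa using this
  rw [h2, h3]
  field_simp

/-- pointwise bound: classes equal to a pair -/
lemma pair_class (s : Finset (V × V)) (hs : ∀ p ∈ s, p.1 ≠ p.2)
    (hd : ∀ p ∈ s, ∀ q ∈ s, p ≠ q → Disjoint ({p.1, p.2} : Finset V) {q.1, q.2}) (D : Finset V) :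
    ∑ p ∈ s, eq1 {p.1, p.2} D ≤ em D + (cd D - 1) := by
  by_cases h : ∃ p ∈ s, D = {p.1, p.2}
  · obtain ⟨p, hp, rfl⟩ := h
    rw [Finset.sum_eq_single p]
    · rw [eq1_self]
      have h1 : em ({p.1, p.2} : Finset V) = 0 := if_neg (Finset.insert_ne_empty _ _)
      have h2 : cd ({p.1, p.2} : Finset V) = 2 := by
        rw [cd, Finset.card_pair (hs p hp)]; norm_num
      rw [h1, h2]; norm_num
    · intro q hq hqp
      refine eq1_ne fun h1 => ?_
      have h2 := hd p hp q hq hqp.symm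
      rw [h1, Finset.disjoint_self_iff_empty] at h2
      exact Finset.insert_ne_empty _ _ h2
    · intro h1; exact absurd hp h1
  · push Not at h
    rw [Finset.sum_eq_zero fun p hp => eq1_ne (h p hp)]
    by_cases hD : D = ∅
    · rw [hD]; simp [em, cd]
    · have h1 : (1 : ℝ) ≤ cd D := by
        rw [cd]; exact_mod_cast Finset.card_pos.mpr (Finset.nonempty_iff_ne_empty.mpr hD)
      have h2 : 0 ≤ em D := by unfold em; split_ifs <;> norm_num
      linarith

/-- pointwise bound: singletons -/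
lemma single_class (W D : Finset V) (hD : D ⊆ W) :
    2 - cd D - 2 * em D ≤ ∑ v ∈ W, eq1 {v} D := by
  have h0 : 0 ≤ ∑ v ∈ W, eq1 {v} D := Finset.sum_nonneg fun v _ => eq1_nonneg _ _
  rcases Nat.lt_trichotomy D.card 1 with h | h | h
  · have h1 : D = ∅ := Finset.card_eq_zero.mp (by omega)
    rw [h1] at h0 ⊢
    have h2 : em (∅ : Finset V) = 1 := if_pos rfl
    have h3 : cd (∅ : Finset V) = 0 := by simp [cd]
    rw [h2, h3]
    linarith
  · obtain ⟨v, rfl⟩ := Finset.card_eq_one.mp h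
    have h1 : em ({v} : Finset V) = 0 := if_neg (Finset.singleton_ne_empty v)
    have h2 : cd ({v} : Finset V) = 1 := by simp [cd]
    have h3 : eq1 {v} ({v} : Finset V) ≤ ∑ w ∈ W, eq1 {w} ({v} : Finset V) :=
      Finset.single_le_sum (f := fun w => eq1 {w} ({v} : Finset V)) (fun w _ => eq1_nonneg _ _)
        (hD (Finset.mem_singleton_self v))
    rw [eq1_self] at h3
    rw [h1, h2]
    linarith
  · have h1 : em D = 0 := if_neg fun h1 => by rw [h1] at h; simp at h
    have h2 : (2 : ℝ) ≤ cd D := by rw [cd]; exact_mod_cast h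
    rw [h1]
    linarith

lemma sh_sum {ι : Type*} (s : Finset ι) (f : ι → Finset V → ℝ) (m : Multiset (Finset V)) :
    sh (fun D => ∑ i ∈ s, f i D) m = ∑ i ∈ s, sh (f i) m := by
  induction m using Multiset.induction_on with
  | empty => simp [sh_zero]
  | cons D m ih =>
    rw [sh_cons, ih]
    rw [← Finset.sum_add_distrib]
    exact Finset.sum_congr rfl fun i _ => (sh_cons _ _ _).symm

lemma sh_sub (h h' : Finset V → ℝ) (m : Multiset (Finset V)) :
    sh (fun D => h D - h' D) m = sh h m - sh h' m := by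
  have h1 := sh_add h (fun D => (-1) * h' D) m
  rw [sh_mul_left] at h1
  have h2 : (fun D => h D - h' D) = fun D => h D + (-1) * h' D := by funext D; ring
  rw [h2, h1]; ring

/-- the number of classes which are pairs of the family is at most the number of unused colours -/
lemma pairs_pt {k : ℕ} {W : Finset V} (hc : W.card ≤ k) {m : Multiset (Finset V)}
    (hm : Val G k W m) (s : Finset (V × V)) (hs : ∀ p ∈ s, p.1 ≠ p.2)
    (hd : ∀ p ∈ s, ∀ q ∈ s, p ≠ q → Disjoint ({p.1, p.2} : Finset V) {q.1, q.2}) :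
    ∑ p ∈ s, sh (eq1 {p.1, p.2}) m ≤ sh em m := by
  rw [← sh_sum]
  have h1 := sh_mono hm (fun D => ∑ p ∈ s, eq1 {p.1, p.2} D) (fun D => em D + (cd D - 1))
    fun D _ => pair_class s hs hd D
  rw [sh_add em (fun D => cd D - 1), sh_sub cd (fun _ => 1), sh_cd hm, sh_const hm] at h1
  have h2 : (W.card : ℝ) ≤ k := by exact_mod_cast hc
  linarith

lemma single_pt {k : ℕ} {W : Finset V} (hc : W.card ≤ k) {m : Multiset (Finset V)}
    (hm : Val G k W m) : ∑ v ∈ W, (1 - sh (eq1 {v}) m) ≤ 2 * sh em m := by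
  rw [Finset.sum_sub_distrib, Finset.sum_const, nsmul_eq_mul, mul_one, ← sh_sum]
  have h1 := sh_mono hm (fun D => 2 - cd D - 2 * em D) (fun D => ∑ v ∈ W, eq1 {v} D)
    fun D hD => single_class W D (mem_I.mp hD).1
  rw [sh_sub (fun D => 2 - cd D) (fun D => 2 * em D), sh_sub (fun _ => 2) cd, sh_mul_left,
    sh_cd hm, sh_const hm] at h1
  have h2 : (W.card : ℝ) ≤ k := by exact_mod_cast hc
  linarith

lemma t_le {k : ℕ} {W : Finset V} {m : Multiset (Finset V)} (hm : Val G k W m) (v : V) :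
    sh (eq1 {v}) m ≤ 1 := by
  have h1 := sh_mono hm (eq1 {v}) (nv v) fun D _ => by
    unfold eq1 nv
    split_ifs with h1 h2 h2
    · exact le_rfl
    · exact absurd (by rw [h1]; exact Finset.mem_singleton_self v) h2
    · norm_num
    · exact le_rfl
  rw [sh_nv hm] at h1
  refine h1.trans ?_
  split_ifs <;> norm_num

/-- disjoint non-adjacent pairs: pointwise -/
lemma singles_pt {k : ℕ} {W : Finset V} (hc : W.card ≤ k) {m : Multiset (Finset V)}
    (hm : Val G k W m) (s : Finset (V × V)) (hs : ∀ p ∈ s, p.1 ∈ W ∧ p.2 ∈ W ∧ p.1 ≠ p.2)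
    (hd : ∀ p ∈ s, ∀ q ∈ s, p ≠ q → Disjoint ({p.1, p.2} : Finset V) {q.1, q.2}) :
    (s.card : ℝ) - 2 * sh em m ≤ ∑ p ∈ s, sh (eq1 {p.1}) m * sh (eq1 {p.2}) m := by
  have h1 : ∑ p ∈ s, ∑ v ∈ ({p.1, p.2} : Finset V), (1 - sh (eq1 {v}) m) ≤
      ∑ v ∈ W, (1 - sh (eq1 {v}) m) := by
    rw [← Finset.sum_biUnion (fun p hp q hq hpq => hd p hp q hq hpq)]
    refine Finset.sum_le_sum_of_subset_of_nonneg ?_ fun v _ _ => by
      have := t_le hm v
      linarith
    intro v hv
    rw [Finset.mem_biUnion] at hv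
    obtain ⟨p, hp, hvp⟩ := hv
    rw [Finset.mem_insert, Finset.mem_singleton] at hvp
    rcases hvp with rfl | rfl
    · exact (hs p hp).1
    · exact (hs p hp).2.1
  have h2 : ∀ p ∈ s, 1 - ∑ v ∈ ({p.1, p.2} : Finset V), (1 - sh (eq1 {v}) m) ≤
      sh (eq1 {p.1}) m * sh (eq1 {p.2}) m := by
    intro p hp
    rw [Finset.sum_pair (hs p hp).2.2]
    have h3 := t_le hm p.1
    have h4 := t_le hm p.2
    nlinarith [mul_nonneg (sub_nonneg.mpr h3) (sub_nonneg.mpr h4)]
  have h3 := Finset.sum_le_sum h2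
  rw [Finset.sum_sub_distrib, Finset.sum_const, nsmul_eq_mul, mul_one] at h3
  have h4 := single_pt hc hm
  linarith

lemma J_mono_step (k : ℕ) (W : Finset V) (hc : W.card + 1 ≤ k) : J G (k - 1) W ≤ J G k W := by
  obtain ⟨l, rfl⟩ : ∃ l, k = l + 1 := ⟨k - 1, by omega⟩
  rw [Nat.add_sub_cancel]
  rcases W.eq_empty_or_nonempty with rfl | ⟨y, hy⟩
  · have h1 : ∀ n : ℕ, J G n (∅ : Finset V) = n := fun n => by
      have h0 : ∀ n : ℕ, P G n (∅ : Finset V) = 1 := P_empty
      unfold J; rw [h0, h0]; simp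
    rw [h1, h1]
    push_cast
    linarith
  · exact (J_anti l (W.erase y) W (Finset.erase_subset _ _) (by omega)).trans
      (J_up l W y hy (by omega))

/-- second moment of the number of unused colours -/
lemma U_sq_le (k : ℕ) (W : Finset V) (hc : W.card + 1 ≤ k) :
    Ex G k W (fun m => sh em m ^ 2) ≤ J G k W + J G k W ^ 2 := by
  have h1 := cov_eq (G := G) k W (by omega) (by omega) em em
  have h2 : (fun m : Multiset (Finset V) => sh em m ^ 2) = fun m => sh em m * sh em m := by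
    funext m; ring
  have h3 : ED G k W (fun D => em D * psi G k W em D) = psi G k W em ∅ * ED G k W em := by
    rw [← ED_mul_em]
    exact congrArg _ (funext fun D => mul_comm _ _)
  have h4 : psi G k W em ∅ = 1 + J G (k - 1) W - J G k W := by
    show em ∅ + a G (k - 1) (W \ ∅) em - a G k W em = _
    rw [Finset.sdiff_empty, J_eq_a, J_eq_a]
    rw [show em (∅ : Finset V) = 1 from if_pos rfl]
  have h5 : (k : ℝ) * ED G k W em = J G k W := by rw [← J_eq_a, a_eq]
  rw [h3, J_eq_a, h4] at h1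
  rw [h2]
  have h6 := J_mono_step (G := G) k W hc
  have h7 := J_nonneg (G := G) k W
  have h8 : (k : ℝ) * ((1 + J G (k - 1) W - J G k W) * ED G k W em) =
      (1 + J G (k - 1) W - J G k W) * J G k W := by rw [← h5]; ring
  rw [h8] at h1
  nlinarith

end Low

open Low in
/-- disjoint non-adjacent pairs force many unused colours -/
lemma pairs_le (k : ℕ) (W : Finset V) (hc : W.card + 1 ≤ k) (s : Finset (V × V))
    (hs : ∀ p ∈ s, p.1 ∈ W ∧ p.2 ∈ W ∧ p.1 ≠ p.2 ∧ ¬ G.Adj p.1 p.2)
    (hd : ∀ p ∈ s, ∀ q ∈ s, p ≠ q → Disjoint ({p.1, p.2} : Finset V) {q.1, q.2}) :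
    (s.card : ℝ) ≤ J G k W ^ 2 + 3 * J G k W := by
  have hc' : W.card ≤ k := by omega
  have hU : Ex G k W (fun m => sh em m) = J G k W := J_eq_a k W
  have hsing : ∀ v : V, Indep G {v} := by
    intro v x hx y hy
    rw [Finset.mem_singleton] at hx hy
    rw [hx, hy]
    exact G.loopless.irrefl _
  -- the two expectations agree
  have hkey : ∀ p ∈ s, Ex G k W (fun m => sh (eq1 {p.1}) m * sh (eq1 {p.2}) m) =
      Ex G k W (fun m => sh (eq1 {p.1, p.2}) m * sh em m) := by
    intro p hp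
    obtain ⟨h1, h2, h3, h4⟩ := hs p hp
    have hcard : ∀ A : Finset V, A ⊆ W → A.Nonempty → (W \ A).card ≤ k - 1 := by
      intro A hA hne
      have := Finset.card_sdiff_add_card_eq_card hA
      have := hne.card_pos
      omega
    rw [Ex_two k W {p.1} {p.2} ?_ ?_ ?_ (hcard _ (by simpa using h1) (Finset.singleton_nonempty _)),
      em_eq, Ex_two k W {p.1, p.2} ∅ ?_ ?_ ?_ (hcard _ ?_ (Finset.insert_nonempty _ _))]
    · have h5 : (W \ {p.1, p.2}) \ ∅ = (W \ {p.1}) \ {p.2} := by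
        ext x; simp only [Finset.mem_sdiff, Finset.mem_insert, Finset.mem_singleton,
          Finset.notMem_empty]; tauto
      rw [h5]
    · rw [mem_I]
      refine ⟨?_, ?_⟩
      · intro x hx
        rw [Finset.mem_insert, Finset.mem_singleton] at hx
        rcases hx with rfl | rfl
        · exact h1
        · exact h2
      · intro x hx y hy
        rw [Finset.mem_insert, Finset.mem_singleton] at hx hy
        rcases hx with rfl | rfl <;> rcases hy with rfl | rfl
        · exact G.loopless.irrefl _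
        · exact h4
        · exact fun h => h4 h.symm
        · exact G.loopless.irrefl _
    · rw [mem_I]
      exact ⟨Finset.empty_subset _, indep_empty⟩
    · exact Finset.insert_ne_empty _ _
    · intro x hx
      rw [Finset.mem_insert, Finset.mem_singleton] at hx
      rcases hx with rfl | rfl
      · exact h1
      · exact h2
    · rw [mem_I]
      exact ⟨by simpa using h1, hsing _⟩
    · rw [mem_I]
      refine ⟨?_, hsing _⟩
      intro x hx
      rw [Finset.mem_singleton] at hx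
      rw [hx, Finset.mem_sdiff, Finset.mem_singleton]
      exact ⟨h2, h3.symm⟩
    · intro h; exact h3 (Finset.singleton_injective h)
  have hmean : Ex G k W (fun m => sh em m ^ 2) ≤ J G k W + J G k W ^ 2 := U_sq_le k W hc
  have hupper : Ex G k W (fun m => ∑ p ∈ s, sh (eq1 {p.1, p.2}) m * sh em m) ≤
      Ex G k W (fun m => sh em m ^ 2) := by
    refine Ex_mono _ _ _ _ fun m hm => ?_
    rw [← Finset.sum_mul, pow_two]
    refine mul_le_mul_of_nonneg_right (pairs_pt hc' hm s (fun p hp => (hs p hp).2.2.1) hd) ?_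
    have h1 := sh_mono hm (fun _ => 0) em fun D _ => by unfold em; split_ifs <;> norm_num
    rw [sh_const hm, mul_zero] at h1
    exact h1
  have hlower : (s.card : ℝ) - 2 * J G k W ≤
      Ex G k W (fun m => ∑ p ∈ s, sh (eq1 {p.1}) m * sh (eq1 {p.2}) m) := by
    have h1 : Ex G k W (fun m => (s.card : ℝ) - 2 * sh em m) = s.card - 2 * J G k W := by
      rw [Ex_sub, Ex_const _ _ hc', Ex_mul_left, hU]
    rw [← h1]
    exact Ex_mono _ _ _ _ fun m hm => singles_pt hc' hm s
      (fun p hp => ⟨(hs p hp).1, (hs p hp).2.1, (hs p hp).2.2.1⟩) hd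
  rw [Ex_sum] at hlower hupper
  rw [Finset.sum_congr rfl hkey] at hlower
  linarith

/-- few disjoint non-adjacent pairs: adjacent twins -/
lemma twins_of_pairs (W : Finset V) (N : ℕ)
    (hN : ∀ s : Finset (V × V), (∀ p ∈ s, p.1 ∈ W ∧ p.2 ∈ W ∧ p.1 ≠ p.2 ∧ ¬ G.Adj p.1 p.2) →
      (∀ p ∈ s, ∀ q ∈ s, p ≠ q → Disjoint ({p.1, p.2} : Finset V) {q.1, q.2}) → s.card ≤ N)
    (hW : 2 * N + 2 ^ (2 * N) < W.card) :
    ∃ u ∈ W, ∃ v ∈ W, G.Adj u v ∧ ∀ w ∈ W, w ≠ u → w ≠ v → (G.Adj u w ↔ G.Adj v w) := by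
  set F : Finset (Finset (V × V)) := (W ×ˢ W).powerset.filter fun s =>
    (∀ p ∈ s, p.1 ∈ W ∧ p.2 ∈ W ∧ p.1 ≠ p.2 ∧ ¬ G.Adj p.1 p.2) ∧
      (∀ p ∈ s, ∀ q ∈ s, p ≠ q → Disjoint ({p.1, p.2} : Finset V) {q.1, q.2}) with hF
  have hFne : F.Nonempty := ⟨∅, by simp [hF]⟩
  obtain ⟨s, hs, hmax⟩ := Finset.exists_max_image F Finset.card hFne
  rw [hF, Finset.mem_filter, Finset.mem_powerset] at hs
  obtain ⟨_, hs1, hs2⟩ := hs
  set R : Finset V := s.biUnion fun p => ({p.1, p.2} : Finset V) with hR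
  have hRc : R.card ≤ 2 * N := by
    refine (Finset.card_biUnion_le).trans ?_
    have h1 : ∑ p ∈ s, ({p.1, p.2} : Finset V).card ≤ ∑ _p ∈ s, 2 :=
      Finset.sum_le_sum fun p _ => Finset.card_le_two
    rw [Finset.sum_const, smul_eq_mul] at h1
    have h2 := hN s hs1 hs2
    omega
  -- outside `R` everything is adjacent
  have hcl : ∀ u ∈ W \ R, ∀ v ∈ W \ R, u ≠ v → G.Adj u v := by
    intro u hu v hv huv
    by_contra hadj
    rw [Finset.mem_sdiff] at hu hv
    have hnew : (u, v) ∉ s := fun h => hu.2 (by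
      rw [hR, Finset.mem_biUnion]
      exact ⟨(u, v), h, Finset.mem_insert_self _ _⟩)
    have hdis : ∀ q ∈ s, Disjoint ({u, v} : Finset V) {q.1, q.2} := by
      intro q hq
      rw [Finset.disjoint_left]
      intro x hx hxq
      have h1 : x ∈ R := by
        rw [hR, Finset.mem_biUnion]
        exact ⟨q, hq, hxq⟩
      rw [Finset.mem_insert, Finset.mem_singleton] at hx
      rcases hx with rfl | rfl
      · exact hu.2 h1
      · exact hv.2 h1
    have hmem : insert (u, v) s ∈ F := by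
      rw [hF, Finset.mem_filter, Finset.mem_powerset]
      have h1 : ∀ p ∈ insert (u, v) s, p.1 ∈ W ∧ p.2 ∈ W ∧ p.1 ≠ p.2 ∧ ¬ G.Adj p.1 p.2 := by
        intro p hp
        rw [Finset.mem_insert] at hp
        rcases hp with rfl | hp
        · exact ⟨hu.1, hv.1, huv, hadj⟩
        · exact hs1 p hp
      refine ⟨?_, h1, ?_⟩
      · intro p hp
        rw [Finset.mem_product]
        exact ⟨(h1 p hp).1, (h1 p hp).2.1⟩
      · intro p hp q hq hpq
        rw [Finset.mem_insert] at hp hq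
        rcases hp with rfl | hp <;> rcases hq with rfl | hq
        · exact absurd rfl hpq
        · exact hdis q hq
        · exact (hdis p hp).symm
        · exact hs2 p hp q hq hpq
    have := hmax _ hmem
    rw [Finset.card_insert_of_notMem hnew] at this
    omega
  -- pigeonhole
  have hcard : R.powerset.card < (W \ R).card := by
    rw [Finset.card_powerset]
    have h1 : W.card ≤ (W \ R).card + R.card := by
      have := Finset.card_le_card (s := W) (t := (W \ R) ∪ R) fun x hx => by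
        rw [Finset.mem_union, Finset.mem_sdiff]
        tauto
      exact this.trans (Finset.card_union_le _ _)
    have h2 : 2 ^ R.card ≤ 2 ^ (2 * N) := Nat.pow_le_pow_right (by norm_num) hRc
    omega
  obtain ⟨u, hu, v, hv, huv, hf⟩ := Finset.exists_ne_map_eq_of_card_lt_of_maps_to hcard
    (f := fun v => R.filter fun w => G.Adj v w) (fun v _ => by
      simp only [Finset.coe_powerset, Set.mem_preimage, Set.mem_powerset_iff, Finset.coe_subset]
      exact Finset.filter_subset _ _)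
  have hu' := Finset.mem_sdiff.mp hu
  have hv' := Finset.mem_sdiff.mp hv
  refine ⟨u, hu'.1, v, hv'.1, hcl u hu v hv huv, ?_⟩
  intro w hw hwu hwv
  by_cases hwR : w ∈ R
  · have h1 : w ∈ R.filter (fun w => G.Adj u w) ↔ w ∈ R.filter (fun w => G.Adj v w) := by
      rw [show R.filter (fun w => G.Adj u w) = R.filter (fun w => G.Adj v w) from hf]
    rw [Finset.mem_filter, Finset.mem_filter] at h1
    constructor
    · intro h; exact (h1.mp ⟨hwR, h⟩).2
    · intro h; exact (h1.mpr ⟨hwR, h⟩).2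
  · have hw' : w ∈ W \ R := Finset.mem_sdiff.mpr ⟨hw, hwR⟩
    exact ⟨fun _ => hcl v hv w hw' hwv.symm, fun _ => hcl u hu w hw' hwu.symm⟩

/-- few unused colours on a large graph: adjacent twins -/
theorem low_case (M : ℝ) : ∃ N : ℕ, ∀ {V : Type} (G : SimpleGraph V) (k : ℕ) (W : Finset V),
    W.card ≤ k → N ≤ W.card → J G k W ≤ M →
    ∃ u ∈ W, ∃ v ∈ W, G.Adj u v ∧ ∀ w ∈ W, w ≠ u → w ≠ v → (G.Adj u w ↔ G.Adj v w) := by
  set N₀ : ℕ := ⌈(M + 1) ^ 2 + 3 * (M + 1)⌉₊ with hN₀
  refine ⟨2 * N₀ + 2 ^ (2 * N₀) + 1, ?_⟩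
  intro V G k W hc hN hM
  have h1 : J G (k + 1) W ≤ M + 1 := (J_succ_le k W hc).trans (by linarith)
  have h0 : 0 ≤ J G (k + 1) W := J_nonneg _ _
  refine twins_of_pairs W N₀ ?_ (by omega)
  intro s hs hd
  have h2 := pairs_le (G := G) (k + 1) W (by omega) s hs hd
  have h3 : (s.card : ℝ) ≤ (M + 1) ^ 2 + 3 * (M + 1) := by nlinarith
  exact_mod_cast h3.trans (Nat.le_ceil _)

end

end Helper87.BWL
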